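import Mathlib
import Pool.Agent.Lib.MP_89da58_nt.Defs2

set_option autoImplicit false

/-!
Mertens-type bounds for the product over primes up to `T`, with absolute constants.
-/

open Finset

namespace Pool.Agent.MT

open Pool.Agent.MP89da58

/-- primes in a finite set, reciprocal monoid homomorphism -/
noncomputable def invHom : ℕ →* ℝ where
  toFun n := (n : ℝ)⁻¹
  map_one' := by simp
  map_mul' m n := by push_cast; rw [mul_inv]

noncomputable def rpowHom (s : ℝ) (_hs : 0 < s) : ℕ →* ℝ where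
  toFun n := (n : ℝ) ^ (-s)
  map_one' := by simp
  map_mul' m n := by push_cast; rw [Real.mul_rpow (Nat.cast_nonneg _) (Nat.cast_nonneg _)]

/-- the harmonic sum over `n ≤ T` is at most the Euler product over a set of primes containing all
primes up to `T` -/
lemma sum_inv_le_prod (s : Finset ℕ) (A : Finset ℕ) (hA : ∀ n ∈ A, n ∈ Nat.factoredNumbers s) :
    ∑ n ∈ A, (n : ℝ)⁻¹ ≤ ∏ p ∈ s with p.Prime, (1 - (p : ℝ)⁻¹)⁻¹ := by
  classical
  have h := EulerProduct.summable_and_hasSum_factoredNumbers_prod_filter_prime_geometric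
    (f := invHom) (by
      intro p hp
      change ‖((p : ℝ))⁻¹‖ < 1
      rw [norm_inv, Real.norm_natCast]
      apply inv_lt_one_of_one_lt₀
      exact_mod_cast hp.one_lt) s
  have h2 := h.2
  change HasSum (fun m : Nat.factoredNumbers s => (((m : ℕ) : ℝ))⁻¹)
    (∏ p ∈ s with p.Prime, (1 - (p : ℝ)⁻¹)⁻¹) at h2
  set A' : Finset (Nat.factoredNumbers s) := A.attach.image (fun n => ⟨n.1, hA n.1 n.2⟩) with hA'
  have h3 : ∑ n ∈ A, (n : ℝ)⁻¹ = ∑ m ∈ A', (((m : ℕ) : ℝ))⁻¹ := by
    rw [hA', Finset.sum_image, ← Finset.sum_attach]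
    intro a _ b _ hab
    simp only [Subtype.mk.injEq] at hab
    exact Subtype.ext hab
  rw [h3]
  exact sum_le_hasSum A' (fun m _ => by positivity) h2

lemma kapD_pos (z : ℕ) : 0 < kapD z := by
  unfold kapD
  apply Finset.prod_pos
  intro p hp
  have hp2 : (2 : ℝ) ≤ p := by exact_mod_cast (Finset.mem_filter.1 hp).2.two_le
  have : 1 / (p : ℝ) ≤ 1 / 2 := one_div_le_one_div_of_le (by norm_num) hp2
  linarith

lemma kapD_le_one (z : ℕ) : kapD z ≤ 1 := by
  unfold kapD
  apply Finset.prod_le_one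
  · intro p hp
    have hp2 : (2 : ℝ) ≤ p := by exact_mod_cast (Finset.mem_filter.1 hp).2.two_le
    have : 1 / (p : ℝ) ≤ 1 / 2 := one_div_le_one_div_of_le (by norm_num) hp2
    linarith
  · intro p hp
    have : 0 ≤ 1 / (p : ℝ) := by positivity
    linarith

lemma kapD_inv (z : ℕ) : (kapD z)⁻¹ = ∏ p ∈ (Icc 1 z) with p.Prime, (1 - (p : ℝ)⁻¹)⁻¹ := by
  unfold kapD
  rw [← Finset.prod_inv_distrib]
  apply Finset.prod_congr rfl
  intro p _
  rw [one_div]

lemma log_le_sum_inv (T : ℕ) (hT : 1 ≤ T) : Real.log T ≤ ∑ n ∈ Icc 1 T, (n : ℝ)⁻¹ := by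
  have h1 := log_add_one_le_harmonic T
  have h2 : Real.log T ≤ Real.log ((T + 1 : ℕ) : ℝ) := by
    apply Real.log_le_log
    · exact_mod_cast hT
    · push_cast; linarith
  refine h2.trans (h1.trans ?_)
  rw [harmonic_eq_sum_Icc]
  push_cast
  exact le_rfl

/-- `κ(z) log z ≤ 1` -/
lemma kapD_mul_log_le (z : ℕ) (hz : 1 ≤ z) : kapD z * Real.log z ≤ 1 := by
  have h1 := log_le_sum_inv z hz
  have h2 := sum_inv_le_prod (Icc 1 z) (Icc 1 z) (by
    intro n hn
    rw [Finset.mem_Icc] at hn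
    rw [Nat.mem_factoredNumbers]
    refine ⟨by omega, fun p hp => ?_⟩
    have hpp := Nat.prime_of_mem_primeFactorsList hp
    have hpd := Nat.dvd_of_mem_primeFactorsList hp
    rw [Finset.mem_Icc]
    exact ⟨hpp.one_le, (Nat.le_of_dvd (by omega) hpd).trans hn.2⟩)
  rw [← kapD_inv] at h2
  have h3 := kapD_pos z
  have h4 : kapD z * Real.log z ≤ kapD z * (kapD z)⁻¹ :=
    mul_le_mul_of_nonneg_left (h1.trans h2) h3.le
  rwa [mul_inv_cancel₀ h3.ne'] at h4

/-- `∑_{p ≤ T} log p / p ≤ log T + log 4` -/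
lemma sum_log_div_le (T : ℕ) (hT : 1 ≤ T) :
    ∑ p ∈ (Icc 1 T).filter Nat.Prime, Real.log p / p ≤ Real.log T + Real.log 4 := by
  have hT0 : (0 : ℝ) < T := by exact_mod_cast hT
  -- the product of `p ^ (T / p)` divides `T!`
  have hdvd : ∏ p ∈ (Icc 1 T).filter Nat.Prime, p ^ (T / p) ∣ T.factorial := by
    apply Finset.prod_dvd_of_isRelPrime
    · intro p hp q hq hpq
      rw [Finset.coe_filter, Set.mem_ofPred_eq] at hp hq
      rw [Function.onFun, ← Nat.coprime_iff_isRelPrime]
      apply Nat.Coprime.pow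
      rw [Nat.coprime_primes hp.2 hq.2]
      exact hpq
    · intro p hp
      rw [Finset.mem_filter, Finset.mem_Icc] at hp
      rw [hp.2.pow_dvd_factorial_iff (b := Nat.log p T + 2) (by omega)]
      have h1 : (1 : ℕ) ∈ Ico 1 (Nat.log p T + 2) := by
        rw [Finset.mem_Ico]; omega
      have h2 := Finset.single_le_sum (f := fun i => T / p ^ i) (fun i _ => Nat.zero_le _) h1
      simpa using h2
  have hle := Nat.le_of_dvd (Nat.factorial_pos T) hdvd
  have hle2 : ∏ p ∈ (Icc 1 T).filter Nat.Prime, p ^ (T / p) ≤ T ^ T :=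
    hle.trans (Nat.factorial_le_pow T)
  have hle3 : ((∏ p ∈ (Icc 1 T).filter Nat.Prime, p ^ (T / p) : ℕ) : ℝ) ≤ ((T ^ T : ℕ) : ℝ) := by
    exact_mod_cast hle2
  have hpos : (0 : ℝ) < ((∏ p ∈ (Icc 1 T).filter Nat.Prime, p ^ (T / p) : ℕ) : ℝ) := by
    have : 0 < ∏ p ∈ (Icc 1 T).filter Nat.Prime, p ^ (T / p) := by
      apply Finset.prod_pos
      intro p hp
      exact Nat.pow_pos (Finset.mem_filter.1 hp).2.pos
    exact_mod_cast this
  have hlog := Real.log_le_log hpos hle3
  push_cast at hlog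
  rw [Real.log_prod, Real.log_pow] at hlog
  swap
  · intro p hp
    have : (0 : ℝ) < p := by exact_mod_cast (Finset.mem_filter.1 hp).2.pos
    positivity
  have h1 : ∑ p ∈ (Icc 1 T).filter Nat.Prime, ((T : ℝ) * (Real.log p / p) - Real.log p) ≤
      ∑ p ∈ (Icc 1 T).filter Nat.Prime, Real.log ((p : ℝ) ^ (T / p)) := by
    apply Finset.sum_le_sum
    intro p hp
    rw [Finset.mem_filter, Finset.mem_Icc] at hp
    rw [Real.log_pow]
    have hp0 : (0 : ℝ) < p := by exact_mod_cast hp.2.pos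
    have hl : 0 ≤ Real.log p := Real.log_nonneg (by exact_mod_cast hp.2.one_le)
    have h2 : (T : ℝ) / p - 1 ≤ ((T / p : ℕ) : ℝ) := by
      have h3 : T < (T / p + 1) * p := Nat.lt_mul_of_div_lt (Nat.lt_succ_self _) hp.2.pos
      have h4 : (T : ℝ) < (((T / p : ℕ) : ℝ) + 1) * p := by exact_mod_cast h3
      rw [sub_le_iff_le_add, div_le_iff₀ hp0]
      exact h4.le
    calc (T : ℝ) * (Real.log p / p) - Real.log p = ((T : ℝ) / p - 1) * Real.log p := by
          field_simp
      _ ≤ _ := mul_le_mul_of_nonneg_right h2 hl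
  rw [Finset.sum_sub_distrib, ← Finset.mul_sum] at h1
  have h3 : ∑ p ∈ (Icc 1 T).filter Nat.Prime, Real.log p ≤ Real.log 4 * T := by
    have h4 := Chebyshev.theta_le_log4_mul_x (x := (T : ℝ)) hT0.le
    rw [Chebyshev.theta_eq_sum_Icc, Nat.floor_natCast] at h4
    refine le_trans (le_of_eq ?_) h4
    apply Finset.sum_subset_zero_on_sdiff
    · intro p hp
      rw [Finset.mem_filter, Finset.mem_Icc] at hp ⊢
      exact ⟨⟨Nat.zero_le _, hp.1.2⟩, hp.2⟩
    · intro p hp
      rw [Finset.mem_sdiff, Finset.mem_filter, Finset.mem_Icc, Finset.mem_filter,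
        Finset.mem_Icc] at hp
      exfalso
      apply hp.2
      exact ⟨⟨hp.1.2.one_le, hp.1.1.2⟩, hp.1.2⟩
    · intro p _; rfl
  have h5 : (T : ℝ) * ∑ p ∈ (Icc 1 T).filter Nat.Prime, Real.log p / p ≤
      T * (Real.log T + Real.log 4) := by
    linarith
  exact le_of_mul_le_mul_left h5 hT0

lemma rpow_tele {η : ℝ} (hη : 0 < η) (n : ℕ) (hn : 1 ≤ n) :
    ((n + 1 : ℕ) : ℝ) ^ (-(1 + η)) ≤ η⁻¹ * ((n : ℝ) ^ (-η) - ((n + 1 : ℕ) : ℝ) ^ (-η)) := by
  have hn0 : (0 : ℝ) < n := by exact_mod_cast hn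
  set N : ℝ := ((n + 1 : ℕ) : ℝ) with hN
  have hN0 : 0 < N := by rw [hN]; positivity
  have hNn : N = n + 1 := by rw [hN]; push_cast; ring
  have h1 : N ^ (-η) * (1 + η / N) ≤ (n : ℝ) ^ (-η) := by
    have h2 : (n : ℝ) = N * (1 - 1 / N) := by
      rw [hNn]; field_simp; ring
    have h3 : 0 < 1 - 1 / N := by
      rw [hNn, sub_pos, div_lt_one (by positivity)]; linarith
    rw [h2, Real.mul_rpow hN0.le h3.le]
    apply mul_le_mul_of_nonneg_left _ (by positivity)
    rw [Real.rpow_def_of_pos h3]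
    have h4 : Real.log (1 - 1 / N) ≤ - (1 / N) := by
      have := Real.log_le_sub_one_of_pos h3
      linarith
    have h5 := Real.add_one_le_exp (Real.log (1 - 1 / N) * -η)
    have h6 : η / N ≤ Real.log (1 - 1 / N) * -η := by
      have : η / N = η * (1 / N) := by ring
      rw [this]
      nlinarith
    linarith
  rw [inv_mul_eq_div, le_div_iff₀ hη]
  have h7 : N ^ (-(1 + η)) = N ^ (-η) / N := by
    rw [show -(1 + η) = -η - 1 by ring, Real.rpow_sub_one hN0.ne']
  rw [h7]
  have h8 : N ^ (-η) * (1 + η / N) = N ^ (-η) + N ^ (-η) / N * η := by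
    field_simp
  linarith

lemma sum_rpow_le {η : ℝ} (hη : 0 < η) (N : ℕ) :
    ∑ n ∈ range N, (n : ℝ) ^ (-(1 + η)) ≤ 1 + η⁻¹ := by
  have key : ∀ M : ℕ, ∑ n ∈ range (M + 2), (n : ℝ) ^ (-(1 + η)) ≤
      1 + η⁻¹ * (1 - ((M + 1 : ℕ) : ℝ) ^ (-η)) := by
    intro M
    induction M with
    | zero =>
      rw [Finset.sum_range_succ, Finset.sum_range_one]
      simp only [Nat.cast_zero, zero_add, Nat.cast_one, Real.one_rpow, sub_self, mul_zero]
      rw [Real.zero_rpow (by linarith)]
      norm_num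
    | succ M ih =>
      rw [Finset.sum_range_succ]
      have h1 := rpow_tele hη (M + 1) (by omega)
      have h2 : M + 1 + 1 = M + 2 := rfl
      rw [h2] at h1 ⊢
      have h3 : η⁻¹ * (1 - ((M + 1 : ℕ) : ℝ) ^ (-η)) +
          η⁻¹ * (((M + 1 : ℕ) : ℝ) ^ (-η) - ((M + 2 : ℕ) : ℝ) ^ (-η)) =
          η⁻¹ * (1 - ((M + 2 : ℕ) : ℝ) ^ (-η)) := by ring
      linarith
  have h1 : ∑ n ∈ range N, (n : ℝ) ^ (-(1 + η)) ≤ ∑ n ∈ range (N + 2), (n : ℝ) ^ (-(1 + η)) := by
    apply Finset.sum_le_sum_of_subset_of_nonneg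
    · exact Finset.range_subset_range.2 (by omega)
    · intro n _ _; positivity
  have h2 := key N
  have h3 : 0 < ((N + 1 : ℕ) : ℝ) ^ (-η) := by positivity
  have h4 : 0 < η⁻¹ := by positivity
  nlinarith

/-- Mertens' upper bound with an absolute constant -/
theorem mertens (T : ℕ) (hT : 2 ≤ T) : 1 ≤ 1000 * kapD T * Real.log T := by
  have hTr : (2 : ℝ) ≤ T := by exact_mod_cast hT
  have hT0 : (0 : ℝ) < T := by linarith
  have hl2 : Real.log 2 ≤ Real.log T := Real.log_le_log (by norm_num) hTr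
  have hl2' := Real.log_two_gt_d9
  have hl2'' := Real.log_two_lt_d9
  have hL : 0 < Real.log T := by linarith
  set L := Real.log T with hLdef
  set η : ℝ := 1 / L with hη
  have hη0 : 0 < η := by positivity
  -- the Euler product at `1 + η`
  have h1 : ∏ p ∈ (Icc 1 T) with p.Prime, (1 - (p : ℝ) ^ (-(1 + η)))⁻¹ ≤ 1 + L := by
    have hlt : ∀ {p : ℕ}, p.Prime → ‖(rpowHom (1 + η) (by positivity)) p‖ < 1 := by
      intro p hp
      change ‖(p : ℝ) ^ (-(1 + η))‖ < 1
      rw [Real.norm_of_nonneg (by positivity)]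
      apply Real.rpow_lt_one_of_one_lt_of_neg
      · exact_mod_cast hp.one_lt
      · linarith
    have h := (EulerProduct.summable_and_hasSum_factoredNumbers_prod_filter_prime_geometric
      (f := rpowHom (1 + η) (by positivity)) hlt (Icc 1 T)).2
    change HasSum (fun m : Nat.factoredNumbers (Icc 1 T) => (((m : ℕ) : ℝ)) ^ (-(1 + η)))
      (∏ p ∈ (Icc 1 T) with p.Prime, (1 - (p : ℝ) ^ (-(1 + η)))⁻¹) at h
    apply le_of_tendsto h
    filter_upwards with A
    have h2 : ∑ m ∈ A, (((m : ℕ) : ℝ)) ^ (-(1 + η)) =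
        ∑ n ∈ A.map ⟨Subtype.val, Subtype.val_injective⟩, (n : ℝ) ^ (-(1 + η)) := by
      rw [Finset.sum_map]; rfl
    rw [h2]
    set B := A.map ⟨Subtype.val, Subtype.val_injective⟩ with hB
    have h3 : B ⊆ range (B.sup id + 1) := by
      intro n hn
      rw [Finset.mem_range]
      have := Finset.le_sup (f := id) hn
      simp only [id] at this
      omega
    have h4 : ∑ n ∈ B, (n : ℝ) ^ (-(1 + η)) ≤ ∑ n ∈ range (B.sup id + 1), (n : ℝ) ^ (-(1 + η)) :=
      Finset.sum_le_sum_of_subset_of_nonneg h3 (fun n _ _ => by positivity)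
    refine h4.trans ((sum_rpow_le hη0 _).trans (le_of_eq ?_))
    rw [hη]; simp
  -- comparison of the factors
  have h2 : (kapD T)⁻¹ ≤ (∏ p ∈ (Icc 1 T) with p.Prime, (1 - (p : ℝ) ^ (-(1 + η)))⁻¹) *
      Real.exp (2 * η * (L + Real.log 4)) := by
    have h3 : Real.exp (2 * η * ∑ p ∈ (Icc 1 T).filter Nat.Prime, Real.log p / p) ≤
        Real.exp (2 * η * (L + Real.log 4)) := by
      apply Real.exp_le_exp.2
      apply mul_le_mul_of_nonneg_left (sum_log_div_le T (by omega)) (by positivity)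
    refine le_trans ?_ (mul_le_mul_of_nonneg_left h3 ?_)
    · rw [kapD_inv, Finset.mul_sum, Real.exp_sum, ← Finset.prod_mul_distrib]
      apply Finset.prod_le_prod
      · intro p hp
        have hp2 : (2 : ℝ) ≤ p := by exact_mod_cast (Finset.mem_filter.1 hp).2.two_le
        have : (p : ℝ)⁻¹ ≤ 1 := by
          rw [inv_le_one₀ (by linarith)]; linarith
        exact inv_nonneg.2 (by linarith)
      · intro p hp
        have hpp := (Finset.mem_filter.1 hp).2
        have hp2 : (2 : ℝ) ≤ p := by exact_mod_cast hpp.two_le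
        have hp0 : (0 : ℝ) < p := by linarith
        have hlp : 0 ≤ Real.log p := Real.log_nonneg (by linarith)
        set q : ℝ := (p : ℝ) ^ (-η) with hq
        have hq0 : 0 < q := by positivity
        have hq1 : q ≤ 1 := Real.rpow_le_one_of_one_le_of_nonpos (by linarith) (by linarith)
        have hqe : 1 - q ≤ η * Real.log p := by
          have h5 := Real.add_one_le_exp (Real.log p * -η)
          rw [hq, Real.rpow_def_of_pos hp0]
          linarith
        have hpe : (p : ℝ) ^ (-(1 + η)) = q / p := by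
          rw [show -(1 + η) = -η - 1 by ring, Real.rpow_sub_one hp0.ne']
        rw [hpe]
        have h5 : 0 < 1 - (p : ℝ)⁻¹ := by
          rw [sub_pos, inv_lt_one₀ hp0]; linarith
        have h6 : 0 < 1 - q / p := by
          rw [sub_pos, div_lt_one hp0]; linarith
        have h7 := Real.add_one_le_exp (2 * η * (Real.log p / p))
        rw [inv_mul_eq_div, inv_eq_one_div, div_le_div_iff₀ h5 h6]
        have h8 : (1 : ℝ) * (1 - q / p) ≤ (1 + 2 * η * (Real.log p / p)) * (1 - (p : ℝ)⁻¹) := by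
          have h9 : (p : ℝ)⁻¹ ≤ 1 / 2 := by
            rw [inv_eq_one_div]
            exact one_div_le_one_div_of_le (by norm_num) hp2
          have h10 : (1 : ℝ) * (1 - q / p) = 1 - (p : ℝ)⁻¹ + (1 - q) / p := by
            field_simp
            ring
          rw [h10, add_mul, one_mul]
          have h11 : (1 - q) / p ≤ η * Real.log p / p := div_le_div_of_nonneg_right hqe hp0.le
          have h12 : η * Real.log p / p = 2 * η * (Real.log p / p) * (1 / 2) := by ring
          have h13 : 2 * η * (Real.log p / p) * (1 / 2) ≤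
              2 * η * (Real.log p / p) * (1 - (p : ℝ)⁻¹) := by
            apply mul_le_mul_of_nonneg_left _ (by positivity)
            linarith
          linarith
        refine h8.trans ?_
        apply mul_le_mul_of_nonneg_right _ h5.le
        linarith
    · apply Finset.prod_nonneg
      intro p hp
      have hp2 : (2 : ℝ) ≤ p := by exact_mod_cast (Finset.mem_filter.1 hp).2.two_le
      have : (p : ℝ) ^ (-(1 + η)) ≤ 1 :=
        Real.rpow_le_one_of_one_le_of_nonpos (by linarith) (by linarith)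
      exact inv_nonneg.2 (by linarith)
  -- numerical bounds
  have h3 : Real.exp (2 * η * (L + Real.log 4)) ≤ 404 := by
    have h4 : 2 * η * (L + Real.log 4) ≤ 6 := by
      have e1 : Real.log 4 = 2 * Real.log 2 := by
        rw [show (4 : ℝ) = 2 ^ 2 by norm_num, Real.log_pow]; norm_num
      rw [e1, hη]
      rw [show 2 * (1 / L) * (L + 2 * Real.log 2) = 2 + 4 * (Real.log 2 / L) by
        field_simp; ring]
      have : Real.log 2 / L ≤ 1 := (div_le_one hL).2 hl2
      linarith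
    refine (Real.exp_le_exp.2 h4).trans ?_
    have h5 : Real.exp 6 = Real.exp 1 ^ 6 := by rw [← Real.exp_nat_mul]; norm_num
    rw [h5]
    have h6 := Real.exp_one_lt_d9
    calc Real.exp 1 ^ 6 ≤ 2.7182818286 ^ 6 := pow_le_pow_left₀ (Real.exp_pos 1).le h6.le 6
      _ ≤ 404 := by norm_num
  have h4 : (kapD T)⁻¹ ≤ 1000 * L := by
    calc (kapD T)⁻¹ ≤ (1 + L) * 404 := by
          refine h2.trans ?_
          apply mul_le_mul h1 h3 (Real.exp_pos _).le (by linarith)
      _ ≤ 1000 * L := by nlinarith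
  have h5 := kapD_pos T
  calc (1 : ℝ) = kapD T * (kapD T)⁻¹ := (mul_inv_cancel₀ h5.ne').symm
    _ ≤ kapD T * (1000 * L) := mul_le_mul_of_nonneg_left h4 h5.le
    _ = 1000 * kapD T * L := by ring

end Pool.Agent.MT
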