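import Pool.Agent.Lib.MP_0da313_nt.Defs

/-!
The expected order of magnitude.
-/

namespace Pool.Agent.Lib.MP_0da313_nt

/-- the number of residues `r` modulo `p` with `p ∣ ∏_k f_k(r, n - r)` -/
noncomputable def nroots {m : ℕ} (f : Fin m → MvPolynomial (Fin 2) ℤ) (n p : ℕ) : ℕ :=
  ((Finset.range p).filter (fun r : ℕ => (p : ℤ) ∣ ∏ k, val (f k) r ((n : ℤ) - r))).card

/-- `∏_{p ≤ n} (1 - ω_n(p)/p)` -/
noncomputable def singV {m : ℕ} (f : Fin m → MvPolynomial (Fin 2) ℤ) (n : ℕ) : ℝ :=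
  ∏ p ∈ (Finset.Icc 1 n).filter Nat.Prime, (1 - (nroots f n p : ℝ) / p)

end Pool.Agent.Lib.MP_0da313_nt
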