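import Pool.Agent.Lib.MP_0da313_nt.MT.Mertens
import Pool.Agent.Lib.MP_0da313_nt.BV.T1a
import Pool.Agent.Lib.MP_0da313_nt.BV.Hooley
import Pool.Agent.Lib.MP_0da313_nt.BV.Classes

set_option autoImplicit false

/-!
Linear members: direction, window and densities.
-/

open Finset Polynomial

namespace Pool.Agent.MT

open Pool.Agent.MP89da58 Pool.Agent.BVall Pool.Agent.Lib.MP_0da313_nt

lemma orient2 (a b : ℤ) : ∃ (σ : ℤ) (t θ : ℝ), (σ = 1 ∨ σ = -1) ∧
    (t = 1 / 4 ∨ t = 3 / 4) ∧ (|(a : ℝ)| + |(b : ℝ)|) / 4 ≤ θ ∧ θ ≤ |(a : ℝ)| + |(b : ℝ)| ∧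
      θ = σ * (((a : ℝ) - b) * t + b) := by
  set s1 : ℝ := ((a : ℝ) - b) * (1 / 4) + b with hs1
  set s2 : ℝ := ((a : ℝ) - b) * (3 / 4) + b with hs2
  have sgn : ∀ s : ℝ, ∃ σ : ℤ, (σ = 1 ∨ σ = -1) ∧ (σ : ℝ) * s = |s| := by
    intro s
    rcases le_total 0 s with h | h
    · exact ⟨1, Or.inl rfl, by rw [abs_of_nonneg h]; simp⟩
    · exact ⟨-1, Or.inr rfl, by rw [abs_of_nonpos h]; simp⟩
  have hu1 : |s1| ≤ |(a : ℝ)| + |(b : ℝ)| := by
    have e : s1 = (1 / 4) * a + (3 / 4) * b := by rw [hs1]; ring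
    rw [e]
    have h1 := abs_add_le ((1 / 4 : ℝ) * a) ((3 / 4) * b)
    rw [abs_mul, abs_mul, abs_of_pos (show (0 : ℝ) < 1 / 4 by norm_num),
      abs_of_pos (show (0 : ℝ) < 3 / 4 by norm_num)] at h1
    have h2 := abs_nonneg (a : ℝ)
    have h3 := abs_nonneg (b : ℝ)
    linarith
  have hu2 : |s2| ≤ |(a : ℝ)| + |(b : ℝ)| := by
    have e : s2 = (3 / 4) * a + (1 / 4) * b := by rw [hs2]; ring
    rw [e]
    have h1 := abs_add_le ((3 / 4 : ℝ) * a) ((1 / 4) * b)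
    rw [abs_mul, abs_mul, abs_of_pos (show (0 : ℝ) < 1 / 4 by norm_num),
      abs_of_pos (show (0 : ℝ) < 3 / 4 by norm_num)] at h1
    have h2 := abs_nonneg (a : ℝ)
    have h3 := abs_nonneg (b : ℝ)
    linarith
  have hsum : (|(a : ℝ)| + |(b : ℝ)|) / 2 ≤ |s1| + |s2| := by
    have h1 := abs_add_le s1 s2
    have h2 := abs_sub s2 s1
    have e1 : s1 + s2 = a + b := by rw [hs1, hs2]; ring
    have e2 : s2 - s1 = (a - b) / 2 := by rw [hs1, hs2]; ring
    rw [e1] at h1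
    rw [e2, abs_div, abs_of_pos (show (0 : ℝ) < 2 by norm_num)] at h2
    rcases le_total 0 (a : ℝ) with ha | ha <;> rcases le_total 0 (b : ℝ) with hb | hb
    · rw [abs_of_nonneg ha, abs_of_nonneg hb]
      rw [abs_of_nonneg (add_nonneg ha hb)] at h1
      linarith
    · rw [abs_of_nonneg ha, abs_of_nonpos hb]
      rw [abs_of_nonneg (by linarith : (0 : ℝ) ≤ a - b)] at h2
      linarith
    · rw [abs_of_nonpos ha, abs_of_nonneg hb]
      rw [abs_of_nonpos (by linarith : (a : ℝ) - b ≤ 0)] at h2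
      linarith
    · rw [abs_of_nonpos ha, abs_of_nonpos hb]
      rw [abs_of_nonpos (by linarith : (a : ℝ) + b ≤ 0)] at h1
      linarith
  by_cases h : (|(a : ℝ)| + |(b : ℝ)|) / 4 ≤ |s1|
  · obtain ⟨σ, hσ, hσs⟩ := sgn s1
    exact ⟨σ, 1 / 4, |s1|, hσ, Or.inl rfl, h, hu1, hσs.symm⟩
  · obtain ⟨σ, hσ, hσs⟩ := sgn s2
    refine ⟨σ, 3 / 4, |s2|, hσ, Or.inr rfl, ?_, hu2, hσs.symm⟩
    linarith

/-- the location of the window -/
lemma window2 {a b c σ : ℤ} {t θ lam : ℝ} (hσ : σ = 1 ∨ σ = -1) (ht : t = 1 / 4 ∨ t = 3 / 4)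
    (hθ0 : 0 < θ) (hab : a ≠ b) (hlam : 1 ≤ lam) (hθl : 16 * θ ≤ lam * |(a : ℝ) - b|)
    (hθ : θ = σ * (((a : ℝ) - b) * t + b)) {n : ℕ} (hn : 8 * |(c : ℝ)| < n) {N : ℕ} (hN : 0 < N)
    (hO : OmL lam (θ * n) N ≠ 0) {x : ℤ} (hx : (N : ℤ) = σ * (a - b) * x + σ * (b * n + c)) :
    0 < x ∧ x < n := by
  have hn0 : (0 : ℝ) < n := lt_of_le_of_lt (by positivity) hn
  have hX : 0 < θ * n := by positivity
  have hsup := (OmL_support hlam hX hN hO).1
  have hlam0 : 0 < lam := by linarith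
  have h1 : θ * n * (2 / lam) ≤ |(a : ℝ) - b| * n / 8 := by
    rw [mul_div_assoc', div_le_div_iff₀ hlam0 (by norm_num)]
    nlinarith
  have h2 : (σ : ℝ) * ((a : ℝ) - b) * ((x : ℝ) - t * n) = (N : ℝ) - θ * n - σ * c := by
    have h3 : (N : ℝ) = σ * (a - b) * x + σ * (b * n + c) := by exact_mod_cast hx
    rw [h3, hθ]
    ring
  have hσabs : |(σ : ℝ)| = 1 := by
    rcases hσ with h | h <;> rw [h] <;> simp
  have hab1 : (1 : ℝ) ≤ |(a : ℝ) - b| := by
    have : (1 : ℤ) ≤ |a - b| := Int.one_le_abs (sub_ne_zero.2 hab)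
    exact_mod_cast this
  have h4 : |(x : ℝ) - t * n| < n / 4 := by
    have h5 : |(σ : ℝ) * ((a : ℝ) - b) * ((x : ℝ) - t * n)| = |(a : ℝ) - b| * |(x : ℝ) - t * n| := by
      rw [abs_mul, abs_mul, hσabs, one_mul]
    have h6 : |(N : ℝ) - θ * n - σ * c| ≤ |(N : ℝ) - θ * n| + |(c : ℝ)| := by
      refine (abs_sub _ _).trans ?_
      rw [abs_mul, hσabs, one_mul]
    rw [h2] at h5
    have h7 : |(a : ℝ) - b| * |(x : ℝ) - t * n| < |(a : ℝ) - b| * (n / 4) := by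
      have h8 : (n : ℝ) / 8 ≤ |(a : ℝ) - b| * n / 8 := by
        have : (n : ℝ) ≤ |(a : ℝ) - b| * n := le_mul_of_one_le_left hn0.le hab1
        linarith
      have h9 : |(a : ℝ) - b| * (n / 4) = |(a : ℝ) - b| * n / 8 + |(a : ℝ) - b| * n / 8 := by ring
      linarith
    exact lt_of_mul_lt_mul_left h7 (by linarith)
  rw [abs_lt] at h4
  have h5 : (0 : ℝ) < x ∧ (x : ℝ) < n := by
    rcases ht with h | h
    · rw [h] at h4
      constructor <;> linarith [h4.1, h4.2]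
    · rw [h] at h4
      constructor <;> linarith [h4.1, h4.2]
  constructor
  · exact_mod_cast h5.1
  · exact_mod_cast h5.2

lemma card_root_lin {u v : ℤ} (huv : IsCoprime u v) {p : ℕ} (hp : p.Prime) :
    ((range p).filter (fun ρ : ℕ => (p : ℤ) ∣ u * (ρ : ℤ) + v)).card =
      if p ∣ u.natAbs then 0 else 1 := by
  have hp0 : (0 : ℤ) < p := by exact_mod_cast hp.pos
  split_ifs with hpu
  · rw [Finset.card_eq_zero, Finset.filter_eq_empty_iff]
    intro ρ _ h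
    have h1 : (p : ℤ) ∣ u := Int.natCast_dvd.2 hpu
    have h2 : (p : ℤ) ∣ v := by
      have := dvd_sub h (h1.mul_right (ρ : ℤ))
      simpa using this
    have h7 := huv.isUnit_of_dvd' h1 h2
    rw [Int.isUnit_iff_natAbs_eq] at h7
    simp only [Int.natAbs_natCast] at h7
    exact hp.one_lt.ne' h7
  · have hcop : IsCoprime u (p : ℤ) := by
      rw [Int.isCoprime_iff_gcd_eq_one, Int.gcd_comm]
      rw [Int.gcd_eq_natAbs, Int.natAbs_natCast]
      exact (Nat.Prime.coprime_iff_not_dvd hp).2 hpu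
    obtain ⟨s, t, hst⟩ := hcop
    set ρ1 : ℕ := ((-(s * v)) % (p : ℤ)).toNat with hρ1
    have hρ1' : (ρ1 : ℤ) = (-(s * v)) % (p : ℤ) := Int.toNat_of_nonneg (Int.emod_nonneg _ hp0.ne')
    have hρlt : ρ1 ∈ range p := by
      rw [Finset.mem_range]
      have := Int.emod_lt_of_pos (-(s * v)) hp0
      omega
    have hroot : (p : ℤ) ∣ u * (ρ1 : ℤ) + v := by
      have h2 : (p : ℤ) ∣ (-(s * v)) - ρ1 := by
        rw [hρ1']
        exact Int.dvd_self_sub_emod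
      have h3 : u * (ρ1 : ℤ) + v = p * (t * v) - u * ((-(s * v)) - ρ1) := by
        linear_combination -v * hst
      rw [h3]
      exact dvd_sub (dvd_mul_right _ _) (h2.mul_left u)
    rw [Finset.card_eq_one]
    refine ⟨ρ1, ?_⟩
    ext ρ
    rw [Finset.mem_filter, Finset.mem_singleton]
    constructor
    · rintro ⟨h1, h2⟩
      have h3 : (p : ℤ) ∣ u * ((ρ : ℤ) - ρ1) := by
        have := dvd_sub h2 hroot
        have e : u * (ρ : ℤ) + v - (u * (ρ1 : ℤ) + v) = u * ((ρ : ℤ) - ρ1) := by ring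
        rwa [e] at this
      have h4 : (p : ℤ) ∣ (ρ : ℤ) - ρ1 := by
        have hcop : IsCoprime (p : ℤ) u := ⟨t, s, by linear_combination hst⟩
        exact hcop.dvd_of_dvd_mul_left h3
      have h5 : ρ1 ≡ ρ [MOD p] := by
        rw [← Int.natCast_modEq_iff]
        exact Int.modEq_iff_dvd.2 h4
      exact (Nat.ModEq.eq_of_lt_of_lt h5 (Finset.mem_range.1 hρlt) (Finset.mem_range.1 h1)).symm
    · rintro rfl
      exact ⟨hρlt, hroot⟩

open Classical in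
/-- the classes of the product -/
lemma om_prod {G G' g : ℤ[X]} (hG : G = g * G') {u v σ : ℤ} (hσ : σ = 1 ∨ σ = -1)
    (hg : ∀ y : ℤ, u * y + v = σ * g.eval y) (huv : IsCoprime u v) {p : ℕ} (hp : p.Prime) :
    om (fun p y => (p : ℤ) ∣ G.eval y) p =
      om (fun p y => (p : ℤ) ∣ G'.eval y ∧ ¬ (p : ℤ) ∣ u * y + v) p +
        if p ∣ u.natAbs then 0 else 1 := by
  rw [← card_root_lin huv hp]
  unfold om
  rw [← Finset.card_union_of_disjoint]
  · congr 1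
    ext ρ
    simp only [Finset.mem_filter, Finset.mem_union]
    have key : (p : ℤ) ∣ G.eval (ρ : ℤ) ↔ (p : ℤ) ∣ u * (ρ : ℤ) + v ∨ (p : ℤ) ∣ G'.eval (ρ : ℤ) := by
      have hpp : Prime (p : ℤ) := Nat.prime_iff_prime_int.1 hp
      rw [hG, eval_mul, hpp.dvd_mul, hg]
      rcases hσ with h | h
      · rw [h, one_mul]
      · rw [h, neg_one_mul, dvd_neg]
    rw [key]
    tauto
  · rw [Finset.disjoint_left]
    intro ρ h1 h2
    rw [Finset.mem_filter] at h1 h2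
    exact h1.2.2 h2.2

lemma PK_eq (K n : ℕ) : PK K n = (Icc 1 (2 ^ (2 ^ (K + n)))).filter Nat.Prime := by
  ext p
  rw [mem_PK, Finset.mem_filter, Finset.mem_Icc]
  constructor
  · rintro ⟨h1, h2⟩
    exact ⟨⟨h1.one_le, h2⟩, h1⟩
  · rintro ⟨⟨_, h1⟩, h2⟩
    exact ⟨h2, h1⟩

lemma totient_div (w : ℕ) (hw : 0 < w) :
    (Nat.totient w : ℝ) / w = ∏ p ∈ w.primeFactors, (1 - 1 / (p : ℝ)) := by
  have h := Nat.totient_eq_mul_prod_factors w
  have h2 : (Nat.totient w : ℝ) = w * ∏ p ∈ w.primeFactors, (1 - (p : ℝ)⁻¹) := by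
    have h3 := congrArg (fun q : ℚ => (q : ℝ)) h
    push_cast at h3
    exact h3
  rw [h2]
  have hw' : (w : ℝ) ≠ 0 := by exact_mod_cast hw.ne'
  rw [mul_div_cancel_left₀ _ hw']
  apply Finset.prod_congr rfl
  intro p _
  rw [one_div]

open Classical in
/-- comparison of the densities -/
lemma W_relation {G G' g : ℤ[X]} (hG : G = g * G') {u v σ : ℤ} (hu : u ≠ 0)
    (hσ : σ = 1 ∨ σ = -1)
    (hg : ∀ y : ℤ, u * y + v = σ * g.eval y) (huv : IsCoprime u v) (K n : ℕ)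
    (hlt : ∀ p : ℕ, p.Prime → om (fun p y => (p : ℤ) ∣ G.eval y) p < p) :
    W (fun p => (om (fun p y => (p : ℤ) ∣ G.eval y) p : ℝ) / p) (PK K n) /
        kapD (2 ^ (2 ^ (K + n))) * ((Nat.totient u.natAbs : ℝ) / u.natAbs) ≤
      W (rhoW u.natAbs (fun p y => (p : ℤ) ∣ G'.eval y ∧ ¬ (p : ℤ) ∣ u * y + v)) (PK K n) := by
  have hκ := kapD_pos (2 ^ (2 ^ (K + n)))
  have hu0 : 0 < u.natAbs := Int.natAbs_pos.2 hu
  rw [div_mul_eq_mul_div, div_le_iff₀ hκ]
  -- the factors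
  set r : ℕ → ℝ := fun p => if p ∣ u.natAbs then 1 - 1 / (p : ℝ) else 1 with hr
  have hfac : ∀ p ∈ PK K n, (1 - (om (fun p y => (p : ℤ) ∣ G.eval y) p : ℝ) / p) * r p =
      (1 - rhoW u.natAbs (fun p y => (p : ℤ) ∣ G'.eval y ∧ ¬ (p : ℤ) ∣ u * y + v) p) *
        (1 - 1 / (p : ℝ)) := by
    intro p hp
    have hpp := (mem_PK.1 hp).1
    have hp2 : (2 : ℝ) ≤ p := by exact_mod_cast hpp.two_le
    have h1 := om_prod hG hσ hg huv hpp
    simp only [hr]
    unfold rhoW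
    rw [h1]
    by_cases hd : p ∣ u.natAbs
    · rw [if_pos hd, if_pos hd, if_pos hd]
      push_cast
      ring
    · rw [if_neg hd, if_neg hd, if_neg hd, Nat.cast_sub hpp.one_le]
      push_cast
      have h2 : (p : ℝ) ≠ 0 := by linarith
      have h3 : (p : ℝ) - 1 ≠ 0 := by linarith
      field_simp
      ring
  have hprod : W (fun p => (om (fun p y => (p : ℤ) ∣ G.eval y) p : ℝ) / p) (PK K n) *
      ∏ p ∈ PK K n, r p =
      W (rhoW u.natAbs (fun p y => (p : ℤ) ∣ G'.eval y ∧ ¬ (p : ℤ) ∣ u * y + v)) (PK K n) *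
        kapD (2 ^ (2 ^ (K + n))) := by
    unfold W kapD
    rw [← PK_eq, ← Finset.prod_mul_distrib, ← Finset.prod_mul_distrib]
    exact Finset.prod_congr rfl hfac
  rw [← hprod]
  apply mul_le_mul_of_nonneg_left
  · rw [totient_div _ hu0]
    have h01 : ∀ p : ℕ, p.Prime → 0 ≤ 1 - 1 / (p : ℝ) ∧ 1 - 1 / (p : ℝ) ≤ 1 := by
      intro p hp
      have hp1 : (1 : ℝ) ≤ p := by exact_mod_cast hp.one_le
      have h1 : 1 / (p : ℝ) ≤ 1 := by rw [div_le_one (by linarith)]; exact hp1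
      have h2 : 0 ≤ 1 / (p : ℝ) := by positivity
      constructor <;> linarith
    have h1 : ∏ p ∈ PK K n, r p = ∏ p ∈ (PK K n).filter (· ∣ u.natAbs), (1 - 1 / (p : ℝ)) := by
      rw [Finset.prod_filter]
    rw [h1]
    have h2 : (PK K n).filter (· ∣ u.natAbs) ⊆ u.natAbs.primeFactors := by
      intro p hp
      rw [Finset.mem_filter] at hp
      rw [Nat.mem_primeFactors]
      exact ⟨(mem_PK.1 hp.1).1, hp.2, hu0.ne'⟩
    rw [← Finset.prod_sdiff h2]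
    have h3 : 0 ≤ ∏ p ∈ (PK K n).filter (· ∣ u.natAbs), (1 - 1 / (p : ℝ)) :=
      Finset.prod_nonneg fun p hp => (h01 p (mem_PK.1 (Finset.mem_filter.1 hp).1).1).1
    have h4 : ∏ p ∈ u.natAbs.primeFactors \ (PK K n).filter (· ∣ u.natAbs),
        (1 - 1 / (p : ℝ)) ≤ 1 := by
      apply Finset.prod_le_one
      · intro p hp
        exact (h01 p (Nat.prime_of_mem_primeFactors (Finset.mem_sdiff.1 hp).1)).1
      · intro p hp
        exact (h01 p (Nat.prime_of_mem_primeFactors (Finset.mem_sdiff.1 hp).1)).2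
    nlinarith
  · apply W_nonneg
    intro p hp
    have hpp := (mem_PK.1 hp).1
    rw [div_le_one (by exact_mod_cast hpp.pos)]
    exact_mod_cast (hlt p hpp).le

end Pool.Agent.MT
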