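import Pool.Agent.Lib.MP_0da313_nt.MT.Comb
import Pool.Agent.Lib.MP_0da313_nt.MT.Orient
import Pool.Agent.Lib.MP_0da313_nt.Final

set_option autoImplicit false
set_option linter.unusedSectionVars false

/-!
Pointwise bounds for the sieve sum, and the local conditions of a family of linear forms.
-/

open Finset Polynomial

namespace Pool.Agent.MT

open Pool.Agent.MP89da58 Pool.Agent.BVall Pool.Agent.Lib.MP_0da313_nt

section
variable {ι : Type} [Fintype ι] [DecidableEq ι] {J : Type} [Fintype J] [DecidableEq J]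

open Classical in
lemma card_dvI_le (D : J → ι → ℤ → Prop) (y : ℤ) (w : ℕ)
    (hw : ∑ l : ι, (univ.filter (fun j : J => D j l y)).card ≤ w) :
    (univ.filter (fun α : J → Option ι => dvI D y α)).card ≤ 2 ^ w := by
  set A : J → Finset (Option ι) := fun j =>
    insert none ((univ.filter (fun l : ι => D j l y)).image some) with hA
  have h1 : univ.filter (fun α : J → Option ι => dvI D y α) ⊆ Fintype.piFinset A := by
    intro α hα
    rw [Finset.mem_filter] at hα
    rw [Fintype.mem_piFinset]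
    intro j
    simp only [hA, Finset.mem_insert, Finset.mem_image, Finset.mem_filter, Finset.mem_univ,
      true_and]
    rcases h : α j with _ | l
    · exact Or.inl rfl
    · exact Or.inr ⟨l, hα.2 j l h, rfl⟩
  refine (Finset.card_le_card h1).trans ?_
  rw [Fintype.card_piFinset]
  have h2 : ∀ j, (A j).card ≤ 2 ^ (univ.filter (fun l => D j l y)).card := by
    intro j
    have h3 : (A j).card ≤ (univ.filter (fun l : ι => D j l y)).card + 1 := by
      refine (Finset.card_insert_le _ _).trans ?_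
      exact Nat.add_le_add_right Finset.card_image_le 1
    exact h3.trans Nat.lt_two_pow_self
  calc ∏ j, (A j).card ≤ ∏ j, 2 ^ (univ.filter (fun l => D j l y)).card :=
        Finset.prod_le_prod' fun j _ => h2 j
    _ = 2 ^ ∑ j, (univ.filter (fun l => D j l y)).card := Finset.prod_pow_eq_pow_sum _ _ _
    _ = 2 ^ ∑ l : ι, (univ.filter (fun j : J => D j l y)).card := by
        congr 1
        simp only [Finset.card_filter]
        exact Finset.sum_comm
    _ ≤ 2 ^ w := Nat.pow_le_pow_right (by norm_num) hw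

lemma abs_ZI_le (D : J → ι → ℤ → Prop) (y : ℤ) (w : ℕ) (lam : (J → Option ι) → ℝ) (B : ℝ)
    (hB : ∀ α, |lam α| ≤ B) [∀ j l, Decidable (D j l y)]
    (hw : ∑ l : ι, (univ.filter (fun j : J => D j l y)).card ≤ w) :
    |ZI D lam y| ≤ 2 ^ w * B := by
  classical
  have hB0 : 0 ≤ B := (abs_nonneg _).trans (hB (fun _ => none))
  have h1 := card_dvI_le D y w (by
    convert hw)
  unfold ZI
  rw [← Finset.sum_filter]
  refine (Finset.abs_sum_le_sum_abs _ _).trans ?_
  refine (Finset.sum_le_card_nsmul _ _ B (fun α _ => hB α)).trans ?_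
  rw [nsmul_eq_mul]
  apply mul_le_mul_of_nonneg_right _ hB0
  exact_mod_cast h1

lemma abs_ZI_le_sum (D : J → ι → ℤ → Prop) (y : ℤ) (lam : (J → Option ι) → ℝ) :
    |ZI D lam y| ≤ ∑ α, |lam α| := by
  classical
  unfold ZI
  refine (Finset.abs_sum_le_sum_abs _ _).trans (Finset.sum_le_sum fun α _ => ?_)
  split_ifs
  · exact le_rfl
  · rw [abs_zero]; exact abs_nonneg _

lemma ZI_lami (S : SData ι J) (D : J → ι → ℤ → Prop) (i : ι) (y : ℤ) (h : ∀ j, ¬ D j i y) :
    ZI D (S.lami i) y = ZI D S.lam y := by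
  classical
  unfold ZI
  apply Finset.sum_congr rfl
  intro α _
  by_cases hd : dvI D y α
  · rw [if_pos hd, if_pos hd, S.lami_eq, if_pos]
    rw [Finset.eq_empty_iff_forall_notMem]
    intro j hj
    exact h j (hd j i (mem_part.1 hj))
  · rw [if_neg hd, if_neg hd]

end

/-- the sum of the weights over small sets of primes -/
lemma sum_T_le (K n D : ℕ) :
    ∑ T ∈ (PK K n).powerset.filter (fun T => ∏ p ∈ T, p ≤ lev K n), (D : ℝ) ^ T.card ≤
      (lev K n : ℝ) ^ (D + 1) := by
  classical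
  set B := (PK K n).powerset.filter (fun T => ∏ p ∈ T, p ≤ lev K n) with hB
  have hinj : Set.InjOn (fun T : Finset ℕ => ∏ p ∈ T, p) (B : Set (Finset ℕ)) := by
    intro T hT T' hT' h
    rw [Finset.mem_coe, hB, Finset.mem_filter, Finset.mem_powerset] at hT hT'
    have e1 : (∏ p ∈ T, p).primeFactors = T :=
      Nat.primeFactors_prod (fun p hp => (mem_PK.1 (hT.1 hp)).1)
    have e2 : (∏ p ∈ T', p).primeFactors = T' :=
      Nat.primeFactors_prod (fun p hp => (mem_PK.1 (hT'.1 hp)).1)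
    rw [← e1, ← e2]
    exact congrArg Nat.primeFactors h
  have hcard : B.card ≤ lev K n := by
    rw [← Finset.card_image_of_injOn hinj]
    have h1 : B.image (fun T : Finset ℕ => ∏ p ∈ T, p) ⊆ Finset.Icc 1 (lev K n) := by
      intro q hq
      rw [Finset.mem_image] at hq
      obtain ⟨T, hT, rfl⟩ := hq
      rw [hB, Finset.mem_filter, Finset.mem_powerset] at hT
      rw [Finset.mem_Icc]
      exact ⟨Finset.prod_pos fun p hp => (mem_PK.1 (hT.1 hp)).1.pos, hT.2⟩
    have h2 := Finset.card_le_card h1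
    rwa [Nat.card_Icc, Nat.add_sub_cancel] at h2
  have hterm : ∀ T ∈ B, (D : ℝ) ^ T.card ≤ (lev K n : ℝ) ^ D := by
    intro T hT
    rw [hB, Finset.mem_filter, Finset.mem_powerset] at hT
    have h1 : 2 ^ T.card ≤ ∏ p ∈ T, p := by
      rw [← Finset.prod_const]
      exact Finset.prod_le_prod' fun p hp => (mem_PK.1 (hT.1 hp)).1.two_le
    have h2 : D ^ T.card ≤ lev K n ^ D := by
      calc D ^ T.card ≤ (2 ^ D) ^ T.card := Nat.pow_le_pow_left Nat.lt_two_pow_self.le _
        _ = (2 ^ T.card) ^ D := by rw [← pow_mul, ← pow_mul, mul_comm]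
        _ ≤ lev K n ^ D := Nat.pow_le_pow_left (h1.trans hT.2) D
    exact_mod_cast h2
  calc ∑ T ∈ B, (D : ℝ) ^ T.card ≤ B.card • (lev K n : ℝ) ^ D :=
        Finset.sum_le_card_nsmul _ _ _ hterm
    _ = B.card * (lev K n : ℝ) ^ D := nsmul_eq_mul _ _
    _ ≤ lev K n * (lev K n : ℝ) ^ D := by
        apply mul_le_mul_of_nonneg_right _ (by positivity)
        exact_mod_cast hcard
    _ = _ := by rw [pow_succ]; ring

/-! ### The local conditions of a family of linear forms -/

/-- the condition `p ∣ u_l y + v_l` -/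
def Dl {ι : Type} (P : Finset ℕ) (u v : ι → ℤ) (j : PJf P) (l : ι) (y : ℤ) : Prop :=
  (((j : ℕ) : ℤ)) ∣ u l * y + v l

section
variable {ι : Type} [Fintype ι] [DecidableEq ι] {P : Finset ℕ} {u v : ι → ℤ}

lemma Dl_loc (hP : ∀ p ∈ P, p.Prime) (hPu : ∀ p ∈ P, ∀ l, ¬ p ∣ (u l).natAbs)
    (huv : ∀ l, IsCoprime (u l) (v l)) (I : ι → Prop) : LocD P (Dl P u v) I := by
  refine ⟨?_, ?_⟩
  · intro j l x y h
    unfold Dl
    have h1 : (((j : ℕ) : ℤ)) ∣ (u l * x + v l) - (u l * y + v l) := by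
      have e : (u l * x + v l) - (u l * y + v l) = u l * (x - y) := by ring
      rw [e]
      exact h.mul_left _
    constructor
    · intro h2
      have := dvd_sub h2 h1
      rwa [sub_sub_cancel] at this
    · intro h2
      have := dvd_add h1 h2
      rwa [sub_add_cancel] at this
  · intro j l _
    have hp := hP j.1 j.2
    have h1 := card_root_lin (huv l) hp
    rw [if_neg (hPu j.1 j.2 l), Finset.card_eq_one] at h1
    obtain ⟨r, hr⟩ := h1
    have hr' : r ∈ (range (j : ℕ)).filter (fun ρ : ℕ => (((j : ℕ) : ℤ)) ∣ u l * (ρ : ℤ) + v l) := by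
      rw [hr]; exact Finset.mem_singleton_self r
    refine ⟨r, Finset.mem_range.1 (Finset.mem_filter.1 hr').1, ?_⟩
    intro s hs
    unfold Dl
    constructor
    · intro h2
      have : s ∈ (range (j : ℕ)).filter (fun ρ : ℕ => (((j : ℕ) : ℤ)) ∣ u l * (ρ : ℤ) + v l) :=
        Finset.mem_filter.2 ⟨Finset.mem_range.2 hs, h2⟩
      rw [hr] at this
      exact Finset.mem_singleton.1 this
    · rintro rfl
      exact (Finset.mem_filter.1 hr').2

lemma Dl_cop (hdet : ∀ p ∈ P, ∀ l l' : ι, l ≠ l' → ¬ (p : ℤ) ∣ u l * v l' - u l' * v l)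
    (j : PJf P) (l l' : ι) (y : ℤ) (h : l ≠ l') : ¬ (Dl P u v j l y ∧ Dl P u v j l' y) := by
  rintro ⟨h1, h2⟩
  apply hdet j.1 j.2 l l' h
  have e : u l * v l' - u l' * v l = u l * (u l' * y + v l') - u l' * (u l * y + v l) := by ring
  rw [e]
  exact dvd_sub (h2.mul_left _) (h1.mul_left _)

end

/-! ### Points without small prime factors -/

/-- no member has a prime factor `≤ z` at `x` -/
def Rgh {m : ℕ} (f : Fin m → MvPolynomial (Fin 2) ℤ) (n z x : ℕ) : Prop :=
  ∀ k, ∀ p : ℕ, p.Prime → (p : ℤ) ∣ val (f k) x ((n : ℤ) - x) → z < p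

/-- sizes at rough points -/
lemma omega_of_rough {m d : ℕ} (f : Fin m → MvPolynomial (Fin 2) ℤ) {Cf : Fin m → ℕ}
    (hCf : ∀ k, ∀ n : ℕ, 1 ≤ n → ∀ x y : ℤ, |x| ≤ n → |y| ≤ n →
      |val (f k) x y| ≤ Cf k * (n : ℤ) ^ d)
    {n z B : ℕ} (hCz : (∑ k, Cf k) + 2 ≤ z) (hzB : n ≤ z ^ B) {x : ℕ} (hx0 : 0 < x)
    (hxn : x < n) (hrough : Rgh f n z x) (k : Fin m) :
    val (f k) x ((n : ℤ) - x) ≠ 0 ∧
      ArithmeticFunction.cardFactors (val (f k) x ((n : ℤ) - x)).natAbs ≤ B * d := by
  set A := val (f k) x ((n : ℤ) - x) with hA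
  have ha0 : A ≠ 0 := by
    intro h0
    have := hrough k 2 Nat.prime_two (by rw [← hA, h0]; exact dvd_zero _)
    omega
  refine ⟨ha0, ?_⟩
  have hna : A.natAbs ≠ 0 := Int.natAbs_ne_zero.mpr ha0
  have h1 := pow_cardFactors_le (N := A.natAbs) (z := z) hna (fun p hp hpa =>
    (hrough k p hp (Int.natCast_dvd.mpr hpa)).le)
  have h2 : (A.natAbs : ℤ) ≤ Cf k * (n : ℤ) ^ d := by
    rw [Int.natCast_natAbs, hA]
    apply hCf k n (by omega)
    · rw [abs_le]; constructor <;> omega
    · rw [abs_le]; constructor <;> omega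
  have h3 : A.natAbs ≤ Cf k * n ^ d := by exact_mod_cast h2
  have h4 : Cf k ≤ ∑ k, Cf k :=
    Finset.single_le_sum (fun i _ => Nat.zero_le _) (Finset.mem_univ k)
  have h5 : A.natAbs < z ^ (B * d + 1) := by
    calc A.natAbs ≤ Cf k * n ^ d := h3
      _ ≤ (∑ k, Cf k) * n ^ d := Nat.mul_le_mul_right _ h4
      _ < z * n ^ d := by
          apply Nat.mul_lt_mul_of_pos_right (by omega)
          have : 0 < n := by omega
          positivity
      _ ≤ z * (z ^ B) ^ d := Nat.mul_le_mul_left _ (Nat.pow_le_pow_left hzB d)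
      _ = z ^ (B * d + 1) := by rw [← pow_mul, pow_succ]; ring
  have h6 := lt_of_le_of_lt h1 h5
  have h7 := (Nat.pow_lt_pow_iff_right (by omega : 1 < z)).mp h6
  omega

/-- few primes of `P` divide a nonzero number with few prime factors -/
lemma card_dvd_le {P : Finset ℕ} (hP : ∀ p ∈ P, p.Prime) {A : ℤ} (hA : A ≠ 0) :
    (univ.filter (fun j : PJf P => (((j : ℕ) : ℤ)) ∣ A)).card ≤
      ArithmeticFunction.cardFactors A.natAbs := by
  classical
  have hna : A.natAbs ≠ 0 := Int.natAbs_ne_zero.mpr hA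
  have h1 : (univ.filter (fun j : PJf P => (((j : ℕ) : ℤ)) ∣ A)).card ≤
      A.natAbs.primeFactors.card := by
    apply Finset.card_le_card_of_injOn (fun j : PJf P => (j : ℕ))
    · intro j hj
      rw [Finset.mem_coe, Finset.mem_filter] at hj
      rw [Finset.mem_coe, Nat.mem_primeFactors]
      exact ⟨hP j.1 j.2, Int.natCast_dvd.1 hj.2, hna⟩
    · intro j _ j' _ h
      exact Subtype.ext h
  refine h1.trans ?_
  rw [ArithmeticFunction.cardFactors_apply]
  exact List.toFinset_card_le _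

end Pool.Agent.MT
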