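import Pool.Agent.Lib.MP_0da313_nt.MT.Orient
import Pool.Agent.Lib.MP_0da313_nt.Final

set_option autoImplicit false

/-!
Data attached to a linear member of an admissible family.
-/

open Finset Polynomial Filter

namespace Pool.Agent.MT

open Pool.Agent.MP89da58 Pool.Agent.BVall Pool.Agent.Lib.MP_0da313_nt

/-- data of a linear member -/
structure Lin (f : MvPolynomial (Fin 2) ℤ) where
  a : ℤ
  b : ℤ
  c : ℤ
  σ : ℤ
  t : ℝ
  θ : ℝ
  hval : ∀ x y : ℤ, val f x y = a * x + b * y + c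
  hσ : σ = 1 ∨ σ = -1
  ht : t = 1 / 4 ∨ t = 3 / 4
  hθl : (|(a : ℝ)| + |(b : ℝ)|) / 4 ≤ θ
  hθu : θ ≤ |(a : ℝ)| + |(b : ℝ)|
  hθ : θ = σ * (((a : ℝ) - b) * t + b)
  hab : a ≠ b

lemma exists_lin {m : ℕ} {f : Fin m → MvPolynomial (Fin 2) ℤ} (hf : Admissible f) (k : Fin m)
    (hlin : (f k).totalDegree ≤ 1) : Nonempty (Lin (f k)) := by
  obtain ⟨a, b, c, habc⟩ := val_linear (f k) hlin
  obtain ⟨hab, _⟩ := linear_member hf k habc
  obtain ⟨σ, t, θ, h1, h2, h3, h4, h5⟩ := orient2 a b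
  exact ⟨⟨a, b, c, σ, t, θ, habc, h1, h2, h3, h4, h5, hab⟩⟩

namespace Lin

variable {f : MvPolynomial (Fin 2) ℤ} (L : Lin f)

/-- the leading coefficient -/
def u : ℤ := L.σ * (L.a - L.b)

/-- the constant coefficient -/
def v (n : ℕ) : ℤ := L.σ * (L.b * n + L.c)

/-- the width of the window -/
noncomputable def la : ℝ := 16 * (|(L.a : ℝ)| + |(L.b : ℝ)|) / |(L.a : ℝ) - L.b|

lemma one_le_ab : (1 : ℝ) ≤ |(L.a : ℝ) - L.b| := by
  have : (1 : ℤ) ≤ |L.a - L.b| := Int.one_le_abs (sub_ne_zero.2 L.hab)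
  exact_mod_cast this

lemma ab_le : |(L.a : ℝ) - L.b| ≤ |(L.a : ℝ)| + |(L.b : ℝ)| := abs_sub _ _

lemma la_mul : L.la * |(L.a : ℝ) - L.b| = 16 * (|(L.a : ℝ)| + |(L.b : ℝ)|) := by
  unfold la
  have := L.one_le_ab
  rw [div_mul_cancel₀]
  linarith

lemma la_ge : 1 ≤ L.la := by
  have h1 := L.one_le_ab
  have h2 := L.ab_le
  unfold la
  rw [le_div_iff₀ (by linarith)]
  linarith

lemma la_pos : 0 < L.la := by linarith [L.la_ge]

lemma θ_ge : 1 / 4 ≤ L.θ := by
  have h1 := L.one_le_ab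
  have h2 := L.ab_le
  have h3 := L.hθl
  linarith

lemma θ_pos : 0 < L.θ := by linarith [L.θ_ge]

lemma θ_la : 16 * L.θ ≤ L.la * |(L.a : ℝ) - L.b| := by
  rw [L.la_mul]
  linarith [L.hθu]

lemma u_ne : L.u ≠ 0 := by
  unfold u
  apply mul_ne_zero
  · rcases L.hσ with h | h <;> rw [h] <;> norm_num
  · exact sub_ne_zero.2 L.hab

lemma natAbs_u : (L.u.natAbs : ℝ) = |(L.a : ℝ) - L.b| := by
  unfold u
  rw [Int.natAbs_mul]
  have h1 : L.σ.natAbs = 1 := by
    rcases L.hσ with h | h <;> rw [h] <;> rfl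
  rw [h1, one_mul, Nat.cast_natAbs]
  push_cast
  rfl

lemma coprime {m : ℕ} {f : Fin m → MvPolynomial (Fin 2) ℤ} (hf : Admissible f) {k : Fin m}
    (L : Lin (f k)) : ∃ N₀ : ℕ, ∀ n : ℕ, N₀ ≤ n → IsCoprime L.u (L.v n) := by
  obtain ⟨_, N₀, h⟩ := linear_member hf k L.hval
  refine ⟨N₀, fun n hn => ?_⟩
  have h1 := h n hn
  unfold u v
  rcases L.hσ with h | h
  · rw [h, one_mul, one_mul]; exact h1
  · rw [h, neg_one_mul, neg_one_mul]; exact h1.neg_neg

lemma eval_eq (n : ℕ) (y : ℤ) : L.u * y + L.v n = L.σ * (lineRestrict f n).eval y := by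
  rw [line_eq L.hval]
  simp only [eval_add, eval_mul, eval_C, eval_X]
  unfold u v
  ring

/-- the mass of the window -/
lemma mass (n : ℕ) : (n : ℝ) / 64 ≤ L.θ * n / (L.la * L.u.natAbs) := by
  rw [L.natAbs_u, L.la_mul]
  have h1 := L.one_le_ab
  have h2 := L.ab_le
  have h3 := L.hθl
  have hn : (0 : ℝ) ≤ n := Nat.cast_nonneg n
  rw [div_le_div_iff₀ (by norm_num) (by linarith)]
  nlinarith

/-- the density of the window relative to the sieve -/
lemma main_term (n : ℕ) {Vk V κ : ℝ} (hV : 0 ≤ V) (hκ : 0 < κ)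
    (h : V / κ * ((Nat.totient L.u.natAbs : ℝ) / L.u.natAbs) ≤ Vk) :
    (n : ℝ) / 1536 * (V / κ) ≤
      L.θ * n / (24 * L.la) / (Nat.totient L.u.natAbs : ℝ) * Vk := by
  have hu0 : 0 < L.u.natAbs := Int.natAbs_pos.2 L.u_ne
  have hu : (0 : ℝ) < L.u.natAbs := by exact_mod_cast hu0
  have hφ : (0 : ℝ) < Nat.totient L.u.natAbs := by exact_mod_cast Nat.totient_pos.2 hu0
  have hla := L.la_pos
  have hθ := L.θ_pos
  have hn : (0 : ℝ) ≤ n := Nat.cast_nonneg n
  have hVκ : 0 ≤ V / κ := by positivity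
  calc (n : ℝ) / 1536 * (V / κ) = (n / 64) * (V / κ / 24) := by ring
    _ ≤ (L.θ * n / (L.la * L.u.natAbs)) * (V / κ / 24) :=
        mul_le_mul_of_nonneg_right (L.mass n) (by positivity)
    _ = L.θ * n / (24 * L.la) / (Nat.totient L.u.natAbs : ℝ) *
          (V / κ * ((Nat.totient L.u.natAbs : ℝ) / L.u.natAbs)) := by
        field_simp
    _ ≤ _ := by
        apply mul_le_mul_of_nonneg_left h (by positivity)

end Lin

/-- the point attached to a prime value of a linear member -/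
lemma member_point {m : ℕ} (f : Fin m → MvPolynomial (Fin 2) ℤ) (k₀ : Fin m) (L : Lin (f k₀))
    {n z : ℕ} (hn8 : 8 * |(L.c : ℝ)| < n) (hzX : 3 * (z : ℝ) < L.θ * n)
    {N : ℕ} (hNp : N.Prime) (hNO : OmL L.la (L.θ * n) N ≠ 0) (hdvd : L.u ∣ (N : ℤ) - L.v n)
    (hQ : ∀ p : ℕ, p.Prime → p ≤ z →
      ¬ ((p : ℤ) ∣ (∏ k ∈ univ.erase k₀, lineRestrict (f k) n).eval (((N : ℤ) - L.v n) / L.u) ∧
        ¬ (p : ℤ) ∣ L.u * (((N : ℤ) - L.v n) / L.u) + L.v n)) :
    ∃ x : ℕ, (x : ℤ) = ((N : ℤ) - L.v n) / L.u ∧ (N : ℤ) = L.u * x + L.v n ∧ 0 < x ∧ x < n ∧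
      (val (f k₀) x ((n : ℤ) - x)).natAbs = N ∧
      ∀ k, ∀ p : ℕ, p.Prime → (p : ℤ) ∣ val (f k) x ((n : ℤ) - x) → z < p := by
  have hn0 : (0 : ℝ) < n := lt_of_le_of_lt (by positivity) hn8
  have hX0 : 0 < L.θ * n := mul_pos L.θ_pos hn0
  set y : ℤ := ((N : ℤ) - L.v n) / L.u with hy
  have hNy : (N : ℤ) = L.u * y + L.v n := by
    have := Int.mul_ediv_cancel' hdvd
    rw [← hy] at this
    linarith
  have hwin := window2 (c := L.c) L.hσ L.ht L.θ_pos L.hab L.la_ge L.θ_la L.hθ hn8 hNp.pos hNO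
    (x := y) (by rw [hNy]; rfl)
  set x : ℕ := y.toNat with hxdef
  have hxy : (x : ℤ) = y := Int.toNat_of_nonneg hwin.1.le
  have hval₀ : (val (f k₀) x ((n : ℤ) - x)).natAbs = N := by
    have h1 : val (f k₀) x ((n : ℤ) - x) = (lineRestrict (f k₀) n).eval (x : ℤ) :=
      (eval_lineRestrict (f k₀) n x).symm
    have h2 := L.eval_eq n x
    rw [← h1] at h2
    have h3 : (N : ℤ) = L.σ * val (f k₀) x ((n : ℤ) - x) := by rw [← h2, hxy]; exact hNy
    rcases L.hσ with h | h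
    · rw [h, one_mul] at h3
      rw [← h3]; simp
    · rw [h, neg_one_mul] at h3
      rw [← Int.natAbs_neg, ← h3]; simp
  have hzN : z < N := by
    have h1 := (OmL_support L.la_ge hX0 hNp.pos hNO).2
    have h2 : (z : ℝ) < N := by linarith
    exact_mod_cast h2
  refine ⟨x, hxy, by rw [hxy]; exact hNy, by omega, by omega, hval₀, ?_⟩
  intro k p hp hpa
  by_contra hle
  push Not at hle
  by_cases hk : k = k₀
  · subst hk
    have h1 : p ∣ (val (f k) x ((n : ℤ) - x)).natAbs := Int.natCast_dvd.1 hpa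
    rw [hval₀, Nat.prime_dvd_prime_iff_eq hp hNp] at h1
    omega
  · have h1 := hQ p hp hle
    rw [not_and_not_right] at h1
    have h2 : (p : ℤ) ∣ (∏ k ∈ univ.erase k₀, lineRestrict (f k) n).eval y := by
      rw [← hxy, eval_prod]
      refine hpa.trans ?_
      rw [← eval_lineRestrict]
      exact Finset.dvd_prod_of_mem (fun k => (lineRestrict (f k) n).eval (x : ℤ))
        (Finset.mem_erase.2 ⟨hk, Finset.mem_univ k⟩)
    have h3 := h1 h2
    rw [← hNy] at h3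
    have h4 : p ∣ N := Int.natCast_dvd_natCast.1 h3
    rw [Nat.prime_dvd_prime_iff_eq hp hNp] at h4
    omega

/-- points at which all members have no small prime factor -/
lemma good_of_rough {m d : ℕ} (f : Fin m → MvPolynomial (Fin 2) ℤ) {Cf : Fin m → ℕ}
    (hCf : ∀ k, ∀ n : ℕ, 1 ≤ n → ∀ x y : ℤ, |x| ≤ n → |y| ≤ n →
      |val (f k) x y| ≤ Cf k * (n : ℤ) ^ d)
    {n z B : ℕ} (hCz : (∑ k, Cf k) + 2 ≤ z) (hzB : n ≤ z ^ B) (hB : 1 ≤ B) {x : ℕ} (hx0 : 0 < x)
    (hxn : x < n)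
    (hrough : ∀ k, ∀ p : ℕ, p.Prime → (p : ℤ) ∣ val (f k) x ((n : ℤ) - x) → z < p)
    (hne : ∀ k, (lineRestrict (f k) n).eval (x : ℤ) ^ 2 - 1 ≠ 0) (k : Fin m) :
    1 < |val (f k) x ((n : ℤ) - x)| ∧
      (∀ p : ℕ, p.Prime → (p : ℤ) ∣ val (f k) x ((n : ℤ) - x) → n < p ^ B) ∧
      ArithmeticFunction.cardFactors (val (f k) x ((n : ℤ) - x)).natAbs ≤ B * d := by
  have hval : val (f k) x ((n : ℤ) - x) = (lineRestrict (f k) n).eval (x : ℤ) :=
    (eval_lineRestrict (f k) n x).symm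
  have hne' := hne k
  rw [← hval] at hne'
  set A := val (f k) x ((n : ℤ) - x) with hA
  have ha0 : A ≠ 0 := by
    intro h0
    have := hrough k 2 Nat.prime_two (by rw [← hA, h0]; exact dvd_zero _)
    omega
  have habs : 1 < |A| := by
    have h1 : 0 < |A| := abs_pos.mpr ha0
    have h2 : |A| ≠ 1 := by
      intro h
      apply hne'
      rw [← sq_abs, h]
      norm_num
    omega
  refine ⟨habs, ?_, ?_⟩
  · intro p hp hpa
    have := hrough k p hp hpa
    calc n ≤ z ^ B := hzB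
      _ < p ^ B := Nat.pow_lt_pow_left this (by omega)
  · have hna : A.natAbs ≠ 0 := Int.natAbs_ne_zero.mpr ha0
    have h1 := pow_cardFactors_le (N := A.natAbs) (z := z) hna (fun p hp hpa =>
      (hrough k p hp (Int.natCast_dvd.mpr hpa)).le)
    have h2 : (A.natAbs : ℤ) ≤ Cf k * (n : ℤ) ^ d := by
      rw [Int.natCast_natAbs, hA]
      apply hCf k n (by omega)
      · rw [abs_le]; constructor <;> omega
      · rw [abs_le]; constructor <;> omega
    have h3 : A.natAbs ≤ Cf k * n ^ d := by exact_mod_cast h2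
    have h4 : Cf k ≤ ∑ k, Cf k :=
      Finset.single_le_sum (fun i _ => Nat.zero_le _) (Finset.mem_univ k)
    have h5 : A.natAbs < z ^ (B * d + 1) := by
      calc A.natAbs ≤ Cf k * n ^ d := h3
        _ ≤ (∑ k, Cf k) * n ^ d := Nat.mul_le_mul_right _ h4
        _ < z * n ^ d := by
            apply Nat.mul_lt_mul_of_pos_right (by omega)
            have : 0 < n := by omega
            positivity
        _ ≤ z * (z ^ B) ^ d := Nat.mul_le_mul_left _ (Nat.pow_le_pow_left hzB d)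
        _ = z ^ (B * d + 1) := by rw [← pow_mul, pow_succ]; ring
    have h6 := lt_of_le_of_lt h1 h5
    have h7 := (Nat.pow_lt_pow_iff_right (by omega : 1 < z)).mp h6
    omega

/-- few points at which some member is a unit -/
lemma card_unit_le {m d : ℕ} (f : Fin m → MvPolynomial (Fin 2) ℤ)
    (hdeg : ∀ k, (f k).totalDegree ≤ d) {n : ℕ} (hirr : ∀ k, Irreducible (lineRestrict (f k) n))
    (S : Finset ℕ) :
    (S.filter (fun x : ℕ => ∃ k, (lineRestrict (f k) n).eval (x : ℤ) ^ 2 - 1 = 0)).card ≤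
      2 * (m * d) := by
  set H : ℤ[X] := ∏ k, ((lineRestrict (f k) n) ^ 2 - 1) with hH
  have hHne : H ≠ 0 := by
    rw [hH, Finset.prod_ne_zero_iff]
    intro k _ h0
    apply (hirr k).not_isUnit
    exact IsUnit.of_mul_eq_one (lineRestrict (f k) n) (by linear_combination h0)
  have hHdeg : H.natDegree ≤ 2 * (m * d) := by
    refine (natDegree_prod_le _ _).trans ?_
    calc ∑ k : Fin m, ((lineRestrict (f k) n) ^ 2 - 1).natDegree ≤ ∑ _k : Fin m, 2 * d := by
          apply Finset.sum_le_sum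
          intro k _
          refine (natDegree_sub_le _ _).trans ?_
          rw [natDegree_one]
          refine max_le ?_ (by omega)
          refine natDegree_pow_le.trans ?_
          exact Nat.mul_le_mul_left 2 (natDegree_lineRestrict_le (f k) n d (hdeg k))
      _ = 2 * (m * d) := by simp; ring
  refine le_trans ?_ ((card_int_roots_le H hHne S).trans hHdeg)
  apply Finset.card_le_card
  intro x hx
  rw [Finset.mem_filter] at hx ⊢
  refine ⟨hx.1, ?_⟩
  obtain ⟨k, hk⟩ := hx.2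
  rw [hH, eval_prod]
  apply Finset.prod_eq_zero (Finset.mem_univ k)
  simpa using hk

end Pool.Agent.MT
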