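import Pool.Agent.Lib.MP_0da313_nt.MT.OneDimU
import Pool.Agent.Lib.MP_89da58_nt.Mk

set_option autoImplicit false
set_option linter.unusedSectionVars false

/-!
The sieve data attached to a set of primes.
-/

open Finset

namespace Pool.Agent.MT

open Pool.Agent.MP89da58

variable {ι : Type} [Fintype ι] [DecidableEq ι]

/-- the index type of a set of primes -/
abbrev PJf (P : Finset ℕ) : Type := {p : ℕ // p ∈ P}

/-- The sieve data. -/
noncomputable def mkG (P : Finset ℕ) (z M m y : ℕ) (hy : 1 ≤ y)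
    (hP : ∀ p ∈ P, p.Prime ∧ z < p) (hM : 2 * 2 ^ m ≤ M)
    (hz : 16 * (Fintype.card ι + 2) ^ 2 ≤ z) :
    SData ι (PJf P) where
  p := fun j => (j : ℕ)
  hp := fun j => (hP j.1 j.2).1.two_le
  hpK := fun j => by
    have h1 : Fintype.card ι + 2 ≤ 16 * (Fintype.card ι + 2) ^ 2 := by nlinarith
    have h2 := (hP j.1 j.2).2
    omega
  g := gfun m y
  hg0 := gfun_nonneg m y
  hg1 := gfun_one m y 1 hy
  hg := gfun_anti m y
  R := y ^ M
  hgR := fun n hn => by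
    have h1 := gfun_support m y n hy hn
    calc n * n ≤ y ^ 2 ^ m * y ^ 2 ^ m := Nat.mul_le_mul h1 h1
      _ = y ^ (2 ^ m + 2 ^ m) := by rw [pow_add]
      _ ≤ y ^ M := by
          apply Nat.pow_le_pow_right hy
          omega
  hE := by
    have h1 : ∑ j : PJf P, (1 / (((j : ℕ) : ℝ) - 1)) ^ 2 ≤ (2 : ℝ) / z := by
      rw [Finset.sum_coe_sort P (fun n : ℕ => (1 / ((n : ℝ) - 1)) ^ 2)]
      have h2 : P ⊆ Finset.Ioc z (P.sup id) := by
        intro p hp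
        rw [Finset.mem_Ioc]
        exact ⟨(hP p hp).2, Finset.le_sup (f := id) hp⟩
      refine (Finset.sum_le_sum_of_subset_of_nonneg h2
        fun _ _ _ => by positivity).trans (sum_inv_sq_le z _ ?_)
      have h3 : 1 ≤ (Fintype.card ι + 2) ^ 2 := Nat.one_le_pow _ _ (by omega)
      omega
    have hz' : (16 : ℝ) * ((Fintype.card ι : ℝ) + 2) ^ 2 ≤ z := by exact_mod_cast hz
    have hz0 : (0 : ℝ) < z := by
      have : (0 : ℝ) < 16 * ((Fintype.card ι : ℝ) + 2) ^ 2 := by positivity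
      linarith
    calc ((Fintype.card ι : ℝ) + 2) ^ 2 * ∑ j : PJf P,
        (1 / (((j : ℕ) : ℝ) - 1)) ^ 2 ≤ ((Fintype.card ι : ℝ) + 2) ^ 2 * (2 / z) :=
          mul_le_mul_of_nonneg_left h1 (by positivity)
      _ ≤ 1 / 8 := by
          rw [mul_div_assoc', div_le_div_iff₀ hz0 (by norm_num)]
          linarith

/-- the one-dimensional sum in terms of subsets of `P` -/
lemma G0_eq {P : Finset ℕ} (S : SData ι (PJf P)) (hS : ∀ j, S.p j = (j : ℕ)) (T : ℕ) :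
    S.G0 T = g0 P T := by
  unfold SData.G0 g0
  rw [Finset.sum_filter, ← sum_subtype_powerset P
    (fun A => if ∏ p ∈ A, p ≤ T then ∏ p ∈ A, (1 / (p : ℝ)) else 0)]
  apply Finset.sum_congr rfl
  intro a _
  have h1 : nn S.p a = ∏ p ∈ a.map (Function.Embedding.subtype (· ∈ P)), p := by
    unfold nn
    rw [Finset.prod_map]
    exact Finset.prod_congr rfl fun j _ => hS j
  have h2 : pw S.x a = ∏ p ∈ a.map (Function.Embedding.subtype (· ∈ P)), (1 / (p : ℝ)) := by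
    unfold pw SData.x
    rw [Finset.prod_map]
    exact Finset.prod_congr rfl fun j _ => by rw [hS j]; rfl
  rw [← h1, ← h2]
  unfold tau
  split_ifs <;> ring

theorem exists_sdataG (P : Finset ℕ) (z C m y : ℕ) (κ : ℝ) (hκ : 0 < κ) (hC : 1 ≤ C)
    (hm : 1 ≤ m) (hy : 2 ≤ y) (hP : ∀ p ∈ P, p.Prime ∧ z < p)
    (hK : 2 ^ m ≤ Fintype.card ι) (hz : 16 * (Fintype.card ι + 2) ^ 2 ≤ z)
    (hG' : ∀ e : ℕ, 1 ≤ e → e ≤ 64 * C * Fintype.card ι * (m + 1) →
      κ * (e * Real.log y) / 4 ≤ g0 P (y ^ e) ∧ g0 P (y ^ e) ≤ C * κ * (e * Real.log y)) :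
    ∃ S : SData ι (PJf P),
        (∀ j, S.p j = (j : ℕ)) ∧ S.R = y ^ (64 * C * Fintype.card ι * (m + 1)) ∧
        (m : ℝ) * κ * Real.log y / 8 ≤ S.A1 ∧
        κ * Real.log y / 4 ≤ S.A2 ∧ S.A2 ≤ 2 * C * κ * Real.log y ∧
        16 * (Fintype.card ι : ℝ) * S.B1 ≤ S.A2 * Real.log S.R := by
  have hy1 : 1 ≤ y := by omega
  set K := Fintype.card ι with hKdef
  set M := 64 * C * K * (m + 1) with hM
  have hK1 : 1 ≤ K := le_trans Nat.one_le_two_pow hK
  have hKM : 2 * K ≤ M := by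
    rw [hM]
    have h1 : 1 ≤ C * (m + 1) := Nat.mul_pos hC (by omega)
    calc 2 * K = K * 2 := mul_comm _ _
      _ ≤ K * (64 * (C * (m + 1))) := Nat.mul_le_mul_left _ (by omega)
      _ = _ := by ring
  have h2mM : 2 * 2 ^ m ≤ M := by omega
  let S : SData ι (PJf P) := mkG P z M m y hy1 hP h2mM hz
  set L : ℝ := Real.log y with hL
  have hL0 : 0 < L := Real.log_pos (by exact_mod_cast (show 1 < y by omega))
  have hCr : (1 : ℝ) ≤ C := by exact_mod_cast hC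
  have hG : ∀ e : ℕ, 1 ≤ e → e ≤ M → κ * (e * L) / 4 ≤ S.G0 (y ^ e) ∧
      S.G0 (y ^ e) ≤ C * κ * (e * L) := by
    intro e he heM
    rw [G0_eq S (fun _ => rfl)]
    exact hG' e he heM
  have h2M : ∀ k ≤ m, 1 ≤ 2 ^ k ∧ 2 ^ k ≤ M := by
    intro k hk
    refine ⟨Nat.one_le_two_pow, ?_⟩
    calc 2 ^ k ≤ 2 ^ m := Nat.pow_le_pow_right (by norm_num) hk
      _ ≤ M := by omega
  have hGk : ∀ k ≤ m, κ * ((2 : ℝ) ^ k * L) / 4 ≤ S.G0 (y ^ 2 ^ k) ∧
      S.G0 (y ^ 2 ^ k) ≤ C * κ * ((2 : ℝ) ^ k * L) := by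
    intro k hk
    have h1 := hG (2 ^ k) (h2M k hk).1 (h2M k hk).2
    push_cast at h1
    exact h1
  have hpw0 : ∀ a, 0 ≤ pw S.x a := fun a => pw_nonneg (fun j => (S.x_pos j).le) a
  have hnn1 : ∀ a, 1 ≤ nn S.p a := fun a => nn_pos S.p_one a
  -- expansions
  have hA1 : S.A1 = ∑ k ∈ Finset.range m, (1 / 2 : ℝ) ^ (k + 1) * S.G0 (y ^ 2 ^ k) +
      (1 / 2 : ℝ) ^ m * S.G0 (y ^ 2 ^ m) := by
    unfold SData.A1 SData.G0
    simp_rw [Finset.mul_sum]
    rw [Finset.sum_comm, ← Finset.sum_add_distrib]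
    apply Finset.sum_congr rfl
    intro a _
    change pw S.x a * gfun m y (nn S.p a) = _
    unfold gfun gav
    rw [mul_add, Finset.mul_sum]
    congr 1
    · apply Finset.sum_congr rfl
      intro k _
      ring
    · ring
  have hA2 : S.A2 = ∑ k ∈ Finset.range m, (3 / 4 : ℝ) * (1 / 4 : ℝ) ^ k * S.G0 (y ^ 2 ^ k) +
      (1 / 4 : ℝ) ^ m * S.G0 (y ^ 2 ^ m) := by
    unfold SData.A2 SData.G0
    simp_rw [Finset.mul_sum]
    rw [Finset.sum_comm, ← Finset.sum_add_distrib]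
    apply Finset.sum_congr rfl
    intro a _
    change pw S.x a * gfun m y (nn S.p a) ^ 2 = _
    rw [gfun_sq m y _ hy1, mul_add, Finset.mul_sum]
    congr 1
    · apply Finset.sum_congr rfl
      intro k _
      ring
    · ring
  have hhalf : ∀ k : ℕ, (1 / 2 : ℝ) ^ k * 2 ^ k = 1 := by
    intro k
    rw [← mul_pow]
    norm_num
  have hquart : ∀ k : ℕ, (1 / 4 : ℝ) ^ k * 2 ^ k * 2 ^ k = 1 := by
    intro k
    rw [← mul_pow, ← mul_pow]
    norm_num
  have hquart1 : ∀ k : ℕ, (1 / 4 : ℝ) ^ k * 2 ^ k = (1 / 2) ^ k := by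
    intro k
    rw [← mul_pow]
    norm_num
  have hA2low : κ * L / 4 ≤ S.A2 := by
    have h1 : S.G0 y ≤ S.A2 := by
      unfold SData.G0 SData.A2
      apply Finset.sum_le_sum
      intro a _
      apply mul_le_mul_of_nonneg_left _ (hpw0 a)
      change tau y (nn S.p a) ≤ gfun m y (nn S.p a) ^ 2
      unfold tau
      split_ifs with h
      · rw [gfun_one m y _ h]; norm_num
      · positivity
    have h2 := (hG 1 le_rfl (h2M 0 (Nat.zero_le _)).2).1
    rw [pow_one] at h2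
    push_cast at h2
    rw [one_mul] at h2
    linarith only [h1, h2]
  refine ⟨S, fun j => rfl, rfl, ?_, hA2low, ?_, ?_⟩
  · -- lower bound for A1
    rw [hA1]
    have h1 : ∑ k ∈ Finset.range m, κ * L / 8 ≤
        ∑ k ∈ Finset.range m, (1 / 2 : ℝ) ^ (k + 1) * S.G0 (y ^ 2 ^ k) := by
      apply Finset.sum_le_sum
      intro k hk
      rw [Finset.mem_range] at hk
      calc κ * L / 8 = ((1 / 2 : ℝ) ^ k * 2 ^ k) * (κ * L / 8) := by rw [hhalf]; ring
        _ = (1 / 2 : ℝ) ^ (k + 1) * (κ * ((2 : ℝ) ^ k * L) / 4) := by rw [pow_succ]; ring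
        _ ≤ _ := mul_le_mul_of_nonneg_left (hGk k hk.le).1 (by positivity)
    rw [Finset.sum_const, Finset.card_range, nsmul_eq_mul] at h1
    have h2 : 0 ≤ (1 / 2 : ℝ) ^ m * S.G0 (y ^ 2 ^ m) := by
      apply mul_nonneg (by positivity)
      have := (hGk m le_rfl).1
      have h3 : 0 ≤ κ * ((2 : ℝ) ^ m * L) / 4 := by positivity
      linarith only [this, h3]
    calc (m : ℝ) * κ * L / 8 = (m : ℝ) * (κ * L / 8) := by ring
      _ ≤ _ := by linarith only [h1, h2]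
  · rw [hA2]
    have h1 : ∑ k ∈ Finset.range m, (3 / 4 : ℝ) * (1 / 4 : ℝ) ^ k * S.G0 (y ^ 2 ^ k) ≤
        ∑ k ∈ Finset.range m, (3 / 2 * C * κ * L) * (1 / 2 : ℝ) ^ (k + 1) := by
      apply Finset.sum_le_sum
      intro k hk
      rw [Finset.mem_range] at hk
      calc (3 / 4 : ℝ) * (1 / 4 : ℝ) ^ k * S.G0 (y ^ 2 ^ k) ≤
          (3 / 4 : ℝ) * (1 / 4 : ℝ) ^ k * (C * κ * ((2 : ℝ) ^ k * L)) :=
            mul_le_mul_of_nonneg_left (hGk k hk.le).2 (by positivity)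
        _ = ((1 / 4 : ℝ) ^ k * 2 ^ k) * (3 / 4 * C * κ * L) := by ring
        _ = (3 / 2 * C * κ * L) * (1 / 2 : ℝ) ^ (k + 1) := by rw [hquart1, pow_succ]; ring
    rw [← Finset.mul_sum] at h1
    have h2 : (1 / 4 : ℝ) ^ m * S.G0 (y ^ 2 ^ m) ≤ (C * κ * L) * (1 / 2 : ℝ) ^ m := by
      calc (1 / 4 : ℝ) ^ m * S.G0 (y ^ 2 ^ m) ≤ (1 / 4 : ℝ) ^ m * (C * κ * ((2 : ℝ) ^ m * L)) :=
            mul_le_mul_of_nonneg_left (hGk m le_rfl).2 (by positivity)
        _ = ((1 / 4 : ℝ) ^ m * 2 ^ m) * (C * κ * L) := by ring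
        _ = _ := by rw [hquart1]; ring
    have h3 := sum_gav_coeff m
    have h4 : 0 ≤ C * κ * L := by positivity
    have h5 : 0 ≤ (C * κ * L) * (1 / 2 : ℝ) ^ m := by positivity
    have h6 : (3 / 2 * C * κ * L) * ∑ k ∈ Finset.range m, (1 / 2 : ℝ) ^ (k + 1) +
        (3 / 2 * C * κ * L) * (1 / 2 : ℝ) ^ m = 3 / 2 * C * κ * L := by
      rw [← mul_add, h3, mul_one]
    nlinarith only [h1, h2, h4, h5, h6]
  · -- B1
    have hlogle : ∀ k a, tau (y ^ 2 ^ k) (nn S.p a) * Real.log (nn S.p a) ≤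
        tau (y ^ 2 ^ k) (nn S.p a) * ((2 : ℝ) ^ k * L) := by
      intro k a
      unfold tau
      split_ifs with h
      · rw [one_mul, one_mul]
        have h1 : (0 : ℝ) < nn S.p a := by exact_mod_cast hnn1 a
        have h2 : (nn S.p a : ℝ) ≤ ((y ^ 2 ^ k : ℕ) : ℝ) := by exact_mod_cast h
        have h3 := Real.log_le_log h1 h2
        push_cast at h3
        rw [Real.log_pow] at h3
        push_cast at h3
        exact h3
      · simp
    have hB1 : S.B1 ≤ ∑ k ∈ Finset.range m, (3 / 4 : ℝ) * (1 / 4 : ℝ) ^ k *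
        (((2 : ℝ) ^ k * L) * S.G0 (y ^ 2 ^ k)) +
        (1 / 4 : ℝ) ^ m * (((2 : ℝ) ^ m * L) * S.G0 (y ^ 2 ^ m)) := by
      unfold SData.B1 SData.G0
      simp_rw [Finset.mul_sum]
      rw [Finset.sum_comm, ← Finset.sum_add_distrib]
      apply Finset.sum_le_sum
      intro a _
      change pw S.x a * gfun m y (nn S.p a) ^ 2 * Real.log (nn S.p a) ≤ _
      rw [gfun_sq m y _ hy1, mul_add, add_mul, Finset.mul_sum, Finset.sum_mul]
      apply add_le_add
      · apply Finset.sum_le_sum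
        intro k _
        calc pw S.x a * ((3 / 4 : ℝ) * (1 / 4 : ℝ) ^ k * tau (y ^ 2 ^ k) (nn S.p a)) *
              Real.log (nn S.p a) = (pw S.x a * ((3 / 4 : ℝ) * (1 / 4 : ℝ) ^ k)) *
              (tau (y ^ 2 ^ k) (nn S.p a) * Real.log (nn S.p a)) := by ring
          _ ≤ (pw S.x a * ((3 / 4 : ℝ) * (1 / 4 : ℝ) ^ k)) *
              (tau (y ^ 2 ^ k) (nn S.p a) * ((2 : ℝ) ^ k * L)) :=
              mul_le_mul_of_nonneg_left (hlogle k a) (mul_nonneg (hpw0 a) (by positivity))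
          _ = _ := by ring
      · calc pw S.x a * ((1 / 4 : ℝ) ^ m * tau (y ^ 2 ^ m) (nn S.p a)) *
              Real.log (nn S.p a) = (pw S.x a * ((1 / 4 : ℝ) ^ m)) *
              (tau (y ^ 2 ^ m) (nn S.p a) * Real.log (nn S.p a)) := by ring
          _ ≤ (pw S.x a * ((1 / 4 : ℝ) ^ m)) *
              (tau (y ^ 2 ^ m) (nn S.p a) * ((2 : ℝ) ^ m * L)) :=
              mul_le_mul_of_nonneg_left (hlogle m a) (mul_nonneg (hpw0 a) (by positivity))
          _ = _ := by ring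
    have hB2 : S.B1 ≤ ((m : ℝ) + 1) * (C * κ * L ^ 2) := by
      have h1 : ∑ k ∈ Finset.range m, (3 / 4 : ℝ) * (1 / 4 : ℝ) ^ k *
          (((2 : ℝ) ^ k * L) * S.G0 (y ^ 2 ^ k)) ≤ ∑ k ∈ Finset.range m, (C * κ * L ^ 2) := by
        apply Finset.sum_le_sum
        intro k hk
        rw [Finset.mem_range] at hk
        calc (3 / 4 : ℝ) * (1 / 4 : ℝ) ^ k * (((2 : ℝ) ^ k * L) * S.G0 (y ^ 2 ^ k))
            ≤ (3 / 4 : ℝ) * (1 / 4 : ℝ) ^ k * (((2 : ℝ) ^ k * L) * (C * κ * ((2 : ℝ) ^ k * L))) := by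
              apply mul_le_mul_of_nonneg_left _ (by positivity)
              exact mul_le_mul_of_nonneg_left (hGk k hk.le).2 (by positivity)
          _ = ((1 / 4 : ℝ) ^ k * 2 ^ k * 2 ^ k) * (3 / 4 * (C * κ * L ^ 2)) := by ring
          _ = 3 / 4 * (C * κ * L ^ 2) := by rw [hquart]; ring
          _ ≤ C * κ * L ^ 2 := by
              have : 0 ≤ C * κ * L ^ 2 := by positivity
              linarith only [this]
      rw [Finset.sum_const, Finset.card_range, nsmul_eq_mul] at h1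
      have h2 : (1 / 4 : ℝ) ^ m * (((2 : ℝ) ^ m * L) * S.G0 (y ^ 2 ^ m)) ≤ C * κ * L ^ 2 := by
        calc (1 / 4 : ℝ) ^ m * (((2 : ℝ) ^ m * L) * S.G0 (y ^ 2 ^ m))
            ≤ (1 / 4 : ℝ) ^ m * (((2 : ℝ) ^ m * L) * (C * κ * ((2 : ℝ) ^ m * L))) := by
              apply mul_le_mul_of_nonneg_left _ (by positivity)
              exact mul_le_mul_of_nonneg_left (hGk m le_rfl).2 (by positivity)
          _ = ((1 / 4 : ℝ) ^ m * 2 ^ m * 2 ^ m) * (C * κ * L ^ 2) := by ring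
          _ = C * κ * L ^ 2 := by rw [hquart]; ring
      calc S.B1 ≤ _ := hB1
        _ ≤ (m : ℝ) * (C * κ * L ^ 2) + C * κ * L ^ 2 := add_le_add h1 h2
        _ = _ := by ring
    have hlogR : Real.log ((y ^ M : ℕ) : ℝ) = M * L := by
      push_cast
      rw [Real.log_pow]
    have hMr : (M : ℝ) = 64 * C * K * (m + 1) := by
      rw [hM]; push_cast; ring
    change 16 * (K : ℝ) * S.B1 ≤ S.A2 * Real.log ((y ^ M : ℕ) : ℝ)
    rw [hlogR, hMr]
    calc 16 * (K : ℝ) * S.B1 ≤ 16 * (K : ℝ) * (((m : ℝ) + 1) * (C * κ * L ^ 2)) :=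
          mul_le_mul_of_nonneg_left hB2 (by positivity)
      _ = (κ * L / 4) * (64 * C * K * (m + 1) * L) := by ring
      _ ≤ S.A2 * (64 * C * K * (m + 1) * L) :=
          mul_le_mul_of_nonneg_right hA2low (by positivity)

end Pool.Agent.MT
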