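import Mathlib
import Pool.Agent.Lib.MP_0da313_nt.MT.Mertens

set_option autoImplicit false

/-!
One-dimensional sums over squarefree integers composed of primes from a set, uniform bounds.
-/

open Finset

namespace Pool.Agent.MT

open Pool.Agent.MP89da58

/-- the sum of `1/a` over the squarefree `a ≤ T` composed of primes in `P` -/
noncomputable def g0 (P : Finset ℕ) (T : ℕ) : ℝ :=
  ∑ A ∈ P.powerset.filter (fun A => ∏ p ∈ A, p ≤ T), ∏ p ∈ A, (1 / (p : ℝ))

lemma sum_subtype_powerset (P : Finset ℕ) (F : Finset ℕ → ℝ) :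
    ∑ a : Finset {p : ℕ // p ∈ P}, F (a.map (Function.Embedding.subtype _)) =
      ∑ A ∈ P.powerset, F A := by
  classical
  apply Finset.sum_nbij' (fun a => a.map (Function.Embedding.subtype _))
    (fun A => A.subtype (· ∈ P))
  · intro a _
    rw [Finset.mem_powerset]
    exact Finset.map_subtype_subset a
  · intro A _
    exact Finset.mem_univ _
  · intro a _
    ext j
    simp
  · intro A hA
    rw [Finset.mem_powerset] at hA
    rw [Finset.subtype_map]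
    exact Finset.filter_true_of_mem hA
  · intro a _
    rfl

/-- lower bound: integers up to `T` are products `A B t²` -/
lemma harmonic_le (P s : Finset ℕ) (T : ℕ)
    (hs : ∀ p : ℕ, p.Prime → p ≤ T → p ∈ P ∨ p ∈ s) :
    ∑ n ∈ Icc 1 T, (n : ℝ)⁻¹ ≤ 2 * (∏ p ∈ s, (1 + 1 / (p : ℝ))) * g0 P T := by
  classical
  have hdec : ∀ n : ℕ, ∃ x : (Finset ℕ × Finset ℕ) × ℕ, (1 ≤ n ∧ n ≤ T →
      x.1.1 ⊆ P ∧ x.1.2 ⊆ s ∧ x.2 ≠ 0 ∧
      (∏ p ∈ x.1.1, p) * (∏ p ∈ x.1.2, p) * x.2 ^ 2 = n) := by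
    intro n
    by_cases hn : 1 ≤ n ∧ n ≤ T
    · obtain ⟨a, b, hab, hsq⟩ := Nat.sq_mul_squarefree n
      have ha0 : a ≠ 0 := hsq.ne_zero
      have hb0 : b ≠ 0 := by
        rintro rfl
        have : n = 0 := by rw [← hab]; ring
        omega
      have hadvd : a ∣ n := ⟨b ^ 2, by rw [← hab]; ring⟩
      refine ⟨((a.primeFactors.filter (· ∈ P), a.primeFactors.filter (¬ · ∈ P)), b),
        fun _ => ⟨?_, ?_, hb0, ?_⟩⟩
      · intro p hp
        exact (Finset.mem_filter.1 hp).2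
      · intro p hp
        rw [Finset.mem_filter, Nat.mem_primeFactors] at hp
        have h1 := Nat.le_of_dvd (by omega) (hp.1.2.1.trans hadvd)
        exact (hs p hp.1.1 (by omega)).resolve_left hp.2
      · simp only
        rw [Finset.prod_filter_mul_prod_filter_not, Nat.prod_primeFactors_of_squarefree hsq, ← hab]
        ring
    · exact ⟨((∅, ∅), 0), fun h => absurd h hn⟩
  choose φ hφ using hdec
  have hmem : ∀ n ∈ Icc 1 T, (φ n).1.1 ⊆ P ∧ (φ n).1.2 ⊆ s ∧ (φ n).2 ≠ 0 ∧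
      (∏ p ∈ (φ n).1.1, p) * (∏ p ∈ (φ n).1.2, p) * (φ n).2 ^ 2 = n := fun n hn =>
    hφ n (Finset.mem_Icc.1 hn)
  set F : (Finset ℕ × Finset ℕ) × ℕ → ℝ := fun x =>
    (∏ p ∈ x.1.1, (1 / (p : ℝ))) * (∏ p ∈ x.1.2, (1 / (p : ℝ))) * (((x.2 : ℝ)) ^ 2)⁻¹ with hF
  have hF0 : ∀ x, 0 ≤ F x := fun x => by
    simp only [hF]
    have h1 : 0 ≤ ∏ p ∈ x.1.1, (1 / (p : ℝ)) := Finset.prod_nonneg fun p _ => by positivity
    have h2 : 0 ≤ ∏ p ∈ x.1.2, (1 / (p : ℝ)) := Finset.prod_nonneg fun p _ => by positivity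
    (clear * -; positivity)
  have e1 : ∑ n ∈ Icc 1 T, (n : ℝ)⁻¹ = ∑ x ∈ (Icc 1 T).image φ, F x := by
    rw [Finset.sum_image]
    · apply Finset.sum_congr rfl
      intro n hn
      obtain ⟨_, _, _, h4⟩ := hmem n hn
      conv_lhs => rw [← h4]
      simp only [hF]
      rw [Finset.prod_div_distrib, Finset.prod_div_distrib, Finset.prod_const_one,
        Finset.prod_const_one]
      push_cast
      rw [mul_inv, mul_inv, one_div, one_div]
    · intro n hn n' hn' h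
      rw [← (hmem n hn).2.2.2, ← (hmem n' hn').2.2.2, h]
  rw [e1]
  set B : Finset ((Finset ℕ × Finset ℕ) × ℕ) :=
    ((P.powerset.filter (fun A => ∏ p ∈ A, p ≤ T)) ×ˢ s.powerset) ×ˢ (Finset.Ioo 0 (T + 1)) with hB
  have e2 : (Icc 1 T).image φ ⊆ B := by
    intro x hx
    rw [Finset.mem_image] at hx
    obtain ⟨n, hn, rfl⟩ := hx
    obtain ⟨h1, h2, h3, h4⟩ := hmem n hn
    rw [Finset.mem_Icc] at hn
    rw [hB, Finset.mem_product, Finset.mem_product, Finset.mem_filter, Finset.mem_powerset,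
      Finset.mem_powerset, Finset.mem_Ioo]
    have hA1 : ∏ p ∈ (φ n).1.1, p ≠ 0 := by
      intro h0
      rw [h0, zero_mul, zero_mul] at h4
      omega
    have hA2 : ∏ p ∈ (φ n).1.2, p ≠ 0 := by
      intro h0
      rw [h0, mul_zero, zero_mul] at h4
      omega
    have hA3 : 1 ≤ (φ n).2 ^ 2 := Nat.one_le_iff_ne_zero.2 (pow_ne_zero 2 h3)
    have hA1' := Nat.pos_of_ne_zero hA1
    have hA2' := Nat.pos_of_ne_zero hA2
    refine ⟨⟨⟨h1, ?_⟩, h2⟩, Nat.pos_of_ne_zero h3, ?_⟩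
    · calc ∏ p ∈ (φ n).1.1, p ≤ (∏ p ∈ (φ n).1.1, p) * ((∏ p ∈ (φ n).1.2, p) * (φ n).2 ^ 2) :=
            Nat.le_mul_of_pos_right _ (by positivity)
        _ = n := by rw [← mul_assoc]; exact h4
        _ ≤ T := hn.2
    · have h5 : (φ n).2 ≤ n := by
        calc (φ n).2 ≤ (φ n).2 ^ 2 := by nlinarith only [hA3]
          _ ≤ ((∏ p ∈ (φ n).1.1, p) * (∏ p ∈ (φ n).1.2, p)) * (φ n).2 ^ 2 :=
            Nat.le_mul_of_pos_left _ (by positivity)
          _ = n := h4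
      omega
  refine (Finset.sum_le_sum_of_subset_of_nonneg e2 fun x _ _ => hF0 x).trans ?_
  rw [hB, Finset.sum_product, Finset.sum_product]
  simp only [hF]
  have e4 := sum_Ioo_inv_sq_le (α := ℝ) 0 (T + 1)
  norm_num at e4
  have e5 : ∏ p ∈ s, (1 + 1 / (p : ℝ)) = ∑ S ∈ s.powerset, ∏ p ∈ S, (1 / (p : ℝ)) := by
    rw [Finset.prod_one_add]
  rw [e5]
  unfold g0
  have e6 : ∀ A B : Finset ℕ, ∑ t ∈ Finset.Ioo 0 (T + 1),
      (∏ p ∈ A, (1 / (p : ℝ))) * (∏ p ∈ B, (1 / (p : ℝ))) * (((t : ℝ)) ^ 2)⁻¹ ≤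
      2 * ((∏ p ∈ B, (1 / (p : ℝ))) * (∏ p ∈ A, (1 / (p : ℝ)))) := by
    intro A B
    rw [← Finset.mul_sum]
    have h1 : 0 ≤ ∏ p ∈ A, (1 / (p : ℝ)) := Finset.prod_nonneg fun p _ => by (clear * -; positivity)
    have h2 : 0 ≤ ∏ p ∈ B, (1 / (p : ℝ)) := Finset.prod_nonneg fun p _ => by (clear * -; positivity)
    have h3 := mul_le_mul_of_nonneg_left e4 (mul_nonneg h1 h2)
    refine h3.trans (le_of_eq ?_)
    ring
  refine (Finset.sum_le_sum fun A _ => Finset.sum_le_sum fun B _ => e6 A B).trans ?_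
  rw [mul_assoc, Finset.sum_mul_sum, Finset.sum_comm, Finset.mul_sum]
  apply le_of_eq
  apply Finset.sum_congr rfl
  intro B _
  rw [Finset.mul_sum]

/-- upper bound by the product -/
lemma g0_le_prod (P : Finset ℕ) (hP : ∀ p ∈ P, p.Prime) (T : ℕ) :
    g0 P T ≤ ∏ p ∈ P.filter (· ≤ T), (1 + 1 / (p : ℝ)) := by
  classical
  rw [Finset.prod_one_add]
  unfold g0
  apply Finset.sum_le_sum_of_subset_of_nonneg
  · intro A hA
    rw [Finset.mem_filter, Finset.mem_powerset] at hA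
    rw [Finset.mem_powerset]
    intro p hp
    rw [Finset.mem_filter]
    refine ⟨hA.1 hp, le_trans ?_ hA.2⟩
    apply Nat.le_of_dvd
    · exact Finset.prod_pos fun q hq => (hP q (hA.1 hq)).pos
    · exact Finset.dvd_prod_of_mem (fun p => p) hp
  · intro A _ _
    exact Finset.prod_nonneg fun p _ => by positivity

lemma kapD_split (z T : ℕ) (hzT : z ≤ T) :
    kapD T = kapD z * ∏ p ∈ (Ioc z T).filter Nat.Prime, (1 - 1 / (p : ℝ)) := by
  unfold kapD
  rw [← Finset.prod_union]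
  · congr 1
    ext p
    simp only [Finset.mem_filter, Finset.mem_Icc, Finset.mem_union, Finset.mem_Ioc]
    constructor
    · rintro ⟨⟨h1, h2⟩, h3⟩
      by_cases h : p ≤ z
      · exact Or.inl ⟨⟨h1, h⟩, h3⟩
      · exact Or.inr ⟨⟨by omega, h2⟩, h3⟩
    · rintro (⟨⟨h1, h2⟩, h3⟩ | ⟨⟨h1, h2⟩, h3⟩)
      · exact ⟨⟨h1, by omega⟩, h3⟩
      · exact ⟨⟨by omega, h2⟩, h3⟩
  · rw [Finset.disjoint_left]
    intro p hp hp'
    rw [Finset.mem_filter, Finset.mem_Icc] at hp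
    rw [Finset.mem_filter, Finset.mem_Ioc] at hp'
    omega

/-- the upper bound for `g0` -/
lemma g0_upper (P : Finset ℕ) (z : ℕ) (hP : ∀ p ∈ P, p.Prime ∧ z < p) (T : ℕ) (hT : 2 ≤ T)
    (hzT : z ≤ T) : g0 P T ≤ 1000 * kapD z * Real.log T := by
  have h1 := g0_le_prod P (fun p hp => (hP p hp).1) T
  have h2 : ∏ p ∈ P.filter (· ≤ T), (1 + 1 / (p : ℝ)) ≤
      ∏ p ∈ (Ioc z T).filter Nat.Prime, (1 + 1 / (p : ℝ)) := by
    apply Finset.prod_le_prod_of_subset_of_one_le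
    · intro p hp
      rw [Finset.mem_filter] at hp
      rw [Finset.mem_filter, Finset.mem_Ioc]
      exact ⟨⟨(hP p hp.1).2, hp.2⟩, (hP p hp.1).1⟩
    · intro p _; positivity
    · intro p _ _
      have : 0 ≤ 1 / (p : ℝ) := by positivity
      linarith only [this]
  have h3 : (∏ p ∈ (Ioc z T).filter Nat.Prime, (1 + 1 / (p : ℝ))) *
      ∏ p ∈ (Ioc z T).filter Nat.Prime, (1 - 1 / (p : ℝ)) ≤ 1 := by
    rw [← Finset.prod_mul_distrib]
    apply Finset.prod_le_one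
    · intro p hp
      have hp1 : (1 : ℝ) ≤ p := by exact_mod_cast (Finset.mem_filter.1 hp).2.one_le
      have h0 : 1 / (p : ℝ) ≤ 1 := by rw [div_le_one (by linarith only [hp1])]; linarith
      have h0' : 0 ≤ 1 / (p : ℝ) := by positivity
      nlinarith only [h0, h0']
    · intro p _
      nlinarith only [sq_nonneg (1 / (p : ℝ))]
  have h4 := mertens T hT
  rw [kapD_split z T hzT] at h4
  set A := ∏ p ∈ (Ioc z T).filter Nat.Prime, (1 + 1 / (p : ℝ)) with hA
  set B := ∏ p ∈ (Ioc z T).filter Nat.Prime, (1 - 1 / (p : ℝ)) with hB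
  have hA0 : 0 ≤ A := Finset.prod_nonneg fun p _ => by positivity
  have hκ := kapD_pos z
  have hL : 0 ≤ Real.log T := Real.log_natCast_nonneg T
  calc g0 P T ≤ A := h1.trans h2
    _ = A * 1 := (mul_one _).symm
    _ ≤ A * (1000 * (kapD z * B) * Real.log T) := mul_le_mul_of_nonneg_left h4 hA0
    _ = (1000 * kapD z * Real.log T) * (A * B) := by ring
    _ ≤ (1000 * kapD z * Real.log T) * 1 := mul_le_mul_of_nonneg_left h3 (by (clear * - hκ; positivity))
    _ = _ := mul_one _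

/-- the lower bound for `g0` -/
lemma g0_lower (P : Finset ℕ) (z : ℕ) (T : ℕ) (hT : 1 ≤ T) (Ex : Finset ℕ)
    (hs : ∀ p : ℕ, p.Prime → z < p → p ≤ T → p ∈ P ∨ p ∈ Ex)
    (hEx : ∑ p ∈ Ex, 1 / (p : ℝ) ≤ 1 / 2) :
    kapD z * Real.log T / 4 ≤ g0 P T := by
  classical
  have h1 := harmonic_le P ((Icc 1 z).filter Nat.Prime ∪ Ex) T (by
    intro p hp hpT
    by_cases h : p ≤ z
    · right
      rw [Finset.mem_union, Finset.mem_filter, Finset.mem_Icc]
      exact Or.inl ⟨⟨hp.one_le, h⟩, hp⟩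
    · rcases hs p hp (by omega) hpT with h2 | h2
      · exact Or.inl h2
      · exact Or.inr (Finset.mem_union_right _ h2))
  have h2 := (log_le_sum_inv T hT).trans h1
  have hg0 : 0 ≤ g0 P T := by
    unfold g0
    exact Finset.sum_nonneg fun A _ => Finset.prod_nonneg fun p _ => by positivity
  have h3 : ∏ p ∈ (Icc 1 z).filter Nat.Prime ∪ Ex, (1 + 1 / (p : ℝ)) ≤
      (∏ p ∈ (Icc 1 z).filter Nat.Prime, (1 + 1 / (p : ℝ))) * ∏ p ∈ Ex, (1 + 1 / (p : ℝ)) := by
    rw [← Finset.prod_union_inter]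
    have h4 : 1 ≤ ∏ p ∈ (Icc 1 z).filter Nat.Prime ∩ Ex, (1 + 1 / (p : ℝ)) := by
      apply Finset.one_le_prod
      intro p _
      have : 0 ≤ 1 / (p : ℝ) := by positivity
      linarith only [this]
    have h5 : 0 ≤ ∏ p ∈ (Icc 1 z).filter Nat.Prime ∪ Ex, (1 + 1 / (p : ℝ)) :=
      Finset.prod_nonneg fun p _ => by (clear * -; positivity)
    nlinarith only [h4, h5]
  have h4 : ∏ p ∈ Ex, (1 + 1 / (p : ℝ)) ≤ 2 := by
    have h5 : ∏ p ∈ Ex, (1 + 1 / (p : ℝ)) ≤ Real.exp (∑ p ∈ Ex, 1 / (p : ℝ)) := by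
      rw [Real.exp_sum]
      apply Finset.prod_le_prod
      · intro p _; positivity
      · intro p _
        have := Real.add_one_le_exp (1 / (p : ℝ))
        linarith only [this]
    refine h5.trans ((Real.exp_le_exp.2 hEx).trans ?_)
    have h6 : Real.exp (1 / 2) ^ 2 = Real.exp 1 := by
      rw [← Real.exp_nat_mul]; norm_num
    have h7 := Real.exp_one_lt_d9
    have h8 := Real.exp_pos (1 / 2)
    nlinarith only [h6, h7, h8]
  have h5 : kapD z * ∏ p ∈ (Icc 1 z).filter Nat.Prime, (1 + 1 / (p : ℝ)) ≤ 1 := by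
    unfold kapD
    rw [← Finset.prod_mul_distrib]
    apply Finset.prod_le_one
    · intro p hp
      have hp1 : (1 : ℝ) ≤ p := by exact_mod_cast (Finset.mem_filter.1 hp).2.one_le
      have h0 : 1 / (p : ℝ) ≤ 1 := by rw [div_le_one (by linarith only [hp1])]; linarith
      have h0' : 0 ≤ 1 / (p : ℝ) := by positivity
      nlinarith only [h0, h0']
    · intro p _
      nlinarith only [sq_nonneg (1 / (p : ℝ))]
  have hκ := kapD_pos z
  set A := ∏ p ∈ (Icc 1 z).filter Nat.Prime, (1 + 1 / (p : ℝ)) with hA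
  have hA0 : 0 ≤ A := Finset.prod_nonneg fun p _ => by positivity
  set B := ∏ p ∈ Ex, (1 + 1 / (p : ℝ)) with hB
  have hB0 : 0 ≤ B := Finset.prod_nonneg fun p _ => by (clear * -; positivity)
  have h6 : Real.log T ≤ 2 * (A * B) * g0 P T := by
    refine h2.trans ?_
    apply mul_le_mul_of_nonneg_right _ hg0
    linarith only [h3]
  have h7 : kapD z * Real.log T ≤ 4 * g0 P T := by
    calc kapD z * Real.log T ≤ kapD z * (2 * (A * B) * g0 P T) :=
          mul_le_mul_of_nonneg_left h6 hκ.le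
      _ = (kapD z * A) * (2 * B * g0 P T) := by ring
      _ ≤ 1 * (2 * B * g0 P T) := mul_le_mul_of_nonneg_right h5 (by (clear * - hg0; positivity))
      _ ≤ 4 * g0 P T := by nlinarith only [hg0, h4]
  linarith only [h7]

end Pool.Agent.MT
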