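import Pool.Agent.Lib.MP_0da313_nt.BV.Rough

set_option autoImplicit false

/-!
Choice of the levels, and the lower bound for primes without weights in sharp form.
-/

open Finset Polynomial Filter

namespace Pool.Agent.MT

open Pool.Agent.MP89da58 Pool.Agent.BVall Pool.Agent.Lib.MP_0da313_nt

/-- choice of the sifting level -/
lemma choose_levS (K s : ℕ) (hK : 1 ≤ K) (hs : 1 ≤ s) (c0 : ℕ) : ∀ᶠ x : ℝ in atTop, ∃ n : ℕ,
    (lev K n : ℝ) ^ s ≤ x ^ (1 / 1000 : ℝ) ∧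
      x ≤ ((2 : ℝ) ^ (2 ^ (K + n))) ^ (128000 * K * s) ∧
      (2 : ℝ) ^ (K + n) ≤ Real.log x ∧ c0 ≤ 2 ^ (2 ^ (K + n)) := by
  obtain ⟨X₀, hX₀⟩ := choose_level K hK
  set C0 : ℕ := ∏ p ∈ small K, p with hC0
  have hsr : (1 : ℝ) ≤ s := by exact_mod_cast hs
  have hs0 : (0 : ℝ) < 1 / (1000 * s) := by positivity
  have h1 : ∀ᶠ x : ℝ in atTop, ((X₀ + 1 + (C0 + c0) ^ (128 * K) : ℕ) : ℝ) ≤
      x ^ (1 / (1000 * s) : ℝ) :=
    (tendsto_rpow_atTop hs0).eventually_ge_atTop _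
  filter_upwards [h1, eventually_ge_atTop 1] with X hX hX1
  have hX0 : 0 < X := by linarith
  set X' : ℕ := ⌊X ^ (1 / (1000 * s) : ℝ)⌋₊ with hX'
  have hle : X₀ + 1 + (C0 + c0) ^ (128 * K) ≤ X' := Nat.le_floor hX
  obtain ⟨n, ha, hb, hc⟩ := hX₀ X' (by omega)
  have hX'1 : (X' : ℝ) ≤ X ^ (1 / (1000 * s) : ℝ) := Nat.floor_le (by positivity)
  have hX'2 : X ^ (1 / (1000 * s) : ℝ) ≤ X' + 1 := (Nat.lt_floor_add_one _).le
  have hC0z : C0 + c0 ≤ 2 ^ (2 ^ (K + n)) := by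
    have h2 : (C0 + c0) ^ (128 * K) ≤ (2 ^ (2 ^ (K + n))) ^ (128 * K) := by omega
    exact (Nat.pow_le_pow_iff_left (by omega)).mp h2
  refine ⟨n, ?_, ?_, ?_, by omega⟩
  · have h2 : lev K n ≤ X' := by
      refine le_trans ?_ hb
      unfold lev
      rw [← hC0]
      calc C0 * 2 ^ (2 ^ (K + n) * (16 * K + 6)) ≤
            2 ^ (2 ^ (K + n)) * 2 ^ (2 ^ (K + n) * (16 * K + 6)) :=
              Nat.mul_le_mul_right _ (by omega)
        _ = 2 ^ (2 ^ (K + n) * (16 * K + 7)) := by rw [← pow_add]; congr 1; ring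
        _ ≤ 2 ^ (2 ^ (K + n) * (24 * K + 8) * 2) := by
            apply Nat.pow_le_pow_right (by norm_num)
            rw [mul_assoc]
            apply Nat.mul_le_mul_left
            omega
        _ = _ := by rw [pow_mul 2 _ 2]
    have h3 : (lev K n : ℝ) ≤ X ^ (1 / (1000 * s) : ℝ) :=
      le_trans (by exact_mod_cast h2) hX'1
    calc (lev K n : ℝ) ^ s ≤ (X ^ (1 / (1000 * s) : ℝ)) ^ s :=
          pow_le_pow_left₀ (Nat.cast_nonneg _) h3 s
      _ = X ^ (1 / 1000 : ℝ) := by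
          rw [← Real.rpow_natCast, ← Real.rpow_mul hX0.le]
          congr 1
          field_simp
  · have h2 : X ^ (1 / (1000 * s) : ℝ) ≤ ((2 : ℝ) ^ (2 ^ (K + n))) ^ (128 * K) := by
      refine hX'2.trans ?_
      exact_mod_cast hc
    calc X = (X ^ (1 / (1000 * s) : ℝ)) ^ (1000 * s) := by
          rw [← Real.rpow_natCast, ← Real.rpow_mul hX0.le]
          push_cast
          rw [one_div, inv_mul_cancel₀ (by positivity), Real.rpow_one]
      _ ≤ (((2 : ℝ) ^ (2 ^ (K + n))) ^ (128 * K)) ^ (1000 * s) :=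
          pow_le_pow_left₀ (by positivity) h2 _
      _ = _ := by rw [← pow_mul]; congr 1; ring
  · have hX'ne : X' ≠ 0 := by omega
    have h2 : 2 ^ (Nat.log 2 X') ≤ X' := Nat.pow_log_le_self 2 hX'ne
    have h3 : ((2 : ℝ) ^ (Nat.log 2 X')) ≤ X ^ (1 / (1000 * s) : ℝ) := by
      refine le_trans ?_ hX'1
      exact_mod_cast h2
    have h4 := Real.log_le_log (by positivity) h3
    rw [Real.log_pow, Real.log_rpow hX0] at h4
    have h5 : (2 : ℝ) ^ (K + n) ≤ (Nat.log 2 X' : ℕ) := by exact_mod_cast ha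
    have h6 := Real.log_two_gt_d9
    have h7 : 0 ≤ Real.log X := Real.log_nonneg hX1
    have h8 : (0 : ℝ) ≤ (Nat.log 2 X' : ℕ) := Nat.cast_nonneg _
    have h9 : 1 / (1000 * (s : ℝ)) ≤ 1 / 2 := by
      apply one_div_le_one_div_of_le (by norm_num)
      nlinarith
    have h10 : 1 / (1000 * (s : ℝ)) * Real.log X ≤ 1 / 2 * Real.log X :=
      mul_le_mul_of_nonneg_right h9 h7
    nlinarith

/-- lower bound for the sifted density in terms of the logarithm -/
lemma W_ge {K : ℕ} {ρ : ℕ → ℝ} (h : Dens K ρ) (n : ℕ) {l : ℝ} (hl : (2 : ℝ) ^ (K + n) ≤ l) :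
    (∏ p ∈ small K, (1 / (p : ℝ))) * (1 / l ^ (4 * K)) ≤ W ρ (PK K n) := by
  refine le_trans ?_ (h.W_PK n)
  apply mul_le_mul_of_nonneg_left _ (Finset.prod_nonneg fun p _ => by positivity)
  have h1 : (2 : ℝ) ^ n ≤ l := by
    refine le_trans ?_ hl
    exact pow_le_pow_right₀ (by norm_num) (by omega)
  have hl0 : 0 < l := lt_of_lt_of_le (by positivity) hl
  rw [one_div_pow, mul_comm (4 * K) n, pow_mul (2 : ℝ) n (4 * K)]
  apply one_div_le_one_div_of_le (by positivity)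
  exact pow_le_pow_left₀ (by positivity) h1 _

/-- the main lower bound, in sharp form -/
theorem rough_sumW (u : ℤ) (hu : u ≠ 0) (K0 : ℕ) (hK0 : 1 ≤ K0) {lam : ℝ} (hlam : 1 ≤ lam) :
    ∀ᶠ X : ℝ in atTop, ∀ n : ℕ, (lev (2 * K0) n : ℝ) ≤ X ^ (1 / 60 : ℝ) →
      (2 : ℝ) ^ (2 * K0 + n) ≤ 2 * Real.log X →
      ∀ v : ℤ, IsCoprime u v → ∀ (Q : ℕ → ℤ → Prop) [∀ p, DecidablePred (Q p)],
        Cls u v K0 Q →
        1 / 4 * (X / (24 * lam) / (Nat.totient u.natAbs : ℝ)) *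
          W (rhoW u.natAbs Q) (PK (2 * K0) n) ≤
          ∑ N ∈ ((Icc 1 ⌊3 * X⌋₊).filter (fun N : ℕ => u ∣ (N : ℤ) - v)).filter
            (fun N : ℕ => ∀ p ∈ PK (2 * K0) n, ¬ Q p (((N : ℤ) - v) / u)),
            ArithmeticFunction.vonMangoldt N * OmL lam X N := by
  classical
  set K : ℕ := 2 * K0 with hK
  have hK1 : 1 ≤ K := by omega
  have hW : 0 < u.natAbs := Int.natAbs_pos.2 hu
  have hφ : (0 : ℝ) < Nat.totient u.natAbs := by exact_mod_cast Nat.totient_pos.2 hW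
  set c1 : ℝ := ∏ p ∈ small K, (1 / (p : ℝ)) with hc1
  have hc1pos : 0 < c1 := by
    apply Finset.prod_pos
    intro p hp
    have hpp : p.Prime := (Finset.mem_filter.mp hp).2
    have : (0 : ℝ) < p := by exact_mod_cast hpp.pos
    positivity
  have hlam0 : 0 < lam := by linarith
  set c2 : ℝ := 1 / 4 * (1 / (24 * lam) / (Nat.totient u.natAbs : ℝ)) * c1 / 2 ^ (4 * K) with hc2
  have hc2pos : 0 < c2 := by positivity
  obtain ⟨X1, hX1⟩ := bv_weightedL hlam K0 u.natAbs hW (4 * K + 1)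
  filter_upwards [psiXL_lower hlam, eventually_ge_atTop X1,
    eventually_ge_atTop 1, Real.tendsto_log_atTop.eventually_ge_atTop (1 / c2),
    Real.tendsto_log_atTop.eventually_ge_atTop 1] with X hpsi hXX1 hX1' hlogc hlog1
  intro n hl1 hl3 v huv Q _ hQ
  have hX0 : 0 < X := by linarith
  have hlog0 : 0 < Real.log X := by linarith
  obtain ⟨a, ha1, ha2⟩ := exists_worst lam X u.natAbs hW
  have hbv := hX1 X hXX1 a ha1
  have hdens : Dens K (rhoW u.natAbs Q) := hQ.dens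
  have hpsi0 : 0 ≤ psiXL lam X := le_trans (by positivity) hpsi
  have hmain := sieve_lower hdens n
    ((Icc 1 ⌊3 * X⌋₊).filter (fun N : ℕ => u ∣ (N : ℤ) - v))
    (fun N => ArithmeticFunction.vonMangoldt N * OmL lam X N)
    (fun N _ => mul_nonneg ArithmeticFunction.vonMangoldt_nonneg (OmL_nonneg lam hX0.le N))
    (fun p N => Q p (((N : ℤ) - v) / u)) (X := psiXL lam X / (Nat.totient u.natAbs : ℝ))
    (by positivity)
    (fun T => (K0 : ℝ) ^ T.card * |psiAPL lam X (u.natAbs * ∏ p ∈ T, p) (a (∏ p ∈ T, p)) -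
        psiXL lam X / (Nat.totient (u.natAbs * ∏ p ∈ T, p) : ℝ)|)
    (fun T hT _ => class_estimate hu huv Q hQ.per hQ.nd T
      (fun p hp => (mem_PK.1 (hT hp)).1) (fun p hp => hQ.le p (mem_PK.1 (hT hp)).1) lam X a ha2)
  have hlevN : lev K n ≤ ⌊X ^ (1 / 60 : ℝ)⌋₊ := Nat.le_floor hl1
  have herr := sum_err_le (PK K n) (fun p hp => (mem_PK.1 hp).1) (lev K n) _ K0 hlevN
    (fun q => |psiAPL lam X (u.natAbs * q) (a q) -
        psiXL lam X / (Nat.totient (u.natAbs * q) : ℝ)|) (fun q => abs_nonneg _)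
  have herr2 := herr.trans hbv
  have hWP := W_ge hdens n hl3
  rw [← hc1] at hWP
  set WW := W (rhoW u.natAbs Q) (PK K n) with hWW
  have hW0 : 0 < WW := lt_of_lt_of_le (by positivity) hWP
  have herr3 : X / (Real.log X) ^ (4 * K + 1) ≤
      1 / 4 * (X / (24 * lam) / (Nat.totient u.natAbs : ℝ)) * WW := by
    calc X / (Real.log X) ^ (4 * K + 1) ≤ c2 * X / (Real.log X) ^ (4 * K) := by
          rw [pow_succ, div_le_div_iff₀ (by positivity) (by positivity)]
          have h1 : 1 ≤ c2 * Real.log X := by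
            rw [div_le_iff₀ hc2pos] at hlogc
            linarith
          have h2 : 0 < X * (Real.log X) ^ (4 * K) := by positivity
          nlinarith
      _ = 1 / 4 * (X / (24 * lam) / (Nat.totient u.natAbs : ℝ)) *
            (c1 * (1 / (2 * Real.log X) ^ (4 * K))) := by
          rw [hc2, mul_pow]
          field_simp
      _ ≤ _ := by
          apply mul_le_mul_of_nonneg_left hWP (by positivity)
  have hmain1 : 1 / 2 * (X / (24 * lam) / (Nat.totient u.natAbs : ℝ)) * WW ≤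
      1 / 2 * (psiXL lam X / (Nat.totient u.natAbs : ℝ)) * WW := by
    gcongr
  have hfin : 1 / 4 * (X / (24 * lam) / (Nat.totient u.natAbs : ℝ)) * WW =
      1 / 2 * (X / (24 * lam) / (Nat.totient u.natAbs : ℝ)) * WW -
      1 / 4 * (X / (24 * lam) / (Nat.totient u.natAbs : ℝ)) * WW := by
    ring
  rw [hfin]
  refine le_trans ?_ hmain
  linarith

end Pool.Agent.MT
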