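import Pool.Agent.Lib.MP_0da313_nt.MT.Card
import Pool.Agent.Lib.MP_0da313_nt.MT.LinM
import Pool.Agent.Lib.MP_0da313_nt.MT.Level
import Pool.Agent.Lib.MP_0da313_nt.BV.T1c

set_option autoImplicit false

/-!
One linear member prime and all the others almost prime, with the expected order of magnitude.
-/

open Finset Polynomial Filter

namespace Pool.Agent.MT

open Pool.Agent.MP89da58 Pool.Agent.BVall Pool.Agent.Lib.MP_0da313_nt

open Classical in
/-- the densities of a polynomial -/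
lemma dens_poly (G : ℤ[X]) (D K : ℕ) (hGdeg : G.natDegree ≤ D) (hDK : D ≤ K)
    (hloc : ∀ p : ℕ, p.Prime → ¬ ∀ x : ℤ, (p : ℤ) ∣ G.eval x) :
    Dens K (fun p => (om (fun p y => (p : ℤ) ∣ G.eval y) p : ℝ) / p) := by
  refine ⟨fun p => by positivity, fun p hp => ?_, fun p hp => ?_⟩
  · have hp0 : (0 : ℝ) < p := by exact_mod_cast hp.pos
    have h1 : om (fun p y => (p : ℤ) ∣ G.eval y) p + 1 ≤ p := by
      unfold om
      exact card_roots_mod_lt G p hp (hloc p hp)
    have h2 : (om (fun p y => (p : ℤ) ∣ G.eval y) p : ℝ) + 1 ≤ p := by exact_mod_cast h1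
    rw [div_le_iff₀ hp0, sub_mul, div_mul_cancel₀ _ hp0.ne']
    linarith
  · have hp0 : (0 : ℝ) < p := by exact_mod_cast hp.pos
    apply div_le_div_of_nonneg_right _ hp0.le
    have h1 : om (fun p y => (p : ℤ) ∣ G.eval y) p ≤ K := by
      unfold om
      exact (card_roots_mod_le G p D hp hGdeg (hloc p hp)).trans hDK
    exact_mod_cast h1

/-- elementary facts about the level -/
lemma level_facts {x θ : ℝ} (hθ : 1 / 4 ≤ θ) (hx : 100000 ≤ x) {k : ℕ}
    (hk : (2 : ℝ) ^ k ≤ Real.log x) :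
    x ^ (1 / 1000 : ℝ) ≤ (θ * x) ^ (1 / 60 : ℝ) ∧ Real.log x ≤ 2 * Real.log (θ * x) ∧
      3 * ((2 ^ (2 ^ k) : ℕ) : ℝ) < θ * x ∧ 1 ≤ Real.log (θ * x) ∧
      ((2 ^ (2 ^ k) : ℕ) : ℝ) ≤ x ^ (3 / 4 : ℝ) := by
  have hz : ((2 ^ (2 ^ k) : ℕ) : ℝ) ≤ x ^ (3 / 4 : ℝ) := by
    push_cast
    rw [← Real.rpow_natCast 2 (2 ^ k)]
    push_cast
    have h2 : (2 : ℝ) ^ ((2 : ℝ) ^ k) ≤ (2 : ℝ) ^ (Real.log x) :=
      Real.rpow_le_rpow_of_exponent_le (by norm_num) hk
    refine h2.trans ?_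
    rw [Real.rpow_def_of_pos (by norm_num), Real.rpow_def_of_pos (by linarith only [hx])]
    apply Real.exp_le_exp.2
    have h3 := Real.log_two_lt_d9
    have h4 : 0 ≤ Real.log x := le_trans (by positivity) hk
    nlinarith only [h4, h3]
  have hx0 : 0 < x := by linarith
  have h4 : x / 4 ≤ θ * x := by nlinarith only [hθ, hx]
  have h16 : x ^ (1 / 2 : ℝ) ≤ θ * x := by
    refine le_trans ?_ h4
    rw [← Real.sqrt_eq_rpow, Real.sqrt_le_left (by positivity)]
    nlinarith only [hx]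
  refine ⟨?_, ?_, ?_, ?_, hz⟩
  · calc x ^ (1 / 1000 : ℝ) ≤ x ^ (1 / 120 : ℝ) :=
          Real.rpow_le_rpow_of_exponent_le (by linarith) (by norm_num)
      _ = (x ^ (1 / 2 : ℝ)) ^ (1 / 60 : ℝ) := by
          rw [← Real.rpow_mul hx0.le]; norm_num
      _ ≤ _ := Real.rpow_le_rpow (by positivity) h16 (by norm_num)
  · have h1 := Real.log_le_log (by positivity) h16
    rw [Real.log_rpow hx0] at h1
    linarith only [h1]
  · have h2 : (12 : ℝ) < x ^ (1 / 4 : ℝ) := by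
      have h5 : (12 : ℝ) = ((12 : ℝ) ^ 4) ^ (1 / 4 : ℝ) := by
        rw [← Real.rpow_natCast, ← Real.rpow_mul (by norm_num)]
        norm_num
      rw [h5]
      apply Real.rpow_lt_rpow (by norm_num) _ (by norm_num)
      norm_num
      linarith only [hx]
    have h3 : x ^ (3 / 4 : ℝ) * x ^ (1 / 4 : ℝ) = x := by
      rw [← Real.rpow_add hx0]; norm_num
    have h5 : 0 < x ^ (3 / 4 : ℝ) := by positivity
    nlinarith only [hz, h4, h3, h2, h5]
  · rw [Real.le_log_iff_exp_le (by linarith)]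
    have := Real.exp_one_lt_d9
    linarith

lemma asymp3 (D k : ℕ) {c θ : ℝ} (hc : 0 < c) (hθ : 0 < θ) :
    ∀ᶠ n : ℝ in atTop, 2 * Real.sqrt (3 * (θ * n)) + 2 * D ≤ n * (c * (1 / Real.log n ^ k)) := by
  filter_upwards [ev_log_pow ((2 * (1 + 3 * θ) + 2 * D) / c) (by positivity) k
      (show (0 : ℝ) < 1 / 2 by norm_num), eventually_ge_atTop 3] with n h1 hn3
  have hn0 : 0 < n := by linarith only [hn3]
  have hl1 : 1 ≤ Real.log n := by
    rw [Real.le_log_iff_exp_le hn0]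
    linarith [Real.exp_one_lt_d9]
  set l := Real.log n with hl
  set s := Real.sqrt n with hs
  have hs0 : 0 < s := Real.sqrt_pos.2 hn0
  have hss : s * s = n := Real.mul_self_sqrt hn0.le
  have hs1 : 1 ≤ s := by nlinarith only [hn3, hs0, hss]
  have hsq3 : Real.sqrt (3 * (θ * n)) ≤ (1 + 3 * θ) * s := by
    rw [← mul_assoc, Real.sqrt_mul (by positivity)]
    apply mul_le_mul_of_nonneg_right _ hs0.le
    apply Real.sqrt_le_iff.2
    constructor
    · positivity
    · nlinarith only [hθ]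
  rw [← Real.sqrt_eq_rpow, ← hs, div_mul_eq_mul_div, div_le_iff₀ hc] at h1
  have h2 : n * (c * (1 / l ^ k)) = s * (s * c) / l ^ k := by rw [← hss]; ring
  rw [h2, le_div_iff₀ (by positivity)]
  have h3 : 2 * Real.sqrt (3 * (θ * n)) + 2 * D ≤ (2 * (1 + 3 * θ) + 2 * D) * s := by
    have : (2 * D : ℝ) ≤ 2 * D * s := le_mul_of_one_le_right (by positivity) hs1
    nlinarith only [hsq3, this]
  calc (2 * Real.sqrt (3 * (θ * n)) + 2 * D) * l ^ k ≤
        ((2 * (1 + 3 * θ) + 2 * D) * s) * l ^ k := mul_le_mul_of_nonneg_right h3 (by positivity)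
    _ = s * ((2 * (1 + 3 * θ) + 2 * D) * l ^ k) := by ring
    _ ≤ s * (s * c) := mul_le_mul_of_nonneg_left h1 hs0.le

theorem prime_value_sharp (m d : ℕ) (hm : 1 ≤ m) (hd : 1 ≤ d)
    (f : Fin m → MvPolynomial (Fin 2) ℤ)
    (hdeg : ∀ k, (f k).totalDegree ≤ d) (hf : Admissible f) (k₀ : Fin m)
    (hlin : (f k₀).totalDegree ≤ 1) :
    ∃ N : ℕ, ∀ n : ℕ, N ≤ n →
      (n : ℝ) * singV f n / (10 ^ 10 * (m * d)) ≤
        (Set.ncard {x : ℕ | 0 < x ∧ x < n ∧ (val (f k₀) x ((n : ℤ) - x)).natAbs.Prime ∧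
          ∀ k, 1 < |val (f k) x ((n : ℤ) - x)| ∧
          (∀ p : ℕ, p.Prime → (p : ℤ) ∣ val (f k) x ((n : ℤ) - x) → n < p ^ (16000 * (m * d))) ∧
          ArithmeticFunction.cardFactors (val (f k) x ((n : ℤ) - x)).natAbs
            ≤ 16000 * (m * d) * d} : ℝ) := by
  classical
  obtain ⟨L⟩ := exists_lin hf k₀ hlin
  obtain ⟨Nc, hNc⟩ := Lin.coprime hf L
  obtain ⟨N₀, hN₀⟩ := hf
  set D := m * d with hDdef
  have hD : 1 ≤ D := Nat.one_le_iff_ne_zero.mpr (by positivity)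
  have hDr : (1 : ℝ) ≤ D := by exact_mod_cast hD
  have hCf : ∀ k, ∃ C : ℕ, ∀ n : ℕ, 1 ≤ n → ∀ x y : ℤ, |x| ≤ n → |y| ≤ n →
      |val (f k) x y| ≤ C * (n : ℤ) ^ d := fun k => abs_val_le (f k) d (hdeg k)
  choose Cf hCf using hCf
  set c1 : ℝ := ∏ p ∈ small (2 * D), (1 / (p : ℝ)) with hc1
  have hc1pos : 0 < c1 := by
    apply Finset.prod_pos
    intro p hp
    have hpp : p.Prime := (Finset.mem_filter.mp hp).2
    have : (0 : ℝ) < p := by exact_mod_cast hpp.pos
    (clear * - this; positivity)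
  have hcast : Tendsto (fun n : ℕ => (n : ℝ)) atTop atTop := tendsto_natCast_atTop_atTop
  have hcastθ : Tendsto (fun n : ℕ => L.θ * (n : ℝ)) atTop atTop :=
    hcast.const_mul_atTop L.θ_pos
  have hcast4 : Tendsto (fun n : ℕ => (1 / 4 : ℝ) * (n : ℝ)) atTop atTop :=
    hcast.const_mul_atTop (by norm_num)
  have ev1 := hcast4.eventually (choose_lev (2 * D) (by omega))
  have ev2 := hcastθ.eventually (rough_sumW L.u L.u_ne D hD L.la_ge)
  have ev3 := hcast.eventually (eventually_gt_atTop (8 * |(L.c : ℝ)|))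
  have ev4 := hcast.eventually (asymp3 D (4 * (2 * D)) (show (0 : ℝ) < c1 / (10 ^ 10 * D) by
    (clear * - hc1pos hm hd; positivity)) L.θ_pos)
  have ev6 := hcast.eventually (eventually_ge_atTop
    (((((∑ k, Cf k) + 5 : ℕ) : ℝ)) ^ (16000 * D)))
  have ev5 := hcast.eventually (eventually_ge_atTop (3 * L.θ))
  obtain ⟨N₂, hN₂⟩ := eventually_atTop.1 (ev1.and (ev2.and (ev3.and (ev4.and (ev5.and ev6)))))
  refine ⟨N₀ + Nc + N₂ + 100000, fun n hn => ?_⟩
  obtain ⟨⟨n', hl1, hl2, hl3, _⟩, hsum, hn8, has, hlg, hC5⟩ := hN₂ n (by omega)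
  obtain ⟨hirr, hloc⟩ := hN₀ n (by omega)
  have huv := hNc n (by omega)
  have hn5 : (100000 : ℝ) ≤ n := by exact_mod_cast (show 100000 ≤ n by omega)
  have hnr : (0 : ℝ) < n := by linarith only [hn5]
  replace hl3 : (2 : ℝ) ^ (2 * D + n') ≤ Real.log n :=
    hl3.trans (Real.log_le_log (by (clear * - hn5; positivity)) (by linarith only [hn5]))
  obtain ⟨_, hf2, hf3, hf4, hf5⟩ := level_facts L.θ_ge hn5 hl3
  replace hl1 : (lev (2 * D) n' : ℝ) ≤ (L.θ * n) ^ (1 / 60 : ℝ) := by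
    refine hl1.trans (Real.rpow_le_rpow (by (clear * - hn5; positivity)) ?_ (by norm_num))
    exact mul_le_mul_of_nonneg_right L.θ_ge hnr.le
  set z : ℕ := 2 ^ (2 ^ (2 * D + n')) with hz
  have hz4 : (4 : ℝ) ≤ z := by
    have h1 : 2 ^ 2 ≤ z := by
      rw [hz]
      apply Nat.pow_le_pow_right (by norm_num)
      have h2 : 2 ^ 1 ≤ 2 ^ (2 * D + n') := Nat.pow_le_pow_right (by norm_num) (by omega)
      omega
    exact_mod_cast h1
  have hzB : n ≤ z ^ (16000 * D) := by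
    have e : (2 : ℝ) ^ (2 ^ (2 * D + n')) = (z : ℝ) := by rw [hz]; push_cast; rfl
    rw [e] at hl2
    have h1 : (n : ℝ) ≤ (z : ℝ) ^ (16000 * D) := by
      calc (n : ℝ) ≤ 4 * (z : ℝ) ^ (7680 * (2 * D)) := by linarith only [hl2]
        _ ≤ z * (z : ℝ) ^ (7680 * (2 * D)) := by gcongr
        _ = (z : ℝ) ^ (7680 * (2 * D) + 1) := by rw [pow_succ]; ring
        _ ≤ (z : ℝ) ^ (16000 * D) := pow_le_pow_right₀ (by linarith only [hz4]) (by omega)
    exact_mod_cast h1
  have hl4 : (∑ k, Cf k) + 2 ≤ z := by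
    have h1 : ((((∑ k, Cf k) + 5 : ℕ) : ℝ)) ^ (16000 * D) ≤ ((z ^ (16000 * D) : ℕ) : ℝ) :=
      hC5.trans (by exact_mod_cast hzB)
    have h2 : ((∑ k, Cf k) + 5) ^ (16000 * D) ≤ z ^ (16000 * D) := by exact_mod_cast h1
    have h3 := (Nat.pow_le_pow_iff_left (show 16000 * D ≠ 0 by omega)).mp h2
    omega
  have hlogn : 1 ≤ Real.log n := by
    rw [Real.le_log_iff_exp_le hnr]
    linarith only [hn5, Real.exp_one_lt_d9]
  have hX0 : 0 < L.θ * n := mul_pos L.θ_pos hnr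
  -- the classes
  have hGdeg : (∏ k, lineRestrict (f k) n).natDegree ≤ D := by
    refine (natDegree_prod_le _ _).trans ?_
    calc ∑ k : Fin m, (lineRestrict (f k) n).natDegree ≤ ∑ _k : Fin m, d :=
          Finset.sum_le_sum fun k _ => natDegree_lineRestrict_le (f k) n d (hdeg k)
      _ = D := by simp [hDdef]
  have hcls := cls_family f n k₀ D hGdeg hloc L.hσ (L.eval_eq n)
  have hS := hsum n' hl1 (hl3.trans hf2) (L.v n) huv _ hcls
  have hGG : ∏ k, lineRestrict (f k) n =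
      lineRestrict (f k₀) n * ∏ k ∈ univ.erase k₀, lineRestrict (f k) n :=
    (Finset.mul_prod_erase univ (fun k => lineRestrict (f k) n) (Finset.mem_univ k₀)).symm
  have hloc' : ∀ p : ℕ, p.Prime → ¬ ∀ x : ℤ, (p : ℤ) ∣ (∏ k, lineRestrict (f k) n).eval x :=
    fun p hp h => hloc p hp (fun x => by rw [← eval_prod]; exact h x)
  have hlt : ∀ p : ℕ, p.Prime →
      om (fun p y => (p : ℤ) ∣ (∏ k, lineRestrict (f k) n).eval y) p < p := by
    intro p hp
    unfold om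
    exact card_roots_mod_lt _ p hp (hloc' p hp)
  have hdens := dens_poly (∏ k, lineRestrict (f k) n) D (2 * D) hGdeg (by omega) hloc'
  set V : ℝ := W (fun p => (om (fun p y => (p : ℤ) ∣ (∏ k, lineRestrict (f k) n).eval y) p : ℝ) / p)
      (PK (2 * D) n') with hV
  have hVge := W_ge hdens n' hl3
  rw [← hc1, ← hV] at hVge
  have hV0 : 0 ≤ V := le_trans (by (clear * - hc1pos hlogn; positivity)) hVge
  have hWr := W_relation hGG L.u_ne L.hσ (L.eval_eq n) huv (2 * D) n' hlt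
  rw [← hV] at hWr
  have hκ := kapD_pos z
  have hmt := L.main_term n hV0 hκ hWr
  -- the value of kappa
  have hz1 : (1 : ℝ) ≤ z := by
    have : 1 ≤ z := Nat.one_le_two_pow
    exact_mod_cast this
  have hκl := kapD_mul_log_le (z := z) (by exact_mod_cast hz1)
  have hzlog : Real.log n ≤ (16000 * D : ℕ) * Real.log z := by
    rw [← Real.log_pow]
    apply Real.log_le_log hnr
    exact_mod_cast hzB
  have hVκ : V * (Real.log n / (16000 * D)) ≤ V / kapD z := by
    rw [div_eq_mul_inv V (kapD z)]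
    apply mul_le_mul_of_nonneg_left _ hV0
    have h1 : Real.log z ≤ (kapD z)⁻¹ := by
      rw [← one_div, le_div_iff₀ hκ]
      linarith only [hκl]
    refine le_trans ?_ h1
    rw [div_le_iff₀ (by positivity)]
    push_cast at hzlog
    linarith only [hzlog]
  set X : ℝ := L.θ * n with hX
  set S' := ((Icc 1 ⌊3 * X⌋₊).filter (fun N : ℕ => L.u ∣ (N : ℤ) - L.v n)).filter
            (fun N : ℕ => ∀ p ∈ PK (2 * D) n', ¬ ((p : ℤ) ∣
              (∏ k ∈ univ.erase k₀, lineRestrict (f k) n).eval (((N : ℤ) - L.v n) / L.u) ∧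
              ¬ (p : ℤ) ∣ L.u * (((N : ℤ) - L.v n) / L.u) + L.v n)) with hS'
  set S1 := S'.filter (fun N : ℕ => N.Prime ∧ OmL L.la X N ≠ 0) with hS1
  have hup := sum_to_primes L.la_ge hf4 hX0 S' (fun N hN => by
    rw [hS', Finset.mem_filter, Finset.mem_filter, Finset.mem_Icc] at hN
    exact ⟨hN.1.1.1, hN.1.1.2⟩) (fun _ => 1) (fun _ => zero_le_one) (Wm := 1)
    (fun _ => le_rfl)
  simp only [mul_one, Finset.sum_const, nsmul_eq_mul] at hup
  rw [← hS1] at hup
  -- the good points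
  set good := ((Ioo 0 n).filter (fun x : ℕ => (val (f k₀) x ((n : ℤ) - x)).natAbs.Prime ∧
          ∀ k, 1 < |val (f k) x ((n : ℤ) - x)| ∧
          (∀ p : ℕ, p.Prime → (p : ℤ) ∣ val (f k) x ((n : ℤ) - x) → n < p ^ (16000 * D)) ∧
          ArithmeticFunction.cardFactors (val (f k) x ((n : ℤ) - x)).natAbs
            ≤ 16000 * D * d)) with hgood
  set R := (Ioo 0 n).filter (fun x : ℕ => ∃ k, (lineRestrict (f k) n).eval (x : ℤ) ^ 2 - 1 = 0)
    with hR
  have hRc : R.card ≤ 2 * D := card_unit_le f hdeg hirr (Ioo 0 n)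
  have hξ : ∀ N ∈ S1, ∃ x : ℕ, (N : ℤ) = L.u * x + L.v n ∧ x ∈ good ∪ R := by
    intro N hN
    rw [hS1, Finset.mem_filter, hS', Finset.mem_filter, Finset.mem_filter, Finset.mem_Icc] at hN
    obtain ⟨⟨⟨⟨hNl, hNu⟩, hdvd⟩, hQ⟩, hNp, hNO⟩ := hN
    obtain ⟨x, hx1, hx2, hx3, hx4, hx5, hx6⟩ := member_point f k₀ L hn8 hf3 hNp hNO hdvd
      (fun p hp hpz => hQ p (mem_PK.2 ⟨hp, hpz⟩))
    refine ⟨x, hx2, ?_⟩
    have hxI : x ∈ Ioo 0 n := Finset.mem_Ioo.2 ⟨hx3, hx4⟩
    by_cases hHx : ∃ k, (lineRestrict (f k) n).eval (x : ℤ) ^ 2 - 1 = 0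
    · exact Finset.mem_union_right _ (Finset.mem_filter.2 ⟨hxI, hHx⟩)
    apply Finset.mem_union_left
    rw [hgood, Finset.mem_filter]
    refine ⟨hxI, by rw [hx5]; exact hNp, fun k => ?_⟩
    exact good_of_rough f hCf hl4 hzB (by omega) hx3 hx4 hx6 (fun k h => hHx ⟨k, h⟩) k
  have hcard : S1.card ≤ good.card + 2 * D := by
    choose! ξ hξ2 hξ3 using hξ
    have h1 : S1.card ≤ (good ∪ R).card := by
      apply Finset.card_le_card_of_injOn ξ
      · intro N hN
        exact hξ3 N hN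
      · intro N hN N' hN' h
        have h2 := hξ2 N hN
        have h3 := hξ2 N' hN'
        rw [h, ← h3] at h2
        exact_mod_cast h2
    have h2 := Finset.card_union_le good R
    omega
  have hcardr : (S1.card : ℝ) ≤ good.card + 2 * D := by exact_mod_cast hcard
  -- assembling
  have hsing : singV f n ≤ V := by
    have h1 := singV_le f n (2 * D) n' hloc (by
      have h2 : ((2 ^ (2 ^ (2 * D + n')) : ℕ) : ℝ) ≤ n := by
        refine hf5.trans ?_
        calc (n : ℝ) ^ (3 / 4 : ℝ) ≤ (n : ℝ) ^ (1 : ℝ) :=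
              Real.rpow_le_rpow_of_exponent_le (by linarith only [hn5]) (by norm_num)
          _ = n := Real.rpow_one _
      exact_mod_cast h2)
    exact h1
  have hlog3 : Real.log (3 * X) ≤ 2 * Real.log n := by
    rw [hX, ← mul_assoc, Real.log_mul (by have := L.θ_pos; (clear * - this; positivity)) hnr.ne']
    have := Real.log_le_log (by have := L.θ_pos; positivity) hlg
    linarith only [this]
  have hlog30 : 0 < Real.log (3 * X) := by
    rw [Real.log_mul (by norm_num) hX0.ne']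
    have := Real.log_pos (show (1 : ℝ) < 3 by norm_num)
    linarith only [hf4, this]
  have hlow : 1 / 4 * ((n : ℝ) / 1536 * (V * (Real.log n / (16000 * D)))) ≤
      Real.log (3 * X) * (8 * S1.card + 16 * Real.sqrt (3 * X)) := by
    calc 1 / 4 * ((n : ℝ) / 1536 * (V * (Real.log n / (16000 * D)))) ≤
          1 / 4 * ((n : ℝ) / 1536 * (V / kapD z)) := by (clear * - hVκ hn5; gcongr)
      _ ≤ _ := by
        refine le_trans (mul_le_mul_of_nonneg_left hmt (by norm_num)) ?_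
        rw [← mul_assoc]
        refine hS.trans (hup.trans (le_of_eq ?_))
        ring
  have hlow2 : (n : ℝ) * V / (6144 * (16000 * D)) ≤ 16 * S1.card + 32 * Real.sqrt (3 * X) := by
    have h1 : 0 ≤ 8 * (S1.card : ℝ) + 16 * Real.sqrt (3 * X) :=
      add_nonneg (mul_nonneg (by norm_num) (Nat.cast_nonneg _))
        (mul_nonneg (by norm_num) (Real.sqrt_nonneg _))
    have h2 : Real.log n * ((n : ℝ) * V / (6144 * (16000 * D))) ≤
        Real.log n * (16 * S1.card + 32 * Real.sqrt (3 * X)) := by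
      calc Real.log n * ((n : ℝ) * V / (6144 * (16000 * D))) =
            1 / 4 * ((n : ℝ) / 1536 * (V * (Real.log n / (16000 * D)))) := by
            field_simp; ring
        _ ≤ Real.log (3 * X) * (8 * S1.card + 16 * Real.sqrt (3 * X)) := hlow
        _ ≤ (2 * Real.log n) * (8 * S1.card + 16 * Real.sqrt (3 * X)) :=
            mul_le_mul_of_nonneg_right hlog3 h1
        _ = _ := by ring
    exact le_of_mul_le_mul_left h2 (by linarith only [hlogn])
  have hset : {x : ℕ | 0 < x ∧ x < n ∧ (val (f k₀) x ((n : ℤ) - x)).natAbs.Prime ∧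
          ∀ k, 1 < |val (f k) x ((n : ℤ) - x)| ∧
          (∀ p : ℕ, p.Prime → (p : ℤ) ∣ val (f k) x ((n : ℤ) - x) → n < p ^ (16000 * D)) ∧
          ArithmeticFunction.cardFactors (val (f k) x ((n : ℤ) - x)).natAbs
            ≤ 16000 * D * d} = (good : Set ℕ) := by
    ext x
    rw [hgood]
    simp only [Set.mem_ofPred_eq, Finset.coe_filter, Finset.mem_Ioo, and_assoc]
  rw [hset, Set.ncard_coe_finset]
  have hDD : ((m : ℝ) * d) = D := by rw [hDdef]; push_cast; rfl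
  rw [hDD]
  have h1 : (n : ℝ) * singV f n / (10 ^ 10 * D) ≤ (n : ℝ) * V / (10 ^ 10 * D) := by (clear * - hsing hn5 hm hd; gcongr)
  have h2 : (n : ℝ) * (c1 / (10 ^ 10 * D) * (1 / Real.log n ^ (4 * (2 * D)))) ≤
      (n : ℝ) * V / (10 ^ 10 * D) := by
    calc (n : ℝ) * (c1 / (10 ^ 10 * D) * (1 / Real.log n ^ (4 * (2 * D)))) =
          n * (c1 * (1 / Real.log n ^ (4 * (2 * D)))) / (10 ^ 10 * D) := by ring
      _ ≤ _ := by (clear * - hVge hn5 hm hd; gcongr)
  have h3 : (n : ℝ) * V / (6144 * (16000 * D)) = (n : ℝ) * V / (10 ^ 10 * D) *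
      (10 ^ 10 / (6144 * 16000)) := by field_simp
  have h4 : 32 * ((n : ℝ) * V / (10 ^ 10 * D)) ≤ (n : ℝ) * V / (6144 * (16000 * D)) := by
    rw [h3]
    have h5 : 0 ≤ (n : ℝ) * V / (10 ^ 10 * D) :=
      div_nonneg (mul_nonneg hnr.le hV0) (by positivity)
    have h6 : (32 : ℝ) ≤ 10 ^ 10 / (6144 * 16000) := by norm_num
    rw [mul_comm (32 : ℝ)]
    exact mul_le_mul_of_nonneg_left h6 h5
  linarith only [has, hcardr, hlow2, h1, h2, h3]

end Pool.Agent.MT
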