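import Pool.Agent.Lib.MP_0da313_nt.MT.LinM

set_option autoImplicit false
set_option linter.unusedSectionVars false

/-!
Determinants of pairs of linear members, and the set of primes used in the weights.
-/

open Finset Polynomial

namespace Pool.Agent.MT

open Pool.Agent.MP89da58 Pool.Agent.BVall Pool.Agent.Lib.MP_0da313_nt

lemma eq_of_val {f g : MvPolynomial (Fin 2) ℤ} (h : ∀ x y : ℤ, val f x y = val g x y) : f = g := by
  apply MvPolynomial.funext
  intro x
  have h1 := h (x 0) (x 1)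
  unfold Lib.MP_0da313_nt.val at h1
  have h2 : ![x 0, x 1] = x := by
    ext i
    fin_cases i <;> rfl
  rwa [h2] at h1

lemma eq_neg_of_val {f g : MvPolynomial (Fin 2) ℤ} (h : ∀ x y : ℤ, val f x y = - val g x y) :
    f = -g := by
  apply eq_of_val
  intro x y
  rw [h x y]
  unfold Lib.MP_0da313_nt.val
  rw [map_neg]

lemma det_affine {f f' : MvPolynomial (Fin 2) ℤ} (L : Lin f) (L' : Lin f') (n : ℕ) :
    L.u * L'.v n - L'.u * L.v n = (L.u * (L'.σ * L'.b) - L'.u * (L.σ * L.b)) * n +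
      (L.u * (L'.σ * L'.c) - L'.u * (L.σ * L.c)) := by
  unfold Lin.v
  ring

lemma det_ne {m : ℕ} {f : Fin m → MvPolynomial (Fin 2) ℤ} (hf : Admissible f) {k l : Fin m}
    (L : Lin (f k)) (L' : Lin (f l)) (h1 : f k ≠ f l) (h2 : f k ≠ - f l) :
    ∃ N₀ : ℕ, ∀ n : ℕ, N₀ ≤ n → L.u * L'.v n - L'.u * L.v n ≠ 0 := by
  obtain ⟨N1, hN1⟩ := Lin.coprime hf L
  obtain ⟨N2, hN2⟩ := Lin.coprime hf L'
  set α := L.u * (L'.σ * L'.b) - L'.u * (L.σ * L.b) with hα
  set β := L.u * (L'.σ * L'.c) - L'.u * (L.σ * L.c) with hβ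
  by_cases h0 : α = 0 ∧ β = 0
  · exfalso
    have hz : ∀ n : ℕ, L.u * L'.v n - L'.u * L.v n = 0 := by
      intro n
      rw [det_affine, ← hα, ← hβ, h0.1, h0.2]
      ring
    set N := N1 + N2 with hN
    have hc1 := hN1 N (by omega)
    have hc2 := hN2 N (by omega)
    have hd1 : L.u ∣ L'.u := by
      have h3 : L.u ∣ L.v N * L'.u := ⟨L'.v N, by linear_combination - hz N⟩
      exact hc1.dvd_of_dvd_mul_left h3
    have hd2 : L'.u ∣ L.u := by
      have h3 : L'.u ∣ L'.v N * L.u := ⟨L.v N, by linear_combination hz N⟩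
      exact hc2.dvd_of_dvd_mul_left h3
    have habs : L.u.natAbs = L'.u.natAbs :=
      Nat.dvd_antisymm (Int.natAbs_dvd_natAbs.2 hd1) (Int.natAbs_dvd_natAbs.2 hd2)
    have hu := L.u_ne
    -- the sign
    obtain ⟨ε, hε, hεu⟩ : ∃ ε : ℤ, (ε = 1 ∨ ε = -1) ∧ L'.u = ε * L.u := by
      rcases Int.natAbs_eq_natAbs_iff.1 habs with h | h
      · exact ⟨1, Or.inl rfl, by rw [one_mul]; exact h.symm⟩
      · exact ⟨-1, Or.inr rfl, by rw [h]; ring⟩
    have hv : ∀ n : ℕ, L'.v n = ε * L.v n := by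
      intro n
      have h3 := hz n
      rw [hεu] at h3
      have h4 : L.u * (L'.v n - ε * L.v n) = 0 := by linear_combination h3
      rcases mul_eq_zero.1 h4 with h5 | h5
      · exact absurd h5 hu
      · linarith
    have hv0 := hv 0
    have hv1 := hv 1
    unfold Lin.v at hv0 hv1
    push_cast at hv0 hv1
    have hc : L'.σ * L'.c = ε * (L.σ * L.c) := by linear_combination hv0
    have hb : L'.σ * L'.b = ε * (L.σ * L.b) := by linear_combination hv1 - hv0
    have ha : L'.σ * L'.a = ε * (L.σ * L.a) := by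
      have h3 := hεu
      unfold Lin.u at h3
      linear_combination h3 + hb
    have hs : L'.σ * L'.σ = 1 := by rcases L'.hσ with h | h <;> rw [h] <;> norm_num
    have hs2 : L.σ * L.σ = 1 := by rcases L.hσ with h | h <;> rw [h] <;> norm_num
    have hs3 : ε * ε = 1 := by rcases hε with h | h <;> rw [h] <;> norm_num
    set τ := L'.σ * ε * L.σ with hτ
    have hτ1 : τ = 1 ∨ τ = -1 := by
      rw [hτ]
      rcases L'.hσ with h | h <;> rcases L.hσ with h' | h' <;> rcases hε with h'' | h'' <;>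
        rw [h, h', h''] <;> norm_num
    have hkey : ∀ x y : ℤ, val (f l) x y = τ * val (f k) x y := by
      intro x y
      rw [L'.hval, L.hval]
      have e1 : L'.a = τ * L.a := by
        rw [hτ]; linear_combination L'.σ * ha - L'.a * hs
      have e2 : L'.b = τ * L.b := by
        rw [hτ]; linear_combination L'.σ * hb - L'.b * hs
      have e3 : L'.c = τ * L.c := by
        rw [hτ]; linear_combination L'.σ * hc - L'.c * hs
      rw [e1, e2, e3]
      ring
    rcases hτ1 with h | h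
    · apply h1
      apply eq_of_val
      intro x y
      rw [hkey, h, one_mul]
    · apply h2
      apply eq_neg_of_val
      intro x y
      rw [hkey, h]
      ring
  · refine ⟨β.natAbs + 1, fun n hn => ?_⟩
    rw [det_affine, ← hα, ← hβ]
    intro h3
    by_cases hα0 : α = 0
    · apply h0
      refine ⟨hα0, ?_⟩
      rw [hα0, zero_mul, zero_add] at h3
      exact h3
    · have h4 : β = -(α * n) := by linarith
      have h5 : β.natAbs = α.natAbs * n := by
        rw [h4, Int.natAbs_neg, Int.natAbs_mul, Int.natAbs_natCast]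
      have h6 : 1 ≤ α.natAbs := Nat.one_le_iff_ne_zero.2 (Int.natAbs_ne_zero.2 hα0)
      have h7 : n ≤ α.natAbs * n := Nat.le_mul_of_pos_left n h6
      omega

lemma det_le {f f' : MvPolynomial (Fin 2) ℤ} (L : Lin f) (L' : Lin f') :
    ∃ C : ℕ, ∀ n : ℕ, 1 ≤ n → (L.u * L'.v n - L'.u * L.v n).natAbs ≤ C * n := by
  refine ⟨(L.u * (L'.σ * L'.b) - L'.u * (L.σ * L.b)).natAbs +
      (L.u * (L'.σ * L'.c) - L'.u * (L.σ * L.c)).natAbs, fun n hn => ?_⟩
  rw [det_affine]
  refine (Int.natAbs_add_le _ _).trans ?_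
  rw [Int.natAbs_mul, Int.natAbs_natCast, add_mul]
  apply Nat.add_le_add_left
  exact Nat.le_mul_of_pos_right _ hn

/-- few large primes divide a nonzero number -/
lemma card_large_le {A : ℤ} (hA : A ≠ 0) {z B : ℕ} (hz : 2 ≤ z) (hAB : A.natAbs ≤ z ^ B)
    (s : Finset ℕ) (hs : ∀ p ∈ s, p.Prime ∧ z < p ∧ (p : ℤ) ∣ A) : s.card ≤ B := by
  have hna : 0 < A.natAbs := Int.natAbs_pos.2 hA
  have h1 : ∏ p ∈ s, p ∣ A.natAbs := Finset.prod_primes_dvd _ (fun p hp => (hs p hp).1.prime)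
    (fun p hp => Int.natCast_dvd.1 (hs p hp).2.2)
  have h2 := Nat.le_of_dvd hna h1
  have h3 : z ^ s.card ≤ ∏ p ∈ s, p := by
    rw [← Finset.prod_const]
    exact Finset.prod_le_prod' fun p hp => (hs p hp).2.1.le
  have h4 : z ^ s.card ≤ z ^ B := h3.trans (h2.trans hAB)
  exact (Nat.pow_le_pow_iff_right (by omega)).1 h4

/-- the set of primes -/
theorem exists_P {m : ℕ} {f : Fin m → MvPolynomial (Fin 2) ℤ} (hf : Admissible f)
    {ι : Type} [Fintype ι] [DecidableEq ι] (e : ι → Fin m) (L : ∀ l, Lin (f (e l)))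
    (hne : ∀ l l', l ≠ l' → f (e l) ≠ f (e l') ∧ f (e l) ≠ - f (e l')) :
    ∃ N₀ A : ℕ, ∀ n : ℕ, N₀ ≤ n → ∀ z B R : ℕ, n ≤ z ^ B → A ≤ z →
      2 * (Fintype.card ι ^ 2 * (B + 1)) ≤ z → ∃ P Ex : Finset ℕ,
        (∀ p ∈ P, p.Prime ∧ z < p ∧ p ≤ R) ∧
        (∀ p ∈ P, ∀ l, ¬ p ∣ ((L l).u).natAbs) ∧
        (∀ p ∈ P, ∀ l l', l ≠ l' → ¬ (p : ℤ) ∣ (L l).u * (L l').v n - (L l').u * (L l).v n) ∧
        (∀ p : ℕ, p.Prime → z < p → p ≤ R → p ∈ P ∨ p ∈ Ex) ∧
        ∑ p ∈ Ex, 1 / (p : ℝ) ≤ 1 / 2 := by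
  classical
  have h1 : ∀ l l' : ι, ∃ N₀ : ℕ, l ≠ l' → ∀ n : ℕ, N₀ ≤ n →
      (L l).u * (L l').v n - (L l').u * (L l).v n ≠ 0 := by
    intro l l'
    by_cases h : l = l'
    · exact ⟨0, fun h' => absurd h h'⟩
    · obtain ⟨N₀, hN₀⟩ := det_ne hf (L l) (L l') (hne l l' h).1 (hne l l' h).2
      exact ⟨N₀, fun _ => hN₀⟩
  have h2 : ∀ l l' : ι, ∃ C : ℕ, ∀ n : ℕ, 1 ≤ n →
      ((L l).u * (L l').v n - (L l').u * (L l).v n).natAbs ≤ C * n :=
    fun l l' => det_le (L l) (L l')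
  choose N hN using h1
  choose C hC using h2
  refine ⟨∑ l, ∑ l', N l l' + 1, ∑ l, ∑ l', C l l' + ∑ l, (L l).u.natAbs + 2,
    fun n hn z B R hzB hAz hBz => ?_⟩
  have hN' : ∀ l l', N l l' ≤ n := by
    intro l l'
    have e1 : N l l' ≤ ∑ l', N l l' :=
      Finset.single_le_sum (f := fun l' => N l l') (fun i _ => Nat.zero_le _) (Finset.mem_univ l')
    have e2 : ∑ l', N l l' ≤ ∑ l, ∑ l', N l l' :=
      Finset.single_le_sum (f := fun l => ∑ l', N l l') (fun i _ => Nat.zero_le _)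
        (Finset.mem_univ l)
    omega
  have hC' : ∀ l l', C l l' ≤ z := by
    intro l l'
    have e1 : C l l' ≤ ∑ l', C l l' :=
      Finset.single_le_sum (f := fun l' => C l l') (fun i _ => Nat.zero_le _) (Finset.mem_univ l')
    have e2 : ∑ l', C l l' ≤ ∑ l, ∑ l', C l l' :=
      Finset.single_le_sum (f := fun l => ∑ l', C l l') (fun i _ => Nat.zero_le _)
        (Finset.mem_univ l)
    omega
  have hu' : ∀ l, (L l).u.natAbs ≤ z := by
    intro l
    have e1 : (L l).u.natAbs ≤ ∑ l, (L l).u.natAbs :=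
      Finset.single_le_sum (f := fun l => (L l).u.natAbs) (fun i _ => Nat.zero_le _)
        (Finset.mem_univ l)
    omega
  set dt : ι → ι → ℤ := fun l l' => (L l).u * (L l').v n - (L l').u * (L l).v n with hdt
  have hdt0 : ∀ l l', l ≠ l' → dt l l' ≠ 0 := fun l l' h => hN l l' h n (hN' l l')
  have hdtle : ∀ l l', (dt l l').natAbs ≤ z ^ (B + 1) := by
    intro l l'
    calc (dt l l').natAbs ≤ C l l' * n := hC l l' n (by omega)
      _ ≤ z * z ^ B := Nat.mul_le_mul (hC' l l') hzB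
      _ = z ^ (B + 1) := by rw [pow_succ]; ring
  set P : Finset ℕ := (Icc 1 R).filter (fun p => p.Prime ∧ z < p ∧
    ∀ l l', l ≠ l' → ¬ (p : ℤ) ∣ dt l l') with hP
  set Ex : Finset ℕ := (Icc 1 R).filter (fun p => p.Prime ∧ z < p ∧
    ¬ ∀ l l', l ≠ l' → ¬ (p : ℤ) ∣ dt l l') with hEx
  refine ⟨P, Ex, ?_, ?_, ?_, ?_, ?_⟩
  · intro p hp
    rw [hP, Finset.mem_filter, Finset.mem_Icc] at hp
    exact ⟨hp.2.1, hp.2.2.1, hp.1.2⟩
  · intro p hp l h
    rw [hP, Finset.mem_filter, Finset.mem_Icc] at hp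
    have h3 := Nat.le_of_dvd (Int.natAbs_pos.2 (L l).u_ne) h
    have h4 := hu' l
    omega
  · intro p hp l l' h
    rw [hP, Finset.mem_filter, Finset.mem_Icc] at hp
    exact hp.2.2.2 l l' h
  · intro p hp hzp hpR
    by_cases h : ∀ l l', l ≠ l' → ¬ (p : ℤ) ∣ dt l l'
    · left
      rw [hP, Finset.mem_filter, Finset.mem_Icc]
      exact ⟨⟨hp.one_le, hpR⟩, hp, hzp, h⟩
    · right
      rw [hEx, Finset.mem_filter, Finset.mem_Icc]
      exact ⟨⟨hp.one_le, hpR⟩, hp, hzp, h⟩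
  · have hcard : Ex.card ≤ Fintype.card ι ^ 2 * (B + 1) := by
      have hsub : Ex ⊆ (univ : Finset (ι × ι)).biUnion (fun x =>
          (Icc 1 R).filter (fun p => p.Prime ∧ z < p ∧ x.1 ≠ x.2 ∧ (p : ℤ) ∣ dt x.1 x.2)) := by
        intro p hp
        rw [hEx, Finset.mem_filter] at hp
        obtain ⟨hp1, hp2, hp3, hp4⟩ := hp
        push Not at hp4
        obtain ⟨l, l', h, h'⟩ := hp4
        rw [Finset.mem_biUnion]
        exact ⟨(l, l'), Finset.mem_univ _, Finset.mem_filter.2 ⟨hp1, hp2, hp3, h, h'⟩⟩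
      refine (Finset.card_le_card hsub).trans (Finset.card_biUnion_le.trans ?_)
      have h3 : ∀ x ∈ (univ : Finset (ι × ι)), ((Icc 1 R).filter (fun p => p.Prime ∧ z < p ∧
          x.1 ≠ x.2 ∧ (p : ℤ) ∣ dt x.1 x.2)).card ≤ B + 1 := by
        intro x _
        by_cases hx : x.1 = x.2
        · rw [Finset.card_eq_zero.2]
          · omega
          · rw [Finset.filter_eq_empty_iff]
            rintro p _ ⟨_, _, h, _⟩
            exact h hx
        · apply card_large_le (hdt0 _ _ hx) (z := z) (by omega) (hdtle _ _)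
          intro p hp
          rw [Finset.mem_filter] at hp
          exact ⟨hp.2.1, hp.2.2.1, hp.2.2.2.2⟩
      refine (Finset.sum_le_card_nsmul _ _ _ h3).trans ?_
      rw [smul_eq_mul, Finset.card_univ, Fintype.card_prod, sq]
    have hz0 : (0 : ℝ) < z := by
      have : 0 < z := by omega
      exact_mod_cast this
    have h3 : ∑ p ∈ Ex, 1 / (p : ℝ) ≤ ∑ _p ∈ Ex, 1 / (z : ℝ) := by
      apply Finset.sum_le_sum
      intro p hp
      rw [hEx, Finset.mem_filter] at hp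
      apply one_div_le_one_div_of_le hz0
      exact_mod_cast hp.2.2.1.le
    refine h3.trans ?_
    rw [Finset.sum_const, nsmul_eq_mul, mul_one_div, div_le_div_iff₀ hz0 (by norm_num)]
    have h4 : (Ex.card : ℝ) ≤ ((Fintype.card ι ^ 2 * (B + 1) : ℕ) : ℝ) := by exact_mod_cast hcard
    have h5 : ((2 * (Fintype.card ι ^ 2 * (B + 1)) : ℕ) : ℝ) ≤ z := by exact_mod_cast hBz
    push_cast at h4 h5
    linarith

end Pool.Agent.MT
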