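import Pool.Agent.Lib.MP_0da313_nt.MT.MainN2
import Pool.Agent.Lib.MP_0da313_nt.MT.Det

set_option autoImplicit false
set_option linter.unusedSectionVars false

/-!
The theorem for a fixed number of linear members.
-/

open Finset Polynomial Filter

namespace Pool.Agent.MT

open Pool.Agent.MP89da58 Pool.Agent.BVall Pool.Agent.Lib.MP_0da313_nt

lemma ev_err {c C s : ℝ} (hc : 0 < c) (hC : 0 < C) (k : ℕ) (hs : s < 1) :
    ∀ᶠ t : ℝ in atTop, C * t ^ s ≤ t * (c * (1 / Real.log t ^ k)) := by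
  filter_upwards [ev_log_pow (C / c) (by positivity) k (show (0 : ℝ) < 1 - s by linarith),
    eventually_ge_atTop 3] with t h1 ht3
  have ht0 : 0 < t := by linarith
  have hl1 : 1 ≤ Real.log t := by
    rw [Real.le_log_iff_exp_le ht0]
    linarith [Real.exp_one_lt_d9]
  rw [div_mul_eq_mul_div, div_le_iff₀ hc] at h1
  have h2 : t * (c * (1 / Real.log t ^ k)) = t * c / Real.log t ^ k := by ring
  rw [h2, le_div_iff₀ (by positivity)]
  calc C * t ^ s * Real.log t ^ k = t ^ s * (C * Real.log t ^ k) := by ring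
    _ ≤ t ^ s * (t ^ (1 - s) * c) := mul_le_mul_of_nonneg_left h1 (by positivity)
    _ = t ^ (s + (1 - s)) * c := by rw [Real.rpow_add ht0]; ring
    _ = t * c := by rw [add_sub_cancel, Real.rpow_one]

lemma ev_err2 {c C θ : ℝ} (hc : 0 < c) (hC : 0 < C) (hθ : 1 / 4 ≤ θ) (k : ℕ) :
    ∀ᶠ t : ℝ in atTop, C * (θ * t / Real.log (θ * t) ^ (k + 1)) ≤
      t * (c * (1 / Real.log t ^ k)) := by
  filter_upwards [Real.tendsto_log_atTop.eventually_ge_atTop (C * θ * 2 ^ (k + 1) / c),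
    eventually_ge_atTop 16] with t h1 ht16
  have ht0 : 0 < t := by linarith only [ht16]
  have hθ0 : 0 < θ := by linarith
  have hl1 : 1 ≤ Real.log t := by
    rw [Real.le_log_iff_exp_le ht0]
    linarith [Real.exp_one_lt_d9]
  have h4 : Real.log t / 2 ≤ Real.log (θ * t) := by
    have h5 : t ^ (1 / 2 : ℝ) ≤ θ * t := by
      refine le_trans ?_ (quarter_le hθ (by linarith))
      rw [← Real.sqrt_eq_rpow, Real.sqrt_le_left (by positivity)]
      nlinarith only [ht16]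
    have h6 := Real.log_le_log (by positivity) h5
    rw [Real.log_rpow ht0] at h6
    linarith
  have h5 : 0 < Real.log (θ * t) := by linarith
  rw [div_le_iff₀ hc] at h1
  have h2 : t * (c * (1 / Real.log t ^ k)) = t * c / Real.log t ^ k := by ring
  rw [h2, mul_div_assoc', div_le_div_iff₀ (by positivity) (by positivity)]
  have h6 : (Real.log t / 2) ^ (k + 1) ≤ Real.log (θ * t) ^ (k + 1) :=
    pow_le_pow_left₀ (by positivity) h4 _
  calc C * (θ * t) * Real.log t ^ k = (t * Real.log t ^ k / 2 ^ (k + 1)) *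
        (C * θ * 2 ^ (k + 1)) := by field_simp
    _ ≤ (t * Real.log t ^ k / 2 ^ (k + 1)) * (Real.log t * c) :=
        mul_le_mul_of_nonneg_left h1 (by positivity)
    _ = t * c * (Real.log t / 2) ^ (k + 1) := by rw [div_pow, pow_succ (Real.log t)]; ring
    _ ≤ t * c * Real.log (θ * t) ^ (k + 1) := mul_le_mul_of_nonneg_left h6 (by positivity)

lemma ev_E2 {c θ a B1 B2 : ℝ} (hc : 0 < c) (ha : 0 < a) (hB1 : 0 < B1) (hB2 : 0 < B2)
    (hθ : 1 / 4 ≤ θ) (k : ℕ) :
    ∀ᶠ t : ℝ in atTop, 32 * Real.sqrt (3 * (θ * t)) * (t ^ (2 / 1000 : ℝ) * B1) +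
        B2 * (θ * t / Real.log (θ * t) ^ (k + 1)) ≤ a * (t * (c * (1 / Real.log t ^ k))) := by
  have hθ0 : 0 < θ := by linarith
  filter_upwards [ev_err (s := 3 / 4) (show 0 < a * c / 2 by positivity)
      (show 0 < 32 * (1 + 3 * θ) * B1 by positivity) k (by norm_num),
    ev_err2 (show 0 < a * c / 2 by positivity) hB2 hθ k, eventually_ge_atTop 3] with t h1 h2 ht3
  have ht0 : 0 < t := by linarith only [ht3]
  have h3 : 32 * Real.sqrt (3 * (θ * t)) * (t ^ (2 / 1000 : ℝ) * B1) ≤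
      32 * (1 + 3 * θ) * B1 * t ^ (3 / 4 : ℝ) := by
    have h4 : Real.sqrt (3 * (θ * t)) ≤ (1 + 3 * θ) * Real.sqrt t := by
      rw [← mul_assoc, Real.sqrt_mul (by positivity)]
      apply mul_le_mul_of_nonneg_right _ (Real.sqrt_nonneg _)
      apply Real.sqrt_le_iff.2
      constructor
      · positivity
      · nlinarith only [hθ0, hθ]
    have h5 : Real.sqrt t * t ^ (2 / 1000 : ℝ) ≤ t ^ (3 / 4 : ℝ) := by
      rw [Real.sqrt_eq_rpow, ← Real.rpow_add ht0]
      exact Real.rpow_le_rpow_of_exponent_le (by linarith) (by norm_num)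
    calc 32 * Real.sqrt (3 * (θ * t)) * (t ^ (2 / 1000 : ℝ) * B1) ≤
          32 * ((1 + 3 * θ) * Real.sqrt t) * (t ^ (2 / 1000 : ℝ) * B1) := by (clear * - h4 ht3 hB1; gcongr)
      _ = 32 * (1 + 3 * θ) * B1 * (Real.sqrt t * t ^ (2 / 1000 : ℝ)) := by ring
      _ ≤ _ := mul_le_mul_of_nonneg_left h5 (by positivity)
  have h6 : a * (t * (c * (1 / Real.log t ^ k))) = t * (a * c / 2 * (1 / Real.log t ^ k)) +
      t * (a * c / 2 * (1 / Real.log t ^ k)) := by ring
  rw [h6]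
  linarith only [h1, h2, h3]

lemma card_filter_sub {m : ℕ} (I : Finset (Fin m)) (p : Fin m → Prop) [DecidablePred p]
    [DecidablePred fun l : {k // k ∈ I} => p (l : Fin m)] :
    (univ.filter (fun l : {k // k ∈ I} => p (l : Fin m))).card = (I.filter p).card := by
  rw [← Finset.card_map (Function.Embedding.subtype (· ∈ I))]
  congr 1
  ext k
  simp only [Finset.mem_map, Finset.mem_filter, Finset.mem_univ, true_and,
    Function.Embedding.coe_subtype, Subtype.exists, exists_and_right, exists_eq_right]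
  constructor
  · rintro ⟨h1, h2⟩
    exact ⟨h1, h2⟩
  · rintro ⟨h1, h2⟩
    exact ⟨h1, h2⟩

lemma log_le_del {K m' : ℕ} (hK : 2 ≤ K) (hm' : m' = Nat.log 2 K) :
    1 / 10 ^ 21 * Real.log K ≤ m' * del / 200 := by
  have h1 : K < 2 ^ (m' + 1) := by
    rw [hm']
    exact Nat.lt_pow_succ_log_self (by norm_num) K
  have hm1 : 1 ≤ m' := by
    rw [hm']
    exact (Nat.le_log_iff_pow_le (by norm_num) (by omega)).2 (by simpa using hK)
  have hm1r : (1 : ℝ) ≤ m' := by exact_mod_cast hm1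
  have h2 : Real.log K ≤ (m' + 1) * Real.log 2 := by
    have h3 : (K : ℝ) ≤ 2 ^ (m' + 1) := by exact_mod_cast h1.le
    have h4 := Real.log_le_log (by have : 0 < K := by omega
                                   exact_mod_cast this) h3
    rw [Real.log_pow] at h4
    push_cast at h4
    exact h4
  have h3 : Real.log K ≤ 2 * m' := by
    refine h2.trans ?_
    have := Real.log_two_lt_d9
    have h5 : Real.log 2 ≤ 1 := by linarith only [this]
    calc (m' + 1) * Real.log 2 ≤ (m' + 1) * 1 := mul_le_mul_of_nonneg_left h5 (by positivity)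
      _ ≤ 2 * m' := by linarith only [hm1r]
  calc 1 / 10 ^ 21 * Real.log K ≤ 1 / 10 ^ 21 * (2 * m') :=
        mul_le_mul_of_nonneg_left h3 (by norm_num)
    _ = m' * (2 / 10 ^ 21) := by ring
    _ ≤ m' * (del / 200) := by
        apply mul_le_mul_of_nonneg_left _ (by positivity)
        unfold del
        norm_num
    _ = _ := by ring

theorem core (m d K : ℕ) (hm : 1 ≤ m) (hd : 1 ≤ d) (hK : 2 ≤ K) :
    ∃ (B : ℕ) (c' : ℝ), 0 < c' ∧ ∀ (f : Fin m → MvPolynomial (Fin 2) ℤ),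
      (∀ k, (f k).totalDegree ≤ d) → Admissible f → ∀ I : Finset (Fin m), I.card = K →
      (∀ k ∈ I, (f k).totalDegree ≤ 1) →
      (∀ k ∈ I, ∀ l ∈ I, k ≠ l → f k ≠ f l ∧ f k ≠ - f l) →
      ∃ N : ℕ, ∀ n : ℕ, N ≤ n → c' * (n * singV f n) ≤
        (Set.ncard {x : ℕ | 0 < x ∧ x < n ∧
          1 / 10 ^ 21 * Real.log K ≤
            ((I.filter (fun k => (val (f k) x ((n : ℤ) - x)).natAbs.Prime)).card : ℝ) ∧
          1 ≤ (I.filter (fun k => (val (f k) x ((n : ℤ) - x)).natAbs.Prime)).card ∧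
          ∀ k, 1 < |val (f k) x ((n : ℤ) - x)| ∧
          (∀ p : ℕ, p.Prime → (p : ℤ) ∣ val (f k) x ((n : ℤ) - x) → n < p ^ B) ∧
          ArithmeticFunction.cardFactors (val (f k) x ((n : ℤ) - x)).natAbs ≤ B * d} : ℝ) := by
  classical
  obtain ⟨D, hDdef⟩ : ∃ D, D = m * d := ⟨_, rfl⟩
  have hD : 1 ≤ D := by
    rw [hDdef]
    exact Nat.one_le_iff_ne_zero.mpr (by positivity)
  obtain ⟨m', hm'def⟩ : ∃ m', m' = Nat.log 2 K := ⟨_, rfl⟩
  have hm' : 1 ≤ m' := by
    rw [hm'def]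
    exact (Nat.le_log_iff_pow_le (by norm_num) (by omega)).2 (by simpa using hK)
  have hm'K : 2 ^ m' ≤ K := by
    rw [hm'def]
    exact Nat.pow_log_le_self 2 (by omega)
  obtain ⟨M, hM⟩ : ∃ M, M = 64 * 1000 * K * (m' + 1) := ⟨_, rfl⟩
  have hM1 : 1 ≤ M := by
    rw [hM]
    exact Nat.mul_pos (by omega) (by omega)
  obtain ⟨B0, hB0⟩ : ∃ B0, B0 = 128000 * (2 * D) * ((D + 1) * M) := ⟨_, rfl⟩
  have hB01 : 1 ≤ B0 := by
    rw [hB0]
    exact Nat.mul_pos (by omega) (Nat.mul_pos (by omega) hM1)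
  have hB0r : (0 : ℝ) < B0 := by exact_mod_cast hB01
  have hKr : (0 : ℝ) < K := by
    have : 0 < K := by omega
    exact_mod_cast this
  obtain ⟨wm, hwm⟩ : ∃ wm : ℝ, wm = (2 ^ (K * (B0 * d)) * (B0 : ℝ) ^ K) ^ 2 := ⟨_, rfl⟩
  have hwm0 : 0 < wm := by rw [hwm]; positivity
  have hdel := del_pos
  refine ⟨B0, del / (128 * K * wm), by positivity, ?_⟩
  intro f hdeg hf I hIK hlin hne
  obtain ⟨N₀, hN₀⟩ := hf
  have hcard : Fintype.card {k // k ∈ I} = K := by rw [Fintype.card_coe, hIK]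
  have hL : ∀ l : {k // k ∈ I}, Nonempty (Lin (f (l : Fin m))) := fun l =>
    exists_lin ⟨N₀, hN₀⟩ l (hlin l l.2)
  obtain ⟨L⟩ : Nonempty (∀ l : {k // k ∈ I}, Lin (f (l : Fin m))) := Classical.nonempty_pi.2 hL
  have hc := fun l : {k // k ∈ I} => Lin.coprime (⟨N₀, hN₀⟩ : Admissible f) (L l)
  choose Nc hNc using hc
  obtain ⟨NP, AP, hPP⟩ := exists_P (⟨N₀, hN₀⟩ : Admissible f)
    (fun l : {k // k ∈ I} => (l : Fin m)) L
    (fun l l' h => hne l l.2 l' l'.2 (fun h' => h (Subtype.ext h')))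
  have hCf : ∀ k, ∃ C : ℕ, ∀ n : ℕ, 1 ≤ n → ∀ x y : ℤ, |x| ≤ n → |y| ≤ n →
      |val (f k) x y| ≤ C * (n : ℤ) ^ d := fun k => abs_val_le (f k) d (hdeg k)
  choose Cf hCf using hCf
  set c1 : ℝ := ∏ p ∈ small (2 * D), (1 / (p : ℝ)) with hc1
  have hc1pos : 0 < c1 := by
    apply Finset.prod_pos
    intro p hp
    have hpp : p.Prime := (Finset.mem_filter.mp hp).2
    have : (0 : ℝ) < p := by exact_mod_cast hpp.pos
    (clear * - this; positivity)
  have hcast : Tendsto (fun n : ℕ => (n : ℝ)) atTop atTop := tendsto_natCast_atTop_atTop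
  have hcastθ : ∀ l, Tendsto (fun n : ℕ => (L l).θ * (n : ℝ)) atTop atTop := fun l =>
    hcast.const_mul_atTop (L l).θ_pos
  have ev1 := hcast.eventually (choose_levS (2 * D) ((D + 1) * M) (by omega)
    (Nat.mul_pos (by omega) hM1) ((∑ k, Cf k) + 2 + 16 * (K + 2) ^ 2 + AP +
      2 * (K ^ 2 * (B0 + 1))))
  have ev2 : ∀ᶠ n : ℕ in atTop, ∀ l : {k // k ∈ I},
      (L l).θ * n / (24 * (L l).la) ≤ psiXL (L l).la ((L l).θ * n) :=
    eventually_all.2 fun l => (hcastθ l).eventually (psiXL_lower (L l).la_ge)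
  have ev3 : ∀ᶠ n : ℕ in atTop, ∀ l : {k // k ∈ I}, ∀ a : ℕ → ℕ,
      (∀ q, (a q).Coprime ((L l).u.natAbs * q)) →
      ∑ q ∈ (Finset.Icc 1 ⌊((L l).θ * n) ^ (1 / 60 : ℝ)⌋₊).filter Squarefree,
      ((3 * K * D : ℕ) : ℝ) ^ (q.primeFactors.card) *
        |psiAPL (L l).la ((L l).θ * n) ((L l).u.natAbs * q) (a q) -
          psiXL (L l).la ((L l).θ * n) / (Nat.totient ((L l).u.natAbs * q) : ℝ)|
      ≤ (L l).θ * n / (Real.log ((L l).θ * n)) ^ (8 * D + 1) := by
    refine eventually_all.2 fun l => ?_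
    obtain ⟨X1, hX1⟩ := bv_weightedL (L l).la_ge (3 * K * D) (L l).u.natAbs
      (Int.natAbs_pos.2 (L l).u_ne) (8 * D + 1)
    filter_upwards [(hcastθ l).eventually (eventually_ge_atTop X1)] with n hn
    exact hX1 _ hn
  have ev4 : ∀ᶠ n : ℕ in atTop, ∀ l : {k // k ∈ I}, 8 * |((L l).c : ℝ)| < n :=
    eventually_all.2 fun l => hcast.eventually (eventually_gt_atTop _)
  have ev5 : ∀ᶠ n : ℕ in atTop, ∀ l : {k // k ∈ I}, 3 * (L l).θ ≤ n :=
    eventually_all.2 fun l => hcast.eventually (eventually_ge_atTop _)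
  have ev6 : ∀ᶠ n : ℕ in atTop, 2000 * M * Real.log 2 ≤ Real.log n :=
    hcast.eventually (Real.tendsto_log_atTop.eventually_ge_atTop _)
  have ev7 := hcast.eventually (ev_err (s := 3 / 1000) hc1pos
    (show (0 : ℝ) < (B0 : ℝ) ^ (4 * K) by positivity) (8 * D) (by norm_num))
  have ev8 : ∀ᶠ n : ℕ in atTop, ∀ l : {k // k ∈ I},
      32 * Real.sqrt (3 * ((L l).θ * n)) *
        ((n : ℝ) ^ (2 / 1000 : ℝ) * (B0 : ℝ) ^ (4 * K)) +
        (B0 : ℝ) ^ (2 * K) * ((L l).θ * n / (Real.log ((L l).θ * n)) ^ (8 * D + 1)) ≤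
        del / (2 * K) * (n * (c1 * (1 / Real.log n ^ (8 * D)))) :=
    eventually_all.2 fun l => hcast.eventually (ev_E2 hc1pos (by positivity) (by positivity)
      (by positivity) (L l).θ_ge (8 * D))
  have ev9 := hcast.eventually (ev_err (s := 0) (show 0 < del / (128 * K * wm) * c1 by (clear * - hdel hK hwm0 hc1pos; positivity))
    (show (0 : ℝ) < 2 * D by positivity) (8 * D) (by norm_num))
  have ev10 : ∀ᶠ n : ℕ in atTop, ∀ l : {k // k ∈ I}, Nc l ≤ n :=
    eventually_all.2 fun l => eventually_ge_atTop _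
  obtain ⟨N₂, hN₂⟩ := eventually_atTop.1 (ev1.and (ev2.and (ev3.and (ev4.and (ev5.and
    (ev6.and (ev7.and (ev8.and (ev9.and ev10)))))))))
  refine ⟨N₀ + NP + N₂ + 100000, fun n hn => ?_⟩
  obtain ⟨⟨n', hl1, hl2, hl3, hl4⟩, h2, h3, h4, h5, h6, h7, h8, h9, h10⟩ := hN₂ n (by omega)
  obtain ⟨hirr, hloc⟩ := hN₀ n (by omega)
  have hn5 : (100000 : ℝ) ≤ n := by exact_mod_cast (show 100000 ≤ n by omega)
  have hn0 : (0 : ℝ) < n := by linarith only [hn5]
  have hGdeg : (∏ k, lineRestrict (f k) n).natDegree ≤ D := by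
    refine (natDegree_prod_le _ _).trans ?_
    calc ∑ k : Fin m, (lineRestrict (f k) n).natDegree ≤ ∑ _k : Fin m, d :=
          Finset.sum_le_sum fun k _ => natDegree_lineRestrict_le (f k) n d (hdeg k)
      _ = D := by simp [hDdef]
  have hloc' : ∀ p : ℕ, p.Prime → ¬ ∀ x : ℤ, (p : ℤ) ∣ (∏ k, lineRestrict (f k) n).eval x :=
    fun p hp h => hloc p hp (fun x => by rw [← eval_prod]; exact h x)
  have hdens := dens_poly (∏ k, lineRestrict (f k) n) D (2 * D) hGdeg (by omega) hloc'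
  have hVge := W_ge hdens n' hl3
  rw [← hc1, show 4 * (2 * D) = 8 * D by ring] at hVge
  obtain ⟨z, hz⟩ : ∃ z : ℕ, z = 2 ^ (2 ^ (2 * D + n')) := ⟨_, rfl⟩
  have hzB : n ≤ (2 ^ (2 ^ (2 * D + n'))) ^ B0 := by
    rw [hB0]
    exact_mod_cast hl2
  have hP := hPP n (by omega) (2 ^ (2 ^ (2 * D + n'))) B0
    (⌊(n : ℝ) ^ (1 / (1000 * M) : ℝ)⌋₊ ^ M) hzB (by omega) (by rw [hcard]; omega)
  obtain ⟨P, Ex, hP1, hP2, hP3, hP4, hP5⟩ := hP
  have hlogn1 : 1 ≤ Real.log n := by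
    rw [Real.le_log_iff_exp_le hn0]
    linarith only [hn5, Real.exp_one_lt_d9]
  have hmain := main_n (D := D) (M := M) (m' := m') (B0 := B0) hD hK hm' hm'K hM f hcard
    (fun l : {k // k ∈ I} => (l : Fin m)) L hCf hGdeg hloc hn5 hl1 hzB hl3 (by omega) (by omega)
    (fun l => hNc l n (h10 l)) _ rfl hP1 hP2 hP3 hP4 hP5 h4 h5 h2 h3 h6
    (Vl := c1 * (1 / Real.log n ^ (8 * D))) (by (clear * - hc1pos hlogn1; positivity)) hVge h7 h8
  rw [← hwm] at hmain
  set V : ℝ := W (fun p => (om (fun p y => (p : ℤ) ∣ (∏ k, lineRestrict (f k) n).eval y) p : ℝ) / p)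
      (PK (2 * D) n') with hV
  set G := (Ioo 0 n).filter (fun x => Rgh f n (2 ^ (2 ^ (2 * D + n'))) x ∧ m' * del / 200 ≤
          ((univ.filter (fun l : {k // k ∈ I} =>
            (val (f (l : Fin m)) x ((n : ℤ) - x)).natAbs.Prime)).card : ℝ)) with hG
  set U := (Ioo 0 n).filter (fun x : ℕ => ∃ k, (lineRestrict (f k) n).eval (x : ℤ) ^ 2 - 1 = 0)
    with hU
  have hUc : U.card ≤ 2 * D := by
    rw [hDdef]
    exact card_unit_le f hdeg hirr (Ioo 0 n)
  have hsing : singV f n ≤ V := by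
    apply singV_le f n (2 * D) n' hloc
    have hf5 := (level_facts (θ := 1 / 4) le_rfl hn5 hl3).2.2.2.2
    have h11 : ((2 ^ (2 ^ (2 * D + n')) : ℕ) : ℝ) ≤ n := by
      refine hf5.trans ?_
      calc (n : ℝ) ^ (3 / 4 : ℝ) ≤ (n : ℝ) ^ (1 : ℝ) :=
            Real.rpow_le_rpow_of_exponent_le (by linarith only [hn5]) (by norm_num)
        _ = n := Real.rpow_one _
    exact_mod_cast h11
  set good := (Ioo 0 n).filter (fun x : ℕ =>
          1 / 10 ^ 21 * Real.log K ≤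
            ((I.filter (fun k => (val (f k) x ((n : ℤ) - x)).natAbs.Prime)).card : ℝ) ∧
          1 ≤ (I.filter (fun k => (val (f k) x ((n : ℤ) - x)).natAbs.Prime)).card ∧
          ∀ k, 1 < |val (f k) x ((n : ℤ) - x)| ∧
          (∀ p : ℕ, p.Prime → (p : ℤ) ∣ val (f k) x ((n : ℤ) - x) → n < p ^ B0) ∧
          ArithmeticFunction.cardFactors (val (f k) x ((n : ℤ) - x)).natAbs ≤ B0 * d) with hgood
  have hGsub : G ⊆ good ∪ U := by
    intro x hx
    rw [hG, Finset.mem_filter] at hx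
    obtain ⟨hxI, hxr, hxc⟩ := hx
    have hxI' := Finset.mem_Ioo.1 hxI
    by_cases hHx : ∃ k, (lineRestrict (f k) n).eval (x : ℤ) ^ 2 - 1 = 0
    · exact Finset.mem_union_right _ (Finset.mem_filter.2 ⟨hxI, hHx⟩)
    apply Finset.mem_union_left
    rw [hgood, Finset.mem_filter]
    rw [card_filter_sub I (fun k => (val (f k) x ((n : ℤ) - x)).natAbs.Prime)] at hxc
    refine ⟨hxI, (log_le_del hK hm'def).trans hxc, ?_, fun k => ?_⟩
    · have h11 : (0 : ℝ) < ((I.filter (fun k =>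
          (val (f k) x ((n : ℤ) - x)).natAbs.Prime)).card : ℝ) := by
        refine lt_of_lt_of_le ?_ hxc
        have : (0 : ℝ) < m' := by exact_mod_cast hm'
        positivity
      exact_mod_cast h11
    · exact good_of_rough f hCf (by omega) hzB hB01 hxI'.1 hxI'.2 hxr (fun k h => hHx ⟨k, h⟩) k
  have hGc : (G.card : ℝ) ≤ good.card + 2 * D := by
    have h11 := (Finset.card_le_card hGsub).trans (Finset.card_union_le _ _)
    have h12 : G.card ≤ good.card + 2 * D := by omega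
    exact_mod_cast h12
  have hset : {x : ℕ | 0 < x ∧ x < n ∧
          1 / 10 ^ 21 * Real.log K ≤
            ((I.filter (fun k => (val (f k) x ((n : ℤ) - x)).natAbs.Prime)).card : ℝ) ∧
          1 ≤ (I.filter (fun k => (val (f k) x ((n : ℤ) - x)).natAbs.Prime)).card ∧
          ∀ k, 1 < |val (f k) x ((n : ℤ) - x)| ∧
          (∀ p : ℕ, p.Prime → (p : ℤ) ∣ val (f k) x ((n : ℤ) - x) → n < p ^ B0) ∧
          ArithmeticFunction.cardFactors (val (f k) x ((n : ℤ) - x)).natAbs ≤ B0 * d} =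
      (good : Set ℕ) := by
    ext x
    rw [hgood]
    simp only [Set.mem_ofPred_eq, Finset.coe_filter, Finset.mem_Ioo, and_assoc]
  rw [hset, Set.ncard_coe_finset]
  set c' : ℝ := del / (128 * K * wm) with hc'
  have hc'0 : 0 < c' := by positivity
  have h11 : 2 * c' * (n * V) ≤ G.card := by
    have e1 : 2 * c' * (n * V) = n * V * (del / 64) / (K * wm) := by
      rw [hc']; field_simp; ring
    rw [e1, div_le_iff₀ (by positivity)]
    linarith only [hmain]
  have h12 : (2 * D : ℝ) ≤ c' * (n * V) := by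
    rw [Real.rpow_zero, mul_one] at h9
    refine h9.trans ?_
    calc (n : ℝ) * (c' * c1 * (1 / Real.log n ^ (8 * D))) =
          c' * (n * (c1 * (1 / Real.log n ^ (8 * D)))) := by ring
      _ ≤ _ := by
          apply mul_le_mul_of_nonneg_left _ hc'0.le
          exact mul_le_mul_of_nonneg_left hVge hn0.le
  have h13 : c' * (n * singV f n) ≤ c' * (n * V) :=
    mul_le_mul_of_nonneg_left (mul_le_mul_of_nonneg_left hsing hn0.le) hc'0.le
  linarith only [hGc, h11, h12, h13]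

end Pool.Agent.MT
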