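import Mathlib


set_option autoImplicit false
set_option linter.unusedSectionVars false

/-!
The estimate for a single large `n`.
-/

open Finset Polynomial

namespace Pool.Agent.MT


/-- counting the points at which many members are prime -/
lemma count_lower {ι α : Type} [Fintype ι] (Xs : Finset α) (w : α → ℝ)
    (hw0 : ∀ x ∈ Xs, 0 ≤ w x) (wmax : ℝ) (hwm : ∀ x ∈ Xs, w x ≤ wmax) (pr : ι → α → Prop)
    [∀ l, DecidablePred (pr l)] {τ σ ρ : ℝ} (hρ : 0 ≤ ρ)
    (hT : ∀ l, τ ≤ ∑ x ∈ Xs.filter (pr l), w x) (hS : ∑ x ∈ Xs, w x ≤ σ)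
    (h : ρ * σ ≤ Fintype.card ι * τ / 2) :
    Fintype.card ι * τ / 2 ≤ Fintype.card ι * wmax *
      ((Xs.filter (fun x => ρ ≤ ((univ.filter (fun l => pr l x)).card : ℝ))).card : ℝ) := by
  classical
  set G := Xs.filter (fun x => ρ ≤ ((univ.filter (fun l => pr l x)).card : ℝ)) with hG
  have h1 : Fintype.card ι * τ ≤ ∑ l, ∑ x ∈ Xs.filter (pr l), w x := by
    calc (Fintype.card ι : ℝ) * τ = ∑ _l : ι, τ := by
          rw [Finset.sum_const, nsmul_eq_mul, Finset.card_univ]
      _ ≤ _ := Finset.sum_le_sum fun l _ => hT l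
  have h2 : ∑ l, ∑ x ∈ Xs.filter (pr l), w x =
      ∑ x ∈ Xs, ((univ.filter (fun l => pr l x)).card : ℝ) * w x := by
    simp only [Finset.sum_filter]
    rw [Finset.sum_comm]
    apply Finset.sum_congr rfl
    intro x _
    rw [← Finset.sum_filter, Finset.sum_const, nsmul_eq_mul]
  have h3 : ∀ x ∈ Xs, ((univ.filter (fun l => pr l x)).card : ℝ) * w x ≤
      (if x ∈ G then (Fintype.card ι : ℝ) * wmax else 0) + ρ * w x := by
    intro x hx
    have hwx := hw0 x hx
    by_cases hxG : x ∈ G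
    · rw [if_pos hxG]
      have e1 : ((univ.filter (fun l => pr l x)).card : ℝ) ≤ Fintype.card ι := by
        exact_mod_cast Finset.card_le_univ _
      have e2 : ((univ.filter (fun l => pr l x)).card : ℝ) * w x ≤ Fintype.card ι * wmax :=
        mul_le_mul e1 (hwm x hx) hwx (Nat.cast_nonneg _)
      have e3 : 0 ≤ ρ * w x := mul_nonneg hρ hwx
      linarith
    · rw [if_neg hxG, zero_add]
      have e1 : ((univ.filter (fun l => pr l x)).card : ℝ) ≤ ρ := by
        by_contra hc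
        rw [not_le] at hc
        exact hxG (Finset.mem_filter.2 ⟨hx, hc.le⟩)
      exact mul_le_mul_of_nonneg_right e1 hwx
  have h4 := Finset.sum_le_sum h3
  rw [Finset.sum_add_distrib, ← Finset.sum_filter, Finset.sum_const, nsmul_eq_mul,
    ← Finset.mul_sum] at h4
  have h5 : Xs.filter (fun x => x ∈ G) = G := by
    rw [Finset.filter_mem_eq_inter, Finset.inter_eq_right]
    exact Finset.filter_subset _ _
  rw [h5] at h4
  have h6 : ρ * ∑ x ∈ Xs, w x ≤ ρ * σ := mul_le_mul_of_nonneg_left hS hρ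
  rw [h2] at h1
  linarith

/-- the absolute constant -/
noncomputable def del : ℝ := 1 / (1572864000 * 256000000)

lemma del_pos : 0 < del := by unfold del; norm_num

/-- the level of the weights -/
lemma size_y {n M D l z y : ℕ} (hM : 1 ≤ M) (hn5 : (100000 : ℝ) ≤ n)
    (hlev : (l : ℝ) ^ ((D + 1) * M) ≤ (n : ℝ) ^ (1 / 1000 : ℝ)) (hl : 1 ≤ l)
    (hzl : z ≤ l) (hy : y = ⌊(n : ℝ) ^ (1 / (1000 * M) : ℝ)⌋₊)
    (hlogn : 2000 * M * Real.log 2 ≤ Real.log n) :
    z ≤ y ∧ (y : ℝ) ^ M ≤ (n : ℝ) ^ (1 / 1000 : ℝ) ∧ Real.log n ≤ 2000 * M * Real.log y ∧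
      (l : ℝ) ^ (D + 1) ≤ (n : ℝ) ^ (1 / 1000 : ℝ) := by
  have hn0 : (0 : ℝ) < n := by linarith
  have hMr : (1 : ℝ) ≤ M := by exact_mod_cast hM
  have hl1 : (1 : ℝ) ≤ l := by exact_mod_cast hl
  set t : ℝ := (n : ℝ) ^ (1 / (1000 * M) : ℝ) with ht
  have ht0 : 0 < t := by positivity
  have htM : t ^ M = (n : ℝ) ^ (1 / 1000 : ℝ) := by
    rw [ht, ← Real.rpow_natCast, ← Real.rpow_mul hn0.le]
    congr 1
    field_simp
  have hlt : (l : ℝ) ≤ t := by
    have h1 : (l : ℝ) ^ M ≤ t ^ M := by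
      rw [htM]
      refine le_trans ?_ hlev
      apply pow_le_pow_right₀ hl1
      exact Nat.le_mul_of_pos_left M (by omega)
    exact le_of_pow_le_pow_left₀ (by omega) ht0.le h1
  have hly : l ≤ y := by
    rw [hy]
    exact Nat.le_floor hlt
  have hyt : (y : ℝ) ≤ t := by
    rw [hy]
    exact Nat.floor_le ht0.le
  have hty : t ≤ 2 * y := by
    have h1 : t < y + 1 := by
      rw [hy]
      exact Nat.lt_floor_add_one t
    have h2 : (1 : ℝ) ≤ y := by
      have : 1 ≤ y := hl.trans hly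
      exact_mod_cast this
    linarith
  refine ⟨hzl.trans hly, ?_, ?_, ?_⟩
  · rw [← htM]
    exact pow_le_pow_left₀ (Nat.cast_nonneg _) hyt M
  · have hy0 : (0 : ℝ) < y := by
      have : 1 ≤ y := hl.trans hly
      exact_mod_cast this
    have h1 := Real.log_le_log ht0 hty
    rw [Real.log_mul (by norm_num) hy0.ne', ht, Real.log_rpow hn0] at h1
    have h2 : Real.log n = 1000 * M * (1 / (1000 * M) * Real.log n) := by
      field_simp
    have h3 : 1000 * M * (1 / (1000 * M) * Real.log n) ≤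
        1000 * M * (Real.log 2 + Real.log y) := mul_le_mul_of_nonneg_left h1 (by positivity)
    rw [← h2] at h3
    linarith
  · refine le_trans ?_ hlev
    apply pow_le_pow_right₀ hl1
    exact Nat.le_mul_of_pos_right _ hM

end Pool.Agent.MT
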