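import Pool.Agent.Lib.MP_0da313_nt.MT.Orient
import Pool.Agent.Lib.MP_0da313_nt.MT.Defs
import Pool.Agent.Lib.MP_0da313_nt.BV.BvL

set_option autoImplicit false

/-!
From weighted sums over prime powers to primes; the sifted density of the family.
-/

open Finset Polynomial Filter

namespace Pool.Agent.MT

open Pool.Agent.MP89da58 Pool.Agent.BVall Pool.Agent.Lib.MP_0da313_nt

lemma sum_to_primes {lam X : ℝ} (hlam : 1 ≤ lam) (hX3 : 1 ≤ Real.log X) (hX0 : 0 < X)
    (S' : Finset ℕ) (hS' : ∀ N ∈ S', 1 ≤ N ∧ N ≤ ⌊3 * X⌋₊) (w : ℕ → ℝ) (hw : ∀ N, 0 ≤ w N)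
    {Wm : ℝ} (hWm : ∀ N, w N ≤ Wm) [DecidablePred fun N : ℕ => N.Prime ∧ OmL lam X N ≠ 0] :
    ∑ N ∈ S', (ArithmeticFunction.vonMangoldt N * OmL lam X N) * w N ≤
      (8 * Real.log (3 * X)) * ∑ N ∈ S'.filter (fun N : ℕ => N.Prime ∧ OmL lam X N ≠ 0), w N +
        16 * Real.sqrt (3 * X) * Real.log (3 * X) * Wm := by
  classical
  have hX1 : 1 ≤ X := by
    have h1 := (Real.le_log_iff_exp_le hX0).1 hX3
    have h2 := Real.one_le_exp (show (0 : ℝ) ≤ 1 by norm_num)
    linarith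
  have hlog3 : 0 < Real.log (3 * X) := Real.log_pos (by linarith)
  have hWm0 : 0 ≤ Wm := (hw 0).trans (hWm 0)
  have hnn : ∀ N, 0 ≤ (ArithmeticFunction.vonMangoldt N * OmL lam X N) * w N := fun N =>
    mul_nonneg (mul_nonneg ArithmeticFunction.vonMangoldt_nonneg (OmL_nonneg lam hX0.le N)) (hw N)
  set S1 := S'.filter (fun N : ℕ => N.Prime ∧ OmL lam X N ≠ 0) with hS1
  have h1 : ∑ N ∈ S', (ArithmeticFunction.vonMangoldt N * OmL lam X N) * w N ≤
      ∑ N ∈ S1, (ArithmeticFunction.vonMangoldt N * OmL lam X N) * w N +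
      ∑ N ∈ (Ioc 0 ⌊3 * X⌋₊).filter (fun N => ¬ N.Prime),
        (ArithmeticFunction.vonMangoldt N * OmL lam X N) * w N := by
    rw [← Finset.sum_filter_add_sum_filter_not S' (fun N : ℕ => N.Prime ∧ OmL lam X N ≠ 0)]
    apply add_le_add le_rfl
    rw [← Finset.sum_filter_add_sum_filter_not
      (S'.filter (fun N : ℕ => ¬ (N.Prime ∧ OmL lam X N ≠ 0))) (fun N : ℕ => N.Prime)]
    have h2 : ∑ N ∈ (S'.filter (fun N : ℕ => ¬ (N.Prime ∧ OmL lam X N ≠ 0))).filter
        (fun N : ℕ => N.Prime), (ArithmeticFunction.vonMangoldt N * OmL lam X N) * w N = 0 := by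
      apply Finset.sum_eq_zero
      intro N hN
      rw [Finset.mem_filter, Finset.mem_filter] at hN
      have h3 : OmL lam X N = 0 := by
        by_contra h4
        exact hN.1.2 ⟨hN.2, h4⟩
      rw [h3, mul_zero, zero_mul]
    rw [h2, zero_add]
    apply Finset.sum_le_sum_of_subset_of_nonneg
    · intro N hN
      rw [Finset.mem_filter, Finset.mem_filter] at hN
      have h3 := hS' N hN.1.1
      rw [Finset.mem_filter, Finset.mem_Ioc]
      exact ⟨⟨by omega, h3.2⟩, hN.2⟩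
    · intro N _ _
      exact hnn N
  have h2 : ∑ N ∈ S1, (ArithmeticFunction.vonMangoldt N * OmL lam X N) * w N ≤
      (8 * Real.log (3 * X)) * ∑ N ∈ S1, w N := by
    rw [Finset.mul_sum]
    apply Finset.sum_le_sum
    intro N hN
    rw [hS1, Finset.mem_filter] at hN
    obtain ⟨hNS, hNp, _⟩ := hN
    have h3 : (N : ℝ) ≤ 3 * X := (Nat.le_floor_iff (by positivity)).1 (hS' N hNS).2
    have hN0 : (0 : ℝ) < N := by exact_mod_cast hNp.pos
    have h4 : ArithmeticFunction.vonMangoldt N ≤ Real.log (3 * X) :=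
      ArithmeticFunction.vonMangoldt_le_log.trans (Real.log_le_log hN0 h3)
    apply mul_le_mul_of_nonneg_right _ (hw N)
    calc ArithmeticFunction.vonMangoldt N * OmL lam X N ≤ Real.log (3 * X) * 8 :=
          mul_le_mul h4 (OmL_le hlam hX0.le hX3 N) (OmL_nonneg lam hX0.le N) hlog3.le
      _ = _ := by ring
  have h3 : ∑ N ∈ (Ioc 0 ⌊3 * X⌋₊).filter (fun N => ¬ N.Prime),
        (ArithmeticFunction.vonMangoldt N * OmL lam X N) * w N ≤
        8 * Wm * (2 * Real.sqrt (3 * X) * Real.log (3 * X)) := by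
    have h4 := Chebyshev.psi_sub_theta_le (x := 3 * X) (by linarith)
    rw [Chebyshev.psi_sub_theta_eq_sum_not_prime] at h4
    refine le_trans ?_ (mul_le_mul_of_nonneg_left h4 (by positivity))
    rw [Finset.mul_sum]
    apply Finset.sum_le_sum
    intro N _
    have e1 := OmL_le hlam hX0.le hX3 N
    have e2 := OmL_nonneg lam hX0.le N
    have e3 := ArithmeticFunction.vonMangoldt_nonneg (n := N)
    calc (ArithmeticFunction.vonMangoldt N * OmL lam X N) * w N
        ≤ (ArithmeticFunction.vonMangoldt N * 8) * Wm :=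
          mul_le_mul (mul_le_mul_of_nonneg_left e1 e3) (hWm N) (hw N) (by positivity)
      _ = _ := by ring
  calc _ ≤ _ := h1
    _ ≤ (8 * Real.log (3 * X)) * ∑ N ∈ S1, w N +
        8 * Wm * (2 * Real.sqrt (3 * X) * Real.log (3 * X)) := add_le_add h2 h3
    _ = _ := by ring

open Classical in
/-- `V(z)` of the family dominates the full product -/
lemma singV_le {m : ℕ} (f : Fin m → MvPolynomial (Fin 2) ℤ) (n K n' : ℕ)
    (hloc : ∀ p : ℕ, p.Prime → ¬ ∀ x : ℤ, (p : ℤ) ∣ ∏ k, (lineRestrict (f k) n).eval x)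
    (hz : 2 ^ (2 ^ (K + n')) ≤ n) :
    singV f n ≤ W (fun p => (om (fun p y => (p : ℤ) ∣ (∏ k, lineRestrict (f k) n).eval y) p : ℝ) / p)
      (PK K n') := by
  have hom : ∀ p, om (fun p y => (p : ℤ) ∣ (∏ k, lineRestrict (f k) n).eval y) p =
      nroots f n p := by
    intro p
    unfold om nroots
    congr 1
    apply Finset.filter_congr
    intro r _
    show ((p : ℤ) ∣ (∏ k, lineRestrict (f k) n).eval (r : ℤ)) ↔ _
    rw [eval_prod]
    simp only [eval_lineRestrict]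
  have hlt : ∀ p : ℕ, p.Prime → nroots f n p < p := by
    intro p hp
    rw [← hom p]
    exact card_roots_mod_lt _ p hp (fun h => hloc p hp (fun x => by rw [← eval_prod]; exact h x))
  have h01 : ∀ p : ℕ, p.Prime → 0 ≤ 1 - (nroots f n p : ℝ) / p ∧
      1 - (nroots f n p : ℝ) / p ≤ 1 := by
    intro p hp
    have hp0 : (0 : ℝ) < p := by exact_mod_cast hp.pos
    have h1 : (nroots f n p : ℝ) / p ≤ 1 := by
      rw [div_le_one hp0]
      exact_mod_cast (hlt p hp).le
    have h2 : 0 ≤ (nroots f n p : ℝ) / p := by positivity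
    constructor <;> linarith
  unfold W singV
  have e1 : ∏ p ∈ PK K n', (1 - (om (fun p y => (p : ℤ) ∣
      (∏ k, lineRestrict (f k) n).eval y) p : ℝ) / p) =
      ∏ p ∈ PK K n', (1 - (nroots f n p : ℝ) / p) := by
    apply Finset.prod_congr rfl
    intro p _
    rw [hom]
  rw [e1, PK_eq]
  have hsub : (Icc 1 (2 ^ (2 ^ (K + n')))).filter Nat.Prime ⊆ (Icc 1 n).filter Nat.Prime := by
    intro p hp
    rw [Finset.mem_filter, Finset.mem_Icc] at hp ⊢
    exact ⟨⟨hp.1.1, hp.1.2.trans hz⟩, hp.2⟩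
  rw [← Finset.prod_sdiff hsub]
  have h3 : 0 ≤ ∏ p ∈ (Icc 1 (2 ^ (2 ^ (K + n')))).filter Nat.Prime,
      (1 - (nroots f n p : ℝ) / p) :=
    Finset.prod_nonneg fun p hp => (h01 p (Finset.mem_filter.1 hp).2).1
  have h4 : ∏ p ∈ (Icc 1 n).filter Nat.Prime \ (Icc 1 (2 ^ (2 ^ (K + n')))).filter Nat.Prime,
      (1 - (nroots f n p : ℝ) / p) ≤ 1 := by
    apply Finset.prod_le_one
    · intro p hp
      exact (h01 p (Finset.mem_filter.1 (Finset.mem_sdiff.1 hp).1).2).1
    · intro p hp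
      exact (h01 p (Finset.mem_filter.1 (Finset.mem_sdiff.1 hp).1).2).2
  nlinarith

end Pool.Agent.MT
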