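import Pool.Agent.Lib.MP_89da58_nt.FinalPrime

set_option autoImplicit false
set_option linter.unusedSectionVars false

/-!
Expansion of the square of the sieve sum for general local conditions.
-/

open Finset

namespace Pool.Agent.MT

open Pool.Agent.MP89da58

variable {ι : Type} [Fintype ι] [DecidableEq ι] {J : Type} [Fintype J] [DecidableEq J]

/-- `y` satisfies all the local conditions prescribed by `α`. -/
def dvI (D : J → ι → ℤ → Prop) (y : ℤ) (α : J → Option ι) : Prop :=
  ∀ j l, α j = some l → D j l y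

open Classical in
/-- The sieve sum at `y`. -/
noncomputable def ZI (D : J → ι → ℤ → Prop) (lam : (J → Option ι) → ℝ) (y : ℤ) : ℝ :=
  ∑ α : J → Option ι, if dvI D y α then lam α else 0

theorem dvI_and_iff (D : J → ι → ℤ → Prop) (y : ℤ) (α β : J → Option ι)
    (hc : compat α β) :
    (dvI D y α ∧ dvI D y β) ↔ dvI D y (join α β) := by
  constructor
  · rintro ⟨h1, h2⟩ j l hl
    rcases hα : α j with _ | a
    · apply h2
      simp only [join, hα, Option.orElse_none] at hl
      exact hl
    · apply h1
      simp only [join, hα, Option.orElse_some] at hl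
      rw [hα]
      exact hl
  · intro h1
    constructor
    · intro j l hl
      apply h1
      simp only [join, hl, Option.orElse_some]
    · intro j l hl
      apply h1
      rcases hc j with h2 | h2 | h2
      · simp only [join, h2, Option.orElse_none]
        exact hl
      · rw [hl] at h2
        exact absurd h2 (by simp)
      · rw [hl] at h2
        simp only [join, h2, Option.orElse_some]

open Classical in
/-- Expansion of the square, with error terms. -/
theorem quad_expandI (D : J → ι → ℤ → Prop)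
    (hcop : ∀ j l l' y, l ≠ l' → ¬ (D j l y ∧ D j l' y))
    (x : J → ℝ) (lam : (J → Option ι) → ℝ) {X : Type} (s : Finset X) (Y : X → ℤ) (ω : X → ℝ)
    (M : ℝ) (e : (J → Option ι) → ℝ)
    (he : ∀ α β : J → Option ι, lam α ≠ 0 → lam β ≠ 0 → compat α β →
      |(∑ n ∈ s, if dvI D (Y n) (join α β) then ω n else 0) - M * pw x (supp (join α β))| ≤
        e (join α β)) :
    |(∑ n ∈ s, ω n * ZI D lam (Y n) ^ 2) - M * bil x lam lam| ≤
      ∑ α : J → Option ι, ∑ β : J → Option ι,
        if lam α ≠ 0 ∧ lam β ≠ 0 ∧ compat α β then |lam α| * |lam β| * e (join α β) else 0 := by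
  have h1 : ∑ n ∈ s, ω n * ZI D lam (Y n) ^ 2 = ∑ α : J → Option ι, ∑ β : J → Option ι,
      lam α * lam β * ∑ n ∈ s, if dvI D (Y n) α ∧ dvI D (Y n) β then ω n else 0 := by
    have h2 : ∀ n ∈ s, ω n * ZI D lam (Y n) ^ 2 = ∑ α : J → Option ι, ∑ β : J → Option ι,
        lam α * lam β * (if dvI D (Y n) α ∧ dvI D (Y n) β then ω n else 0) := by
      intro n _
      unfold ZI
      rw [pow_two, Finset.sum_mul_sum, Finset.mul_sum]
      apply Finset.sum_congr rfl
      intro α _
      rw [Finset.mul_sum]
      apply Finset.sum_congr rfl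
      intro β _
      by_cases ha : dvI D (Y n) α
      · by_cases hb : dvI D (Y n) β
        · simp only [ha, hb, if_true, and_self]; ring
        · simp only [ha, hb, if_true, if_false, and_false]; ring
      · simp only [ha, if_false, false_and]; ring
    rw [Finset.sum_congr rfl h2, Finset.sum_comm]
    apply Finset.sum_congr rfl
    intro α _
    rw [Finset.sum_comm]
    apply Finset.sum_congr rfl
    intro β _
    rw [Finset.mul_sum]
  rw [h1]
  unfold bil
  rw [Finset.mul_sum, ← Finset.sum_sub_distrib]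
  refine (Finset.abs_sum_le_sum_abs _ _).trans (Finset.sum_le_sum fun α _ => ?_)
  rw [Finset.mul_sum, ← Finset.sum_sub_distrib]
  refine (Finset.abs_sum_le_sum_abs _ _).trans (Finset.sum_le_sum fun β _ => ?_)
  by_cases hc : compat α β
  · rw [prod_kap_compat x α β hc]
    have h3 : (∑ n ∈ s, if dvI D (Y n) α ∧ dvI D (Y n) β then ω n else 0) =
        ∑ n ∈ s, if dvI D (Y n) (join α β) then ω n else 0 := by
      apply Finset.sum_congr rfl
      intro n _
      simp only [dvI_and_iff D (Y n) α β hc]
    rw [h3]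
    by_cases hα : lam α = 0
    · simp [hα]
    · by_cases hβ : lam β = 0
      · simp [hβ]
      · rw [if_pos ⟨hα, hβ, hc⟩]
        have h4 := he α β hα hβ hc
        calc |lam α * lam β * (∑ n ∈ s, if dvI D (Y n) (join α β) then ω n else 0) -
              M * (lam α * lam β * pw x (supp (join α β)))|
            = |lam α| * |lam β| * |(∑ n ∈ s, if dvI D (Y n) (join α β) then ω n else 0) -
                M * pw x (supp (join α β))| := by
              rw [← abs_mul, ← abs_mul]
              congr 1
              ring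
          _ ≤ |lam α| * |lam β| * e (join α β) := mul_le_mul_of_nonneg_left h4 (by positivity)
  · rw [prod_kap_not_compat x α β hc]
    have h3 : (∑ n ∈ s, if dvI D (Y n) α ∧ dvI D (Y n) β then ω n else 0) = 0 := by
      apply Finset.sum_eq_zero
      intro n _
      rw [if_neg]
      rintro ⟨ha, hb⟩
      unfold compat at hc
      rw [not_forall] at hc
      obtain ⟨j, hj⟩ := hc
      rw [not_or, not_or] at hj
      obtain ⟨h1, h2, h3⟩ := hj
      obtain ⟨a, ha'⟩ := Option.ne_none_iff_exists'.mp h1
      obtain ⟨b, hb'⟩ := Option.ne_none_iff_exists'.mp h2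
      have hab : a ≠ b := by
        rintro rfl
        exact h3 (by rw [ha', hb'])
      exact hcop j a b (Y n) hab ⟨ha j a ha', hb j b hb'⟩
    rw [h3, if_neg (by tauto)]
    simp

open Classical in
/-- Bound for the error term of the expansion. -/
theorem err_sum_leI (p : J → ℕ) (hp1 : ∀ j, 1 ≤ p j) (lam : (J → Option ι) → ℝ) (B : ℝ) (Y : ℕ)
    (hB : ∀ α, |lam α| ≤ B)
    (hs : ∀ α, lam α ≠ 0 → nn p (supp α) ≤ Y)
    (E : Finset J → ℝ) (hE : ∀ a, 0 ≤ E a) :
    (∑ α : J → Option ι, ∑ β : J → Option ι,
      if lam α ≠ 0 ∧ lam β ≠ 0 ∧ compat α β then |lam α| * |lam β| *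
        E (supp (join α β)) else 0) ≤
    B ^ 2 * ∑ a ∈ (Finset.univ : Finset (Finset J)).filter (fun a => nn p a ≤ Y * Y),
      ((3 * Fintype.card ι : ℕ) : ℝ) ^ a.card * E a := by
  have hB0 : 0 ≤ B := le_trans (abs_nonneg _) (hB (fun _ => none))
  set P : Finset ((J → Option ι) × (J → Option ι)) := Finset.univ.filter
    (fun ab => lam ab.1 ≠ 0 ∧ lam ab.2 ≠ 0 ∧ compat ab.1 ab.2) with hP
  set Q : (J → Option ι) × (J → Option ι) → Finset J :=
    fun ab => supp (join ab.1 ab.2) with hQ
  have h1 : (∑ α : J → Option ι, ∑ β : J → Option ι,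
      if lam α ≠ 0 ∧ lam β ≠ 0 ∧ compat α β then |lam α| * |lam β| *
        E (supp (join α β)) else 0) ≤
      ∑ ab ∈ P, B ^ 2 * E (Q ab) := by
    rw [hP, Finset.sum_filter, Fintype.sum_prod_type]
    refine Finset.sum_le_sum fun α _ => Finset.sum_le_sum fun β _ => ?_
    simp only [hQ]
    split_ifs with hc
    · refine mul_le_mul_of_nonneg_right ?_ (hE _)
      rw [pow_two]
      exact mul_le_mul (hB α) (hB β) (abs_nonneg _) hB0
    · exact le_rfl
  refine le_trans h1 ?_
  rw [← Finset.mul_sum]
  refine mul_le_mul_of_nonneg_left ?_ (by positivity)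
  have hmaps : ∀ ab ∈ P, Q ab ∈
      (Finset.univ : Finset (Finset J)).filter (fun a => nn p a ≤ Y * Y) := by
    intro ab hab
    rw [hP, Finset.mem_filter] at hab
    obtain ⟨_, ha, hb, _⟩ := hab
    rw [Finset.mem_filter]
    refine ⟨Finset.mem_univ _, ?_⟩
    simp only [hQ]
    rw [supp_join]
    exact le_trans (nn_union_le hp1 _ _) (Nat.mul_le_mul (hs _ ha) (hs _ hb))
  rw [← Finset.sum_fiberwise_of_maps_to hmaps]
  refine Finset.sum_le_sum fun q _ => ?_
  have h2 : ∑ ab ∈ P.filter (fun ab => Q ab = q), E (Q ab) =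
      ((P.filter (fun ab => Q ab = q)).card : ℝ) * E q := by
    rw [← nsmul_eq_mul, ← Finset.sum_const]
    refine Finset.sum_congr rfl fun ab hab => ?_
    rw [(Finset.mem_filter.mp hab).2]
  rw [h2]
  refine mul_le_mul_of_nonneg_right ?_ (hE q)
  have h6 : (P.filter (fun ab => Q ab = q)).card ≤ (3 * Fintype.card ι) ^ q.card := by
    refine le_trans (Finset.card_le_card ?_) (card_pairs_le q)
    intro ab hab
    rw [Finset.mem_filter] at hab
    obtain ⟨hab1, hab2⟩ := hab
    rw [hP, Finset.mem_filter] at hab1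
    rw [Finset.mem_filter]
    exact ⟨Finset.mem_univ _, hab1.2.2.2, hab2⟩
  exact_mod_cast h6

end Pool.Agent.MT
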