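import Pool.Agent.Lib.MP_0da313_nt.MT.MkG
import Pool.Agent.Lib.MP_0da313_nt.MT.ExpandI
import Pool.Agent.Lib.MP_0da313_nt.BV.Classes

set_option autoImplicit false
set_option linter.unusedSectionVars false

/-!
Combination of the presieve with the sieve weights: local conditions.
-/

open Finset

namespace Pool.Agent.MT

open Pool.Agent.MP89da58 Pool.Agent.BVall Pool.Agent.Lib.MP_0da313_nt

variable {ι : Type} [Fintype ι] [DecidableEq ι]

/-- the combined local condition -/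
def Qc {P : Finset ℕ} (D : PJf P → ι → ℤ → Prop) (Q : ℕ → ℤ → Prop) (γ : PJf P → Option ι)
    (p : ℕ) (y : ℤ) : Prop :=
  (∃ h : p ∈ P, ∃ l, γ ⟨p, h⟩ = some l ∧ D ⟨p, h⟩ l y) ∨ (p ∉ P ∧ Q p y)

variable {P : Finset ℕ} {D : PJf P → ι → ℤ → Prop} {Q : ℕ → ℤ → Prop} {γ : PJf P → Option ι}

lemma Qc_not_mem {p : ℕ} (hp : p ∉ P) (y : ℤ) : Qc D Q γ p y ↔ Q p y := by
  unfold Qc
  constructor
  · rintro (⟨h, _⟩ | h)
    · exact absurd h hp
    · exact h.2
  · intro h
    exact Or.inr ⟨hp, h⟩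

lemma Qc_mem (j : PJf P) {l : ι} (hl : γ j = some l) (y : ℤ) : Qc D Q γ (j : ℕ) y ↔ D j l y := by
  unfold Qc
  constructor
  · rintro (⟨h, l', h1, h2⟩ | h)
    · have : γ j = some l' := h1
      rw [hl] at this
      cases this
      exact h2
    · exact absurd j.2 h.1
  · intro h
    exact Or.inl ⟨j.2, l, hl, h⟩

/-- the support as a set of primes -/
def sp (γ : PJf P → Option ι) : Finset ℕ := (supp γ).map (Function.Embedding.subtype _)

lemma sp_subset (γ : PJf P → Option ι) : sp γ ⊆ P := Finset.map_subtype_subset _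

lemma disj_sp {T : Finset ℕ} (hT : Disjoint T P) (γ : PJf P → Option ι) : Disjoint T (sp γ) :=
  hT.mono_right (sp_subset γ)

open Classical in
lemma prod_Qc {T : Finset ℕ} (hT : Disjoint T P) (y : ℤ) :
    ∏ p ∈ T ∪ sp γ, (if Qc D Q γ p y then (1 : ℝ) else 0) =
      (∏ p ∈ T, if Q p y then (1 : ℝ) else 0) * (if dvI D y γ then 1 else 0) := by
  rw [Finset.prod_union (disj_sp hT γ)]
  congr 1
  · apply Finset.prod_congr rfl
    intro p hp
    have h1 : p ∉ P := fun h => (Finset.disjoint_left.1 hT) hp h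
    simp only [Qc_not_mem h1]
  · unfold sp
    rw [Finset.prod_map, Finset.prod_ite_zero, Finset.prod_const_one]
    have key : (∀ j ∈ supp γ, Qc D Q γ ((Function.Embedding.subtype (· ∈ P)) j) y) ↔
        dvI D y γ := by
      constructor
      · intro h j l hl
        have h1 := h j (mem_supp.2 (by rw [hl]; simp))
        exact (Qc_mem j hl y).1 h1
      · intro h j hj
        obtain ⟨l, hl⟩ := Option.ne_none_iff_exists'.1 (mem_supp.1 hj)
        exact (Qc_mem j hl y).2 (h j l hl)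
    simp only [key]

lemma prod_sp (T : Finset ℕ) (hT : Disjoint T P) (f : ℕ → ℝ) :
    ∏ p ∈ T ∪ sp γ, f p = (∏ p ∈ T, f p) * ∏ j ∈ supp γ, f (j : ℕ) := by
  rw [Finset.prod_union (disj_sp hT γ)]
  congr 1
  unfold sp
  rw [Finset.prod_map]
  rfl

lemma card_sp (T : Finset ℕ) (hT : Disjoint T P) :
    (T ∪ sp γ).card = T.card + (supp γ).card := by
  rw [Finset.card_union_of_disjoint (disj_sp hT γ)]
  unfold sp
  rw [Finset.card_map]

lemma prodn_sp (T : Finset ℕ) (hT : Disjoint T P) :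
    ∏ p ∈ T ∪ sp γ, p = (∏ p ∈ T, p) * nn (fun j : PJf P => (j : ℕ)) (supp γ) := by
  rw [Finset.prod_union (disj_sp hT γ)]
  congr 1
  unfold sp nn
  rw [Finset.prod_map]
  rfl

/-- the conditions on the local data of the weights -/
structure LocD (P : Finset ℕ) (D : PJf P → ι → ℤ → Prop) (I : ι → Prop) : Prop where
  per : ∀ (j : PJf P) (l : ι) (x y : ℤ), ((j : ℕ) : ℤ) ∣ x - y → (D j l x ↔ D j l y)
  one : ∀ (j : PJf P) (l : ι), I l → ∃ r : ℕ, r < (j : ℕ) ∧
    ∀ s : ℕ, s < (j : ℕ) → (D j l (s : ℤ) ↔ s = r)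

lemma Qc_per {I : ι → Prop} (hD : LocD P D I)
    (hQ : ∀ (p : ℕ) (x y : ℤ), (p : ℤ) ∣ x - y → (Q p x ↔ Q p y))
    (p : ℕ) (x y : ℤ) (h : (p : ℤ) ∣ x - y) : Qc D Q γ p x ↔ Qc D Q γ p y := by
  by_cases hp : p ∈ P
  · unfold Qc
    constructor
    · rintro (⟨h1, l, h2, h3⟩ | h1)
      · exact Or.inl ⟨h1, l, h2, (hD.per ⟨p, hp⟩ l x y h).1 h3⟩
      · exact absurd hp h1.1
    · rintro (⟨h1, l, h2, h3⟩ | h1)
      · exact Or.inl ⟨h1, l, h2, (hD.per ⟨p, hp⟩ l x y h).2 h3⟩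
      · exact absurd hp h1.1
  · rw [Qc_not_mem hp, Qc_not_mem hp]
    exact hQ p x y h

open Classical in
/-- number of classes of the combined condition, at a prime of the support -/
lemma om_Qc_mem {I : ι → Prop} (hD : LocD P D I) (j : PJf P) {l : ι} (hl : γ j = some l)
    (hI : I l) : om (Qc D Q γ) (j : ℕ) = 1 := by
  obtain ⟨r, hr, h⟩ := hD.one j l hI
  unfold om
  rw [Finset.card_eq_one]
  refine ⟨r, ?_⟩
  ext s
  rw [Finset.mem_filter, Finset.mem_range, Finset.mem_singleton, Qc_mem j hl]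
  constructor
  · rintro ⟨h1, h2⟩
    exact (h s h1).1 h2
  · rintro rfl
    exact ⟨hr, (h _ hr).2 rfl⟩

open Classical in
lemma om_Qc_not_mem {p : ℕ} (hp : p ∉ P) : om (Qc D Q γ) p = om Q p := by
  unfold om
  congr 1
  apply Finset.filter_congr
  intro ρ _
  exact Qc_not_mem hp _

end Pool.Agent.MT
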