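import Pool.Agent.Lib.MP_0da313_nt.MT.Core

set_option autoImplicit false
set_option linter.unusedSectionVars false

/-!
Many linear members simultaneously prime.
-/

open Finset Polynomial Filter

namespace Pool.Agent.MT

open Pool.Agent.MP89da58 Pool.Agent.BVall Pool.Agent.Lib.MP_0da313_nt

theorem dense (m d : ℕ) (hm : 1 ≤ m) (hd : 1 ≤ d) :
    ∃ (B : ℕ) (c : ℝ), 0 < c ∧ ∀ (f : Fin m → MvPolynomial (Fin 2) ℤ),
      (∀ k, (f k).totalDegree ≤ d) → Admissible f → ∀ I : Finset (Fin m), I.Nonempty →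
      (∀ k ∈ I, (f k).totalDegree ≤ 1) →
      (∀ k ∈ I, ∀ l ∈ I, k ≠ l → f k ≠ f l ∧ f k ≠ - f l) →
      ∃ N : ℕ, ∀ n : ℕ, N ≤ n → c * (n * singV f n) ≤
        (Set.ncard {x : ℕ | 0 < x ∧ x < n ∧
          1 / 10 ^ 21 * Real.log I.card ≤
            ((I.filter (fun k => (val (f k) x ((n : ℤ) - x)).natAbs.Prime)).card : ℝ) ∧
          1 ≤ (I.filter (fun k => (val (f k) x ((n : ℤ) - x)).natAbs.Prime)).card ∧
          ∀ k, 1 < |val (f k) x ((n : ℤ) - x)| ∧
          (∀ p : ℕ, p.Prime → (p : ℤ) ∣ val (f k) x ((n : ℤ) - x) → n < p ^ B) ∧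
          ArithmeticFunction.cardFactors (val (f k) x ((n : ℤ) - x)).natAbs ≤ B * d} : ℝ) := by
  classical
  have hcore : ∀ K : ℕ, ∃ (B : ℕ) (c' : ℝ), 0 < c' ∧ (2 ≤ K →
      ∀ (f : Fin m → MvPolynomial (Fin 2) ℤ),
      (∀ k, (f k).totalDegree ≤ d) → Admissible f → ∀ I : Finset (Fin m), I.card = K →
      (∀ k ∈ I, (f k).totalDegree ≤ 1) →
      (∀ k ∈ I, ∀ l ∈ I, k ≠ l → f k ≠ f l ∧ f k ≠ - f l) →
      ∃ N : ℕ, ∀ n : ℕ, N ≤ n → c' * (n * singV f n) ≤
        (Set.ncard {x : ℕ | 0 < x ∧ x < n ∧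
          1 / 10 ^ 21 * Real.log K ≤
            ((I.filter (fun k => (val (f k) x ((n : ℤ) - x)).natAbs.Prime)).card : ℝ) ∧
          1 ≤ (I.filter (fun k => (val (f k) x ((n : ℤ) - x)).natAbs.Prime)).card ∧
          ∀ k, 1 < |val (f k) x ((n : ℤ) - x)| ∧
          (∀ p : ℕ, p.Prime → (p : ℤ) ∣ val (f k) x ((n : ℤ) - x) → n < p ^ B) ∧
          ArithmeticFunction.cardFactors (val (f k) x ((n : ℤ) - x)).natAbs ≤ B * d} : ℝ)) := by
    intro K
    by_cases hK : 2 ≤ K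
    · obtain ⟨B, c', h1, h2⟩ := core m d K hm hd hK
      exact ⟨B, c', h1, fun _ => h2⟩
    · exact ⟨0, 1, one_pos, fun h => absurd h hK⟩
  choose Bf cf hcf0 hcf using hcore
  obtain ⟨B, hB⟩ : ∃ B, B = ∑ K ∈ range (m + 1), Bf K + 16000 * (m * d) := ⟨_, rfl⟩
  have hc1 : (0 : ℝ) < 1 / (10 ^ 10 * (m * d)) := by
    have h1 : (0 : ℝ) < m := by exact_mod_cast hm
    have h2 : (0 : ℝ) < d := by exact_mod_cast hd
    positivity
  obtain ⟨c, hc⟩ : ∃ c : ℝ, 0 < c ∧ c ≤ 1 / (10 ^ 10 * (m * d)) ∧ ∀ K ∈ range (m + 1), c ≤ cf K := by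
    have h1 : ∀ s : Finset ℕ, ∃ c : ℝ, 0 < c ∧ c ≤ 1 / (10 ^ 10 * (m * d)) ∧
        ∀ K ∈ s, c ≤ cf K := by
      intro s
      induction s using Finset.induction_on with
      | empty => exact ⟨1 / (10 ^ 10 * (m * d)), hc1, le_rfl, fun K hK => absurd hK (by simp)⟩
      | insert a s _ ih =>
        obtain ⟨c, h2, h3, h4⟩ := ih
        refine ⟨min c (cf a), lt_min h2 (hcf0 a), (min_le_left _ _).trans h3, ?_⟩
        intro K hK
        rw [Finset.mem_insert] at hK
        rcases hK with h | h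
        · rw [h]; exact min_le_right _ _
        · exact (min_le_left _ _).trans (h4 K h)
    exact h1 _
  obtain ⟨hc0, hcle1, hcle⟩ := hc
  refine ⟨B, c, hc0, ?_⟩
  intro f hdeg hf I hI hlin hne
  have hIm : I.card ≤ m := by
    have := Finset.card_le_univ I
    rwa [Fintype.card_fin] at this
  have hfin : ∀ (n : ℕ) (Q : ℕ → Prop), {x : ℕ | 0 < x ∧ x < n ∧ Q x}.Finite := by
    intro n Q
    exact (Set.finite_lt_nat n).subset (fun x hx => hx.2.1)
  have hsing0 : ∀ n : ℕ, (∀ p : ℕ, p.Prime → ¬ ∀ x : ℤ, (p : ℤ) ∣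
      ∏ k, (lineRestrict (f k) n).eval x) → 0 ≤ (n : ℝ) * singV f n := by
    intro n hloc
    apply mul_nonneg (Nat.cast_nonneg _)
    unfold singV
    apply Finset.prod_nonneg
    intro p hp
    have hpp := (Finset.mem_filter.1 hp).2
    have hp0 : (0 : ℝ) < p := by exact_mod_cast hpp.pos
    have h1 : nroots f n p ≤ p := by
      unfold nroots
      refine (Finset.card_filter_le _ _).trans ?_
      rw [Finset.card_range]
    have h2 : (nroots f n p : ℝ) / p ≤ 1 := by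
      rw [div_le_one hp0]
      exact_mod_cast h1
    linarith
  have hf' := hf
  obtain ⟨N₀, hN₀⟩ := hf'
  by_cases hK : 2 ≤ I.card
  · have hKm : I.card ∈ range (m + 1) := by rw [Finset.mem_range]; omega
    obtain ⟨N, hN⟩ := hcf I.card hK f hdeg hf I rfl hlin hne
    refine ⟨N + N₀, fun n hn => ?_⟩
    have h1 := hN n (by omega)
    have h2 := hsing0 n (hN₀ n (by omega)).2
    have h3 : c * (n * singV f n) ≤ cf I.card * (n * singV f n) :=
      mul_le_mul_of_nonneg_right (hcle _ hKm) h2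
    refine h3.trans (h1.trans ?_)
    have hBle : Bf I.card ≤ B := by
      have := Finset.single_le_sum (f := Bf) (fun i _ => Nat.zero_le _) hKm
      omega
    have h4 := Set.ncard_le_ncard (s := {x : ℕ | 0 < x ∧ x < n ∧
          1 / 10 ^ 21 * Real.log I.card ≤
            ((I.filter (fun k => (val (f k) x ((n : ℤ) - x)).natAbs.Prime)).card : ℝ) ∧
          1 ≤ (I.filter (fun k => (val (f k) x ((n : ℤ) - x)).natAbs.Prime)).card ∧
          ∀ k, 1 < |val (f k) x ((n : ℤ) - x)| ∧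
          (∀ p : ℕ, p.Prime → (p : ℤ) ∣ val (f k) x ((n : ℤ) - x) → n < p ^ Bf I.card) ∧
          ArithmeticFunction.cardFactors (val (f k) x ((n : ℤ) - x)).natAbs ≤ Bf I.card * d})
          (t := {x : ℕ | 0 < x ∧ x < n ∧
          1 / 10 ^ 21 * Real.log I.card ≤
            ((I.filter (fun k => (val (f k) x ((n : ℤ) - x)).natAbs.Prime)).card : ℝ) ∧
          1 ≤ (I.filter (fun k => (val (f k) x ((n : ℤ) - x)).natAbs.Prime)).card ∧
          ∀ k, 1 < |val (f k) x ((n : ℤ) - x)| ∧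
          (∀ p : ℕ, p.Prime → (p : ℤ) ∣ val (f k) x ((n : ℤ) - x) → n < p ^ B) ∧
          ArithmeticFunction.cardFactors (val (f k) x ((n : ℤ) - x)).natAbs ≤ B * d})
          (by
            rintro x ⟨g1, g2, g3, g4, g5⟩
            refine ⟨g1, g2, g3, g4, fun k => ⟨(g5 k).1, fun p hp hd => ?_, ?_⟩⟩
            · exact ((g5 k).2.1 p hp hd).trans_le (Nat.pow_le_pow_right hp.pos hBle)
            · exact (g5 k).2.2.trans (Nat.mul_le_mul_right d hBle)) (hfin n _)
    exact_mod_cast h4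
  · have hI1 : I.card = 1 := by
      have := Finset.card_pos.2 hI
      omega
    obtain ⟨k₀, hk₀⟩ := Finset.card_eq_one.1 hI1
    have hk₀I : k₀ ∈ I := by rw [hk₀]; exact Finset.mem_singleton_self _
    obtain ⟨N, hN⟩ := prime_value_sharp m d hm hd f hdeg hf k₀ (hlin k₀ hk₀I)
    refine ⟨N + N₀, fun n hn => ?_⟩
    have h1 := hN n (by omega)
    have h2 := hsing0 n (hN₀ n (by omega)).2
    have h3 : c * (n * singV f n) ≤ (n : ℝ) * singV f n / (10 ^ 10 * (m * d)) := by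
      rw [div_eq_mul_one_div, mul_comm]
      exact mul_le_mul_of_nonneg_left hcle1 h2
    refine h3.trans (h1.trans ?_)
    have hBle : 16000 * (m * d) ≤ B := by omega
    have h4 := Set.ncard_le_ncard (s := {x : ℕ | 0 < x ∧ x < n ∧
          (val (f k₀) x ((n : ℤ) - x)).natAbs.Prime ∧
          ∀ k, 1 < |val (f k) x ((n : ℤ) - x)| ∧
          (∀ p : ℕ, p.Prime → (p : ℤ) ∣ val (f k) x ((n : ℤ) - x) → n < p ^ (16000 * (m * d))) ∧
          ArithmeticFunction.cardFactors (val (f k) x ((n : ℤ) - x)).natAbs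
            ≤ 16000 * (m * d) * d})
          (t := {x : ℕ | 0 < x ∧ x < n ∧
          1 / 10 ^ 21 * Real.log I.card ≤
            ((I.filter (fun k => (val (f k) x ((n : ℤ) - x)).natAbs.Prime)).card : ℝ) ∧
          1 ≤ (I.filter (fun k => (val (f k) x ((n : ℤ) - x)).natAbs.Prime)).card ∧
          ∀ k, 1 < |val (f k) x ((n : ℤ) - x)| ∧
          (∀ p : ℕ, p.Prime → (p : ℤ) ∣ val (f k) x ((n : ℤ) - x) → n < p ^ B) ∧
          ArithmeticFunction.cardFactors (val (f k) x ((n : ℤ) - x)).natAbs ≤ B * d})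
          (by
            rintro x ⟨g1, g2, g3, g5⟩
            refine ⟨g1, g2, ?_, ?_, fun k => ⟨(g5 k).1, fun p hp hd => ?_, ?_⟩⟩
            · rw [hI1, Nat.cast_one, Real.log_one, mul_zero]
              exact Nat.cast_nonneg _
            · apply Finset.card_pos.2
              exact ⟨k₀, Finset.mem_filter.2 ⟨hk₀I, g3⟩⟩
            · exact ((g5 k).2.1 p hp hd).trans_le (Nat.pow_le_pow_right hp.pos hBle)
            · exact (g5 k).2.2.trans (Nat.mul_le_mul_right d hBle)) (hfin n _)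
    exact_mod_cast h4

end Pool.Agent.MT
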