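import Pool.Agent.Lib.MP_0da313_nt.MT.Comb
import Pool.Agent.Lib.MP_0da313_nt.BV.Hooley

set_option autoImplicit false
set_option linter.unusedSectionVars false

/-!
Upper bound for the sieved quadratic sum over all integers.
-/

open Finset

namespace Pool.Agent.MT

open Pool.Agent.MP89da58 Pool.Agent.BVall Pool.Agent.Lib.MP_0da313_nt

variable {ι : Type} [Fintype ι] [DecidableEq ι]
variable {P : Finset ℕ} {D : PJf P → ι → ℤ → Prop} {Q : ℕ → ℤ → Prop}

open Classical in
theorem S1_bound (hP : ∀ p ∈ P, p.Prime) (K n : ℕ) (hPK : Disjoint (PK K n) P)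
    (hD : LocD P D (fun _ => True))
    (hcop : ∀ (j : PJf P) (l l' : ι) (y : ℤ), l ≠ l' → ¬ (D j l y ∧ D j l' y))
    (hQ : ∀ (p : ℕ) (x y : ℤ), (p : ℤ) ∣ x - y → (Q p x ↔ Q p y)) (K0 : ℕ)
    (hK0 : ∀ p : ℕ, p.Prime → om Q p ≤ K0) (lam : (PJf P → Option ι) → ℝ) (X : ℕ) :
    |∑ x ∈ Ico 1 (1 + X), YK K n (fun p => if Q p (x : ℤ) then (1 : ℝ) else 0) *
        ZI D lam (x : ℤ) ^ 2 -
      (X * YK K n (fun p => (om Q p : ℝ) / p)) * bil (fun j : PJf P => 1 / ((j : ℕ) : ℝ)) lam lam| ≤
      (∑ α, |lam α|) ^ 2 *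
        ∑ T ∈ (PK K n).powerset.filter (fun T => ∏ p ∈ T, p ≤ lev K n), (K0 : ℝ) ^ T.card := by
  set c : ℝ := ∑ T ∈ (PK K n).powerset.filter (fun T => ∏ p ∈ T, p ≤ lev K n), (K0 : ℝ) ^ T.card
    with hc
  have hc0 : 0 ≤ c := Finset.sum_nonneg fun T _ => by positivity
  have key := quad_expandI D hcop (fun j : PJf P => 1 / ((j : ℕ) : ℝ)) lam (Ico 1 (1 + X))
    (fun x : ℕ => (x : ℤ)) (fun x : ℕ => YK K n (fun p => if Q p (x : ℤ) then (1 : ℝ) else 0))
    (X * YK K n (fun p => (om Q p : ℝ) / p)) (fun _ => c) (by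
      intro α β _ _ _
      set γ := join α β with hγ
      have h1 := (repB_YK K n).sum_estimate (Ico 1 (1 + X))
        (fun x : ℕ => if dvI D (x : ℤ) γ then (1 : ℝ) else 0)
        (fun (x : ℕ) (p : ℕ) => if Q p (x : ℤ) then (1 : ℝ) else 0)
        (X * pw (fun j : PJf P => 1 / ((j : ℕ) : ℝ)) (supp γ)) (fun p => (om Q p : ℝ) / p)
        (fun T => (K0 : ℝ) ^ T.card) (by
          intro T hT hTl
          have hTP : Disjoint T P := hPK.mono_left hT
          have hTp : ∀ p ∈ T ∪ sp γ, p.Prime := by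
            intro p hp
            rw [Finset.mem_union] at hp
            rcases hp with hp | hp
            · exact (mem_PK.1 (hT hp)).1
            · exact hP p (sp_subset γ hp)
          have h2 := count_estimate (fun p (x : ℕ) => Qc D Q γ p (x : ℤ)) (by
            intro p x
            apply Qc_per hD hQ
            have := Nat.div_add_mod x p
            refine ⟨-((x / p : ℕ) : ℤ), ?_⟩
            have h3 : (p : ℤ) * ((x / p : ℕ) : ℤ) + ((x % p : ℕ) : ℤ) = x := by exact_mod_cast this
            linear_combination h3) (T ∪ sp γ) hTp X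
          have e1 : ∀ x : ℕ, ∏ p ∈ T ∪ sp γ, (if Qc D Q γ p (x : ℤ) then (1 : ℝ) else 0) =
              (if dvI D (x : ℤ) γ then (1 : ℝ) else 0) *
                ∏ p ∈ T, (if Q p (x : ℤ) then (1 : ℝ) else 0) := by
            intro x
            rw [prod_Qc hTP, mul_comm]
          have e2 : ∀ p, (((range p).filter (fun x : ℕ => Qc D Q γ p (x : ℤ))).card : ℝ) =
              (om (Qc D Q γ) p : ℝ) := fun p => rfl
          simp only [e2, e1] at h2
          rw [prod_sp T hTP (fun p => (om (Qc D Q γ) p : ℝ) / p),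
            prod_sp T hTP (fun p => (om (Qc D Q γ) p : ℝ))] at h2
          have e3 : ∀ j ∈ supp γ, (om (Qc D Q γ) (j : ℕ) : ℝ) = 1 := by
            intro j hj
            obtain ⟨l, hl⟩ := Option.ne_none_iff_exists'.1 (mem_supp.1 hj)
            rw [om_Qc_mem hD j hl trivial]
            norm_num
          have e4 : ∀ p ∈ T, (om (Qc D Q γ) p : ℝ) = om Q p := by
            intro p hp
            rw [om_Qc_not_mem (fun h => (Finset.disjoint_left.1 hTP) hp h)]
          rw [Finset.prod_congr rfl (fun p hp => by rw [e4 p hp] :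
              ∀ p ∈ T, (om (Qc D Q γ) p : ℝ) / p = (om Q p : ℝ) / p),
            Finset.prod_congr rfl (fun j hj => by rw [e3 j hj] :
              ∀ j ∈ supp γ, (om (Qc D Q γ) (j : ℕ) : ℝ) / ((j : ℕ) : ℝ) = 1 / ((j : ℕ) : ℝ)),
            Finset.prod_congr rfl e4, Finset.prod_congr rfl e3, Finset.prod_const_one,
            mul_one] at h2
          have e5 : (X : ℝ) * pw (fun j : PJf P => 1 / ((j : ℕ) : ℝ)) (supp γ) *
              ∏ p ∈ T, ((om Q p : ℝ) / p) =
              X * ((∏ p ∈ T, ((om Q p : ℝ) / p)) * ∏ j ∈ supp γ, (1 / ((j : ℕ) : ℝ))) := by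
            unfold pw
            ring
          rw [e5]
          refine h2.trans ?_
          rw [← Finset.prod_const]
          apply Finset.prod_le_prod
          · intro p _; positivity
          · intro p hp
            exact_mod_cast hK0 p (mem_PK.1 (hT hp)).1)
      have e6 : ∀ x : ℕ, (if dvI D (x : ℤ) γ then
          YK K n (fun p => if Q p (x : ℤ) then (1 : ℝ) else 0) else 0) =
          (if dvI D (x : ℤ) γ then (1 : ℝ) else 0) *
            YK K n (fun p => if Q p (x : ℤ) then (1 : ℝ) else 0) := by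
        intro x
        split_ifs <;> ring
      simp only [e6]
      have e7 : (X * YK K n (fun p => (om Q p : ℝ) / p)) *
          pw (fun j : PJf P => 1 / ((j : ℕ) : ℝ)) (supp γ) =
          X * pw (fun j : PJf P => 1 / ((j : ℕ) : ℝ)) (supp γ) *
            YK K n (fun p => (om Q p : ℝ) / p) := by ring
      rw [e7]
      exact h1)
  refine key.trans ?_
  rw [pow_two, Finset.sum_mul_sum, Finset.sum_mul]
  refine Finset.sum_le_sum fun α _ => ?_
  rw [Finset.sum_mul]
  refine Finset.sum_le_sum fun β _ => ?_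
  split_ifs
  · exact le_rfl
  · positivity

end Pool.Agent.MT
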