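import Pool.Agent.Lib.MP_0da313_nt.MT.Zb
import Pool.Agent.Lib.MP_0da313_nt.MT.Sharp
import Pool.Agent.Lib.MP_0da313_nt.MT.S2
import Pool.Agent.Lib.MP_0da313_nt.MT.S1

set_option autoImplicit false
set_option linter.unusedSectionVars false

/-!
Upper bound for the sum over all points, lower bound for the sum over the prime values of one
linear member.
-/

open Finset Polynomial

namespace Pool.Agent.MT

open Pool.Agent.MP89da58 Pool.Agent.BVall Pool.Agent.Lib.MP_0da313_nt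

variable {ι : Type} [Fintype ι] [DecidableEq ι] {P : Finset ℕ}

lemma W_ind (B : Finset ℕ) (Q : ℕ → Prop) [DecidablePred Q] :
    W (fun p => if Q p then (1 : ℝ) else 0) B = if ∀ p ∈ B, ¬ Q p then 1 else 0 := by
  unfold W
  have h1 : ∀ p ∈ B, (1 - (if Q p then (1 : ℝ) else 0)) = if ¬ Q p then 1 else 0 := by
    intro p _
    by_cases h : Q p <;> simp [h]
  rw [Finset.prod_congr rfl h1, Finset.prod_ite_zero, Finset.prod_const_one]

lemma om_inst (Q : ℕ → ℤ → Prop) (i1 i2 : ∀ p, DecidablePred (Q p)) (p : ℕ) :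
    @om Q i1 p = @om Q i2 p := by
  have h : i1 = i2 := Subsingleton.elim _ _
  rw [h]

lemma Cls_inst {u v : ℤ} {K0 : ℕ} {Q : ℕ → ℤ → Prop} {i1 : ∀ p, DecidablePred (Q p)}
    (i2 : ∀ p, DecidablePred (Q p)) (h : @Cls u v K0 Q i1) : @Cls u v K0 Q i2 := by
  have e : i1 = i2 := Subsingleton.elim _ _
  subst e
  exact h

lemma rhoW_inst (w : ℕ) (Q : ℕ → ℤ → Prop) (i1 i2 : ∀ p, DecidablePred (Q p)) :
    @rhoW w Q i1 = @rhoW w Q i2 := by
  have h : i1 = i2 := Subsingleton.elim _ _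
  rw [h]

lemma per_dvd (G : ℤ[X]) (p : ℕ) (x y : ℤ) (h : (p : ℤ) ∣ x - y) :
    ((p : ℤ) ∣ G.eval x ↔ (p : ℤ) ∣ G.eval y) := dvd_eval_congr G h

open Classical in
theorem S1_upper {m D n n' : ℕ} (f : Fin m → MvPolynomial (Fin 2) ℤ)
    (hGdeg : (∏ k, lineRestrict (f k) n).natDegree ≤ D)
    (hloc : ∀ p : ℕ, p.Prime → ¬ ∀ x : ℤ, (p : ℤ) ∣ ∏ k, (lineRestrict (f k) n).eval x)
    {u v : ι → ℤ} (hP : ∀ p ∈ P, p.Prime ∧ 2 ^ (2 ^ (2 * D + n')) < p)
    (hPu : ∀ p ∈ P, ∀ l, ¬ p ∣ (u l).natAbs) (huv : ∀ l, IsCoprime (u l) (v l))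
    (hdet : ∀ p ∈ P, ∀ l l' : ι, l ≠ l' → ¬ (p : ℤ) ∣ u l * v l' - u l' * v l)
    (S : SData ι (PJf P)) (hSp : ∀ j, S.p j = (j : ℕ)) (hn : 1 ≤ n) :
    ∑ x ∈ (Ioo 0 n).filter (fun x => Rgh f n (2 ^ (2 ^ (2 * D + n'))) x),
        ZI (Dl P u v) S.lam (x : ℤ) ^ 2 ≤
      n * (2 * W (fun p => (om (fun p y => (p : ℤ) ∣ (∏ k, lineRestrict (f k) n).eval y) p : ℝ) / p)
        (PK (2 * D) n')) * S.A2 ^ Fintype.card ι +
        (∑ α, |S.lam α|) ^ 2 * (lev (2 * D) n' : ℝ) ^ (D + 1) := by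
  set G : ℤ[X] := ∏ k, lineRestrict (f k) n with hG
  set z : ℕ := 2 ^ (2 ^ (2 * D + n')) with hz
  have hloc' : ∀ p : ℕ, p.Prime → ¬ ∀ x : ℤ, (p : ℤ) ∣ G.eval x :=
    fun p hp h => hloc p hp (fun x => by rw [← eval_prod]; exact h x)
  have hdens := dens_poly G D (2 * D) hGdeg (by omega) hloc'
  have hPp : ∀ p ∈ P, p.Prime := fun p hp => (hP p hp).1
  have hPK : Disjoint (PK (2 * D) n') P := by
    rw [Finset.disjoint_left]
    intro p h1 h2
    have h3 := (mem_PK.1 h1).2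
    have h4 := (hP p h2).2
    omega
  have hxf : S.x = fun j : PJf P => 1 / ((j : ℕ) : ℝ) := by
    funext j; unfold SData.x; rw [hSp j]
  obtain ⟨Q, hQ⟩ : ∃ Q : ℕ → ℤ → Prop, Q = fun (p : ℕ) (y : ℤ) => (p : ℤ) ∣ G.eval y := ⟨_, rfl⟩
  have hom : ∀ p, om Q p = om (fun (p : ℕ) (y : ℤ) => (p : ℤ) ∣ G.eval y) p := by
    intro p
    subst hQ
    exact om_inst _ _ _ p
  have hrho : (fun p => (om Q p : ℝ) / p) =
      fun p => (om (fun (p : ℕ) (y : ℤ) => (p : ℤ) ∣ G.eval y) p : ℝ) / p := by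
    funext p
    rw [hom]
  have hK0 : ∀ p : ℕ, p.Prime → om Q p ≤ D := by
    intro p hp
    rw [hom]
    unfold om
    exact card_roots_mod_le G p D hp hGdeg (hloc' p hp)
  have key := S1_bound (D := Dl P u v) (Q := Q) hPp (2 * D) n' hPK
      (Dl_loc hPp hPu huv _) (fun j l l' y h => Dl_cop hdet j l l' y h)
      (fun p x y h => by rw [hQ]; exact per_dvd G p x y h) D hK0 S.lam (n - 1)
  have hIco : Ico 1 (1 + (n - 1)) = Ioo 0 n := by
    ext x
    rw [Finset.mem_Ico, Finset.mem_Ioo]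
    omega
  rw [hIco, ← hxf, hrho] at key
  have h1 := (abs_le.1 key).2
  set V : ℝ := W (fun p => (om (fun p y => (p : ℤ) ∣ G.eval y) p : ℝ) / p) (PK (2 * D) n') with hV
  have hV0 : 0 ≤ V := W_nonneg fun p hp => (hdens.lt_one (mem_PK.1 hp).1).le
  have hYu := hdens.YK_upper n'
  rw [← hV] at hYu
  have hYl := (pointwise_K (2 * D) n' (ρ := fun p => (om (fun p y => (p : ℤ) ∣ G.eval y) p : ℝ) / p)
    (fun p _ => hdens.nonneg p) (fun p hp => (hdens.lt_one (mem_PK.1 hp).1).le)).1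
  rw [← hV] at hYl
  set Yv : ℝ := YK (2 * D) n' (fun p => (om (fun p y => (p : ℤ) ∣ G.eval y) p : ℝ) / p) with hYv
  -- the left-hand side
  have h2 : ∑ x ∈ (Ioo 0 n).filter (fun x => Rgh f n z x), ZI (Dl P u v) S.lam (x : ℤ) ^ 2 ≤
      ∑ x ∈ Ioo 0 n, YK (2 * D) n' (fun p => if Q p (x : ℤ) then (1 : ℝ) else 0) *
        ZI (Dl P u v) S.lam (x : ℤ) ^ 2 := by
    rw [Finset.sum_filter]
    apply Finset.sum_le_sum
    intro x hx
    have hpt := (pointwise_K (2 * D) n'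
      (ρ := fun p => if Q p (x : ℤ) then (1 : ℝ) else 0)
      (fun p _ => by split_ifs <;> norm_num)
      (fun p _ => by split_ifs <;> norm_num)).1
    rw [W_ind] at hpt
    split_ifs with hr
    · rw [if_pos] at hpt
      · exact le_mul_of_one_le_left (sq_nonneg _) hpt
      · intro p hp hd
        have hpp := mem_PK.1 hp
        rw [hQ] at hd
        replace hd : (p : ℤ) ∣ G.eval (x : ℤ) := hd
        rw [hG, eval_prod] at hd
        have hpi : Prime (p : ℤ) := Nat.prime_iff_prime_int.1 hpp.1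
        rw [hpi.dvd_finsetProd_iff] at hd
        obtain ⟨k, _, hk⟩ := hd
        rw [eval_lineRestrict] at hk
        have := hr k p hpp.1 hk
        omega
    · apply mul_nonneg _ (sq_nonneg _)
      refine le_trans ?_ hpt
      split_ifs <;> norm_num
  have h3 : ((n - 1 : ℕ) : ℝ) * Yv * bil S.x S.lam S.lam ≤
      n * (2 * V) * S.A2 ^ Fintype.card ι := by
    have e1 : ((n - 1 : ℕ) : ℝ) ≤ n := by exact_mod_cast Nat.sub_le n 1
    have e2 : (0 : ℝ) ≤ ((n - 1 : ℕ) : ℝ) := Nat.cast_nonneg _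
    have hY0 : 0 ≤ Yv := hV0.trans hYl
    have hA : 0 ≤ S.A2 ^ Fintype.card ι := pow_nonneg (by linarith only [S.A2_ge_one]) _
    calc ((n - 1 : ℕ) : ℝ) * Yv * bil S.x S.lam S.lam ≤
          ((n - 1 : ℕ) : ℝ) * Yv * S.A2 ^ Fintype.card ι :=
          mul_le_mul_of_nonneg_left S.bil_lam_le (mul_nonneg e2 hY0)
      _ ≤ _ := by
          apply mul_le_mul_of_nonneg_right _ hA
          exact mul_le_mul e1 hYu hY0 (Nat.cast_nonneg _)
  have h4 : (∑ α, |S.lam α|) ^ 2 *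
        ∑ T ∈ (PK (2 * D) n').powerset.filter (fun T => ∏ p ∈ T, p ≤ lev (2 * D) n'),
          (D : ℝ) ^ T.card ≤
      (∑ α, |S.lam α|) ^ 2 * (lev (2 * D) n' : ℝ) ^ (D + 1) :=
    mul_le_mul_of_nonneg_left (sum_T_le _ _ _) (sq_nonneg _)
  linarith only [h1, h2, h3, h4]

open Classical in
theorem T_lower {m D n n' : ℕ} (hD : 1 ≤ D) (f : Fin m → MvPolynomial (Fin 2) ℤ)
    (e : ι → Fin m) (L : ∀ l, Lin (f (e l)))
    (hGdeg : (∏ k, lineRestrict (f k) n).natDegree ≤ D)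
    (hloc : ∀ p : ℕ, p.Prime → ¬ ∀ x : ℤ, (p : ℤ) ∣ ∏ k, (lineRestrict (f k) n).eval x)
    (hP : ∀ p ∈ P, p.Prime ∧ 2 ^ (2 ^ (2 * D + n')) < p)
    (hPu : ∀ p ∈ P, ∀ l, ¬ p ∣ ((L l).u).natAbs) (huv : ∀ l, IsCoprime (L l).u ((L l).v n))
    (hdet : ∀ p ∈ P, ∀ l l' : ι, l ≠ l' →
      ¬ (p : ℤ) ∣ (L l).u * (L l').v n - (L l').u * (L l).v n)
    (S : SData ι (PJf P)) (hSp : ∀ j, S.p j = (j : ℕ)) (i : ι)
    (hPR : ∀ p ∈ P, p ≤ S.R)
    (hn8 : 8 * |((L i).c : ℝ)| < n) (hzX : 3 * ((2 ^ (2 ^ (2 * D + n')) : ℕ) : ℝ) < (L i).θ * n)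
    (hRX : 3 * (S.R : ℝ) < (L i).θ * n)
    (hX3 : 1 ≤ Real.log ((L i).θ * n))
    (hpsi : (L i).θ * n / (24 * (L i).la) ≤ psiXL (L i).la ((L i).θ * n))
    (A : ℕ) (hbv : ∀ a : ℕ → ℕ, (∀ q, (a q).Coprime ((L i).u.natAbs * q)) →
      ∑ q ∈ (Finset.Icc 1 ⌊((L i).θ * n) ^ (1 / 60 : ℝ)⌋₊).filter Squarefree,
      ((3 * Fintype.card ι * D : ℕ) : ℝ) ^ (q.primeFactors.card) *
        |psiAPL (L i).la ((L i).θ * n) ((L i).u.natAbs * q) (a q) -
          psiXL (L i).la ((L i).θ * n) / (Nat.totient ((L i).u.natAbs * q) : ℝ)|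
      ≤ (L i).θ * n / (Real.log ((L i).θ * n)) ^ A)
    (hRlev : ((S.R * S.R * lev (2 * D) n' : ℕ) : ℝ) ≤ ((L i).θ * n) ^ (1 / 60 : ℝ))
    (hlogR : 1 < Real.log S.R)
    (hB1 : 16 * (Fintype.card ι : ℝ) * S.B1 ≤ S.A2 * Real.log S.R) :
    1 / 2 * ((n : ℝ) / 1536 *
      (W (fun p => (om (fun p y => (p : ℤ) ∣ (∏ k, lineRestrict (f k) n).eval y) p : ℝ) / p)
        (PK (2 * D) n') / kapD (2 ^ (2 ^ (2 * D + n'))))) *
        (S.A1 ^ 2 * S.A2 ^ (Fintype.card ι - 1) / 4) ≤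
      8 * Real.log (3 * ((L i).θ * n)) *
        ∑ x ∈ (Ioo 0 n).filter (fun x : ℕ => Rgh f n (2 ^ (2 ^ (2 * D + n'))) x ∧
          (val (f (e i)) x ((n : ℤ) - x)).natAbs.Prime),
          ZI (Dl P (fun l => (L l).u) (fun l => (L l).v n)) S.lam (x : ℤ) ^ 2 +
      16 * Real.sqrt (3 * ((L i).θ * n)) * Real.log (3 * ((L i).θ * n)) *
        (∑ α, |S.lami i α|) ^ 2 +
      (S.G0 S.R ^ Fintype.card ι) ^ 2 *
        ((L i).θ * n / (Real.log ((L i).θ * n)) ^ A) := by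
  set G : ℤ[X] := ∏ k, lineRestrict (f k) n with hG
  set z : ℕ := 2 ^ (2 ^ (2 * D + n')) with hz
  set X : ℝ := (L i).θ * n with hX
  set la : ℝ := (L i).la with hla
  have hla1 : 1 ≤ la := (L i).la_ge
  have hn0 : (0 : ℝ) < n := lt_of_le_of_lt (by (clear * -; positivity)) hn8
  have hX0 : 0 < X := mul_pos (L i).θ_pos hn0
  have hloc' : ∀ p : ℕ, p.Prime → ¬ ∀ x : ℤ, (p : ℤ) ∣ G.eval x :=
    fun p hp h => hloc p hp (fun x => by rw [← eval_prod]; exact h x)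
  have hlt : ∀ p : ℕ, p.Prime → om (fun p y => (p : ℤ) ∣ G.eval y) p < p := by
    intro p hp
    unfold om
    exact card_roots_mod_lt _ p hp (hloc' p hp)
  have hdens := dens_poly G D (2 * D) hGdeg (by omega) hloc'
  have hPp : ∀ p ∈ P, p.Prime := fun p hp => (hP p hp).1
  have hPK : Disjoint (PK (2 * D) n') P := by
    rw [Finset.disjoint_left]
    intro p h1 h2
    have h3 := (mem_PK.1 h1).2
    have h4 := (hP p h2).2
    omega
  set G' : ℤ[X] := ∏ k ∈ univ.erase (e i), lineRestrict (f k) n with hG'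
  have hcls := cls_family f n (e i) D hGdeg hloc (L i).hσ ((L i).eval_eq n)
  have hGG : G = lineRestrict (f (e i)) n * G' :=
    (Finset.mul_prod_erase univ (fun k => lineRestrict (f k) n) (Finset.mem_univ (e i))).symm
  have hWr := W_relation hGG (L i).u_ne (L i).hσ ((L i).eval_eq n) (huv i) (2 * D) n' hlt
  set V : ℝ := W (fun p => (om (fun p y => (p : ℤ) ∣ G.eval y) p : ℝ) / p) (PK (2 * D) n') with hV
  have hV0 : 0 ≤ V := W_nonneg fun p hp => (hdens.lt_one (mem_PK.1 hp).1).le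
  have hκ := kapD_pos z
  have hmt := (L i).main_term n hV0 hκ hWr
  rw [← hX, ← hla] at hmt
  obtain ⟨Q, hQ⟩ : ∃ Q : ℕ → ℤ → Prop, Q = fun (p : ℕ) (y : ℤ) => (p : ℤ) ∣ G'.eval y ∧
    ¬ (p : ℤ) ∣ (L i).u * y + (L i).v n := ⟨_, rfl⟩
  have hcls' : Cls (L i).u ((L i).v n) D Q := by
    subst hQ
    exact Cls_inst _ hcls
  have hmt' : (n : ℝ) / 1536 * (V / kapD z) ≤ X / (24 * la) / (Nat.totient (L i).u.natAbs : ℝ) *
      W (rhoW (L i).u.natAbs Q) (PK (2 * D) n') := by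
    subst hQ
    rw [rhoW_inst (L i).u.natAbs _ _ (fun p y => instDecidableAnd)]
    exact hmt
  have hdQ : Dens (2 * D) (rhoW (L i).u.natAbs Q) := hcls'.dens
  obtain ⟨a, ha1, ha2⟩ := exists_worst la X (L i).u.natAbs (Int.natAbs_pos.2 (L i).u_ne)
  have hpf : S.p = fun j : PJf P => (j : ℕ) := funext hSp
  have hxf : S.x' = fun j : PJf P => 1 / (((j : ℕ) : ℝ) - 1) := by
    funext j; unfold SData.x'; rw [hSp j]
  set uu : ι → ℤ := fun l => (L l).u with huu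
  set vv : ι → ℤ := fun l => (L l).v n with hvv
  have hcop : ∀ (j : PJf P) (l l' : ι) (y : ℤ), l ≠ l' →
      ¬ (Dl P uu vv j l y ∧ Dl P uu vv j l' y) :=
    fun j l l' y h => Dl_cop hdet j l l' y h
  have key := S2_bound (D := Dl P uu vv) (Q := Q) (L i).u_ne (huv i) hPp
    (fun p hp => hPu p hp i) (2 * D) n' hPK i (Dl_loc hPp hPu huv _) hcop
    (fun j l y h1 h2 h3 => hcop j l i y h1 ⟨h2, h3⟩) hcls'.per hcls'.nd D hD hcls'.le (S.lami i)
    (S.G0 S.R ^ Fintype.card ι) S.R (S.abs_lami_le i) (fun α hα => by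
      have := S.lami_support i α hα
      rw [hpf] at this
      exact this) la X a ha2
  rw [← hxf] at key
  have h1 := (abs_le.1 key).1
  -- the error term
  have herr : (S.G0 S.R ^ Fintype.card ι) ^ 2 *
      ∑ q ∈ (Icc 1 (S.R * S.R * lev (2 * D) n')).filter Squarefree,
        ((3 * Fintype.card ι * D : ℕ) : ℝ) ^ q.primeFactors.card *
          |psiAPL la X ((L i).u.natAbs * q) (a q) -
            psiXL la X / (Nat.totient ((L i).u.natAbs * q) : ℝ)| ≤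
      (S.G0 S.R ^ Fintype.card ι) ^ 2 * (X / (Real.log X) ^ A) := by
    apply mul_le_mul_of_nonneg_left _ (sq_nonneg _)
    refine le_trans ?_ (hbv a ha1)
    apply Finset.sum_le_sum_of_subset_of_nonneg
    · intro q hq
      rw [Finset.mem_filter, Finset.mem_Icc] at hq ⊢
      exact ⟨⟨hq.1.1, hq.1.2.trans (Nat.le_floor hRlev)⟩, hq.2⟩
    · intro q _ _
      (clear * -; positivity)
  -- the main term
  have hbil := S.bil_lami_ge i hlogR hB1
  have hA0 : 0 ≤ S.A1 ^ 2 * S.A2 ^ (Fintype.card ι - 1) / 4 := by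
    have := S.A2_ge_one
    (clear * - this; positivity)
  have hFl := hdQ.FK_lower n'
  have hφ : (0 : ℝ) < Nat.totient (L i).u.natAbs := by
    exact_mod_cast Nat.totient_pos.2 (Int.natAbs_pos.2 (L i).u_ne)
  have hWQ0 : 0 ≤ W (rhoW (L i).u.natAbs Q) (PK (2 * D) n') :=
    W_nonneg fun p hp => (hdQ.lt_one (mem_PK.1 hp).1).le
  have hla0 : 0 < la := by linarith only [hla1]
  have hmain : 1 / 2 * ((n : ℝ) / 1536 * (V / kapD z)) *
      (S.A1 ^ 2 * S.A2 ^ (Fintype.card ι - 1) / 4) ≤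
      (psiXL la X / (Nat.totient (L i).u.natAbs : ℝ) *
        FK (2 * D) n' (rhoW (L i).u.natAbs Q)) * bil S.x' (S.lami i) (S.lami i) := by
    have e1 : 1 / 2 * ((n : ℝ) / 1536 * (V / kapD z)) ≤
        psiXL la X / (Nat.totient (L i).u.natAbs : ℝ) *
        FK (2 * D) n' (rhoW (L i).u.natAbs Q) := by
      calc 1 / 2 * ((n : ℝ) / 1536 * (V / kapD z)) ≤
            1 / 2 * (X / (24 * la) / (Nat.totient (L i).u.natAbs : ℝ) *
              W (rhoW (L i).u.natAbs Q) (PK (2 * D) n')) :=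
            mul_le_mul_of_nonneg_left hmt' (by norm_num)
        _ = X / (24 * la) / (Nat.totient (L i).u.natAbs : ℝ) *
              (1 / 2 * W (rhoW (L i).u.natAbs Q) (PK (2 * D) n')) := by ring
        _ ≤ _ := by
            apply mul_le_mul _ hFl (by (clear * - hWQ0; positivity))
            · apply div_nonneg _ hφ.le
              exact le_trans (by positivity) hpsi
            · exact div_le_div_of_nonneg_right hpsi hφ.le
    have e2 : 0 ≤ psiXL la X / (Nat.totient (L i).u.natAbs : ℝ) *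
        FK (2 * D) n' (rhoW (L i).u.natAbs Q) := by
      apply mul_nonneg
      · apply div_nonneg _ hφ.le
        exact le_trans (by positivity) hpsi
      · exact le_trans (by (clear * - hWQ0; positivity)) hFl
    exact mul_le_mul e1 hbil hA0 e2
  -- passage to the rough points
  set Sf := (Icc 1 ⌊3 * X⌋₊).filter (fun N : ℕ => (L i).u ∣ (N : ℤ) - (L i).v n) with hSf
  set S' := Sf.filter (fun N : ℕ => ∀ p ∈ PK (2 * D) n',
    ¬ Q p (((N : ℤ) - (L i).v n) / (L i).u)) with hS'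
  have hnn : ∀ N, 0 ≤ ArithmeticFunction.vonMangoldt N * OmL la X N := fun N =>
    mul_nonneg ArithmeticFunction.vonMangoldt_nonneg (OmL_nonneg la hX0.le N)
  have h2 : ∑ N ∈ Sf, ((ArithmeticFunction.vonMangoldt N * OmL la X N) *
          FK (2 * D) n' (fun p => if Q p (((N : ℤ) - (L i).v n) / (L i).u) then (1 : ℝ) else 0)) *
        ZI (Dl P uu vv) (S.lami i) (((N : ℤ) - (L i).v n) / (L i).u) ^ 2 ≤
      ∑ N ∈ S', (ArithmeticFunction.vonMangoldt N * OmL la X N) *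
        ZI (Dl P uu vv) (S.lami i) (((N : ℤ) - (L i).v n) / (L i).u) ^ 2 := by
    conv_rhs => rw [hS', Finset.sum_filter]
    apply Finset.sum_le_sum
    intro N _
    have hpt := (pointwise_K (2 * D) n'
      (ρ := fun p => if Q p (((N : ℤ) - (L i).v n) / (L i).u) then (1 : ℝ) else 0)
      (fun p _ => by split_ifs <;> norm_num)
      (fun p _ => by split_ifs <;> norm_num)).2
    rw [W_ind] at hpt
    split_ifs with hr
    · rw [if_pos hr] at hpt
      apply mul_le_mul_of_nonneg_right _ (sq_nonneg _)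
      calc (ArithmeticFunction.vonMangoldt N * OmL la X N) * _ ≤
            (ArithmeticFunction.vonMangoldt N * OmL la X N) * 1 :=
            mul_le_mul_of_nonneg_left hpt (hnn N)
        _ = _ := mul_one _
    · rw [if_neg hr] at hpt
      have : (ArithmeticFunction.vonMangoldt N * OmL la X N) *
          FK (2 * D) n' (fun p => if Q p (((N : ℤ) - (L i).v n) / (L i).u) then (1 : ℝ) else 0) ≤ 0 :=
        mul_nonpos_of_nonneg_of_nonpos (hnn N) hpt
      exact mul_nonpos_of_nonpos_of_nonneg this (sq_nonneg _)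
  have hup := sum_to_primes hla1 hX3 hX0 S' (fun N hN => by
    rw [hS', Finset.mem_filter, hSf, Finset.mem_filter, Finset.mem_Icc] at hN
    exact ⟨hN.1.1.1, hN.1.1.2⟩)
    (fun N => ZI (Dl P uu vv) (S.lami i) (((N : ℤ) - (L i).v n) / (L i).u) ^ 2)
    (fun _ => sq_nonneg _) (Wm := (∑ α, |S.lami i α|) ^ 2)
    (fun N => by
      rw [← sq_abs]
      exact pow_le_pow_left₀ (abs_nonneg _) (abs_ZI_le_sum _ _ _) 2)
  set S1 := S'.filter (fun N : ℕ => N.Prime ∧ OmL la X N ≠ 0) with hS1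
  set Tset := (Ioo 0 n).filter (fun x : ℕ => Rgh f n z x ∧
          (val (f (e i)) x ((n : ℤ) - x)).natAbs.Prime) with hTset
  -- the points
  have hξ : ∀ N ∈ S1, ∃ x : ℕ, (N : ℤ) = (L i).u * x + (L i).v n ∧ x ∈ Tset ∧
      ZI (Dl P uu vv) (S.lami i) (((N : ℤ) - (L i).v n) / (L i).u) ^ 2 =
        ZI (Dl P uu vv) S.lam (x : ℤ) ^ 2 := by
    intro N hN
    rw [hS1, Finset.mem_filter, hS', Finset.mem_filter, hSf, Finset.mem_filter,
      Finset.mem_Icc] at hN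
    obtain ⟨⟨⟨⟨hNl, hNu⟩, hdvd⟩, hQN⟩, hNp, hNO⟩ := hN
    obtain ⟨x, hx1, hx2, hx3, hx4, hx5, hx6⟩ := member_point f (e i) (L i) hn8 hzX hNp hNO hdvd
      (fun p hp hpz => by
        have := hQN p (mem_PK.2 ⟨hp, hpz⟩)
        rw [hQ] at this
        exact this)
    refine ⟨x, hx2, ?_, ?_⟩
    · rw [hTset, Finset.mem_filter, Finset.mem_Ioo]
      exact ⟨⟨hx3, hx4⟩, hx6, by rw [hx5]; exact hNp⟩
    · rw [← hx1]
      congr 1
      apply ZI_lami
      intro j hj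
      have hj' : (((j : ℕ) : ℤ)) ∣ (L i).u * x + (L i).v n := hj
      rw [← hx2] at hj'
      have h3 : (j : ℕ) ∣ N := Int.natCast_dvd_natCast.1 hj'
      rw [Nat.prime_dvd_prime_iff_eq (hPp j.1 j.2) hNp] at h3
      have h4 := hPR j.1 j.2
      have h5 := (OmL_support hla1 hX0 hNp.pos hNO).2
      have h6 : (N : ℝ) ≤ S.R := by
        have : N ≤ S.R := by omega
        exact_mod_cast this
      linarith only [hRX, h5, h6]
  have h3 : ∑ N ∈ S1, ZI (Dl P uu vv) (S.lami i) (((N : ℤ) - (L i).v n) / (L i).u) ^ 2 ≤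
      ∑ x ∈ Tset, ZI (Dl P uu vv) S.lam (x : ℤ) ^ 2 := by
    choose! ξ hξ1 hξ2 hξ3 using hξ
    rw [Finset.sum_congr rfl hξ3]
    have hinj : Set.InjOn ξ (S1 : Set ℕ) := by
      intro N hN N' hN' h
      have g2 := hξ1 N hN
      have g3 := hξ1 N' hN'
      rw [h, ← g3] at g2
      exact_mod_cast g2
    rw [← Finset.sum_image (f := fun x : ℕ => ZI (Dl P uu vv) S.lam (x : ℤ) ^ 2) hinj]
    apply Finset.sum_le_sum_of_subset_of_nonneg
    · intro x hx
      rw [Finset.mem_image] at hx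
      obtain ⟨N, hN, rfl⟩ := hx
      exact hξ2 N hN
    · intro x _ _
      exact sq_nonneg _
  have hlog3 : 0 ≤ Real.log (3 * X) := by
    rw [Real.log_mul (by norm_num) hX0.ne']
    have := Real.log_pos (show (1 : ℝ) < 3 by norm_num)
    linarith only [hX3, this]
  have h4 : (8 * Real.log (3 * X)) *
      ∑ N ∈ S1, ZI (Dl P uu vv) (S.lami i) (((N : ℤ) - (L i).v n) / (L i).u) ^ 2 ≤
      (8 * Real.log (3 * X)) * ∑ x ∈ Tset, ZI (Dl P uu vv) S.lam (x : ℤ) ^ 2 :=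
    mul_le_mul_of_nonneg_left h3 (by positivity)
  linarith only [herr, hmain, h1, h2, hup, h4]

end Pool.Agent.MT
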