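import Pool.Agent.Lib.MP_0da313_nt.MT.MainN
import Pool.Agent.Lib.MP_0da313_nt.MT.T2

set_option autoImplicit false
set_option linter.unusedSectionVars false

/-!
The estimate for a single large `n`.
-/

open Finset Polynomial

namespace Pool.Agent.MT

open Pool.Agent.MP89da58 Pool.Agent.BVall Pool.Agent.Lib.MP_0da313_nt

lemma le_lev (K n : ℕ) : 2 ^ (2 ^ (K + n)) ≤ lev K n := by
  unfold lev
  have h1 : 1 ≤ ∏ p ∈ small K, p := by
    apply Nat.succ_le_of_lt
    apply Finset.prod_pos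
    intro p hp
    exact (Finset.mem_filter.mp hp).2.pos
  calc 2 ^ (2 ^ (K + n)) ≤ 2 ^ (2 ^ (K + n) * (16 * K + 6)) := by
        apply Nat.pow_le_pow_right (by norm_num)
        exact Nat.le_mul_of_pos_right _ (by omega)
    _ ≤ _ := Nat.le_mul_of_pos_left _ h1

lemma quarter_le {θ n : ℝ} (hθ : 1 / 4 ≤ θ) (hn : 0 ≤ n) : n / 4 ≤ θ * n := by nlinarith

lemma half_le {θ n : ℝ} (hθ : 1 / 4 ≤ θ) (hn : 100000 ≤ n) : n ^ (1 / 2 : ℝ) ≤ θ * n := by
  refine le_trans ?_ (quarter_le hθ (by linarith))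
  rw [← Real.sqrt_eq_rpow, Real.sqrt_le_left (by positivity)]
  nlinarith

lemma three_le {θ n : ℝ} (hθ : 1 / 4 ≤ θ) (hn : 100000 ≤ n) :
    3 * n ^ (1 / 1000 : ℝ) < θ * n := by
  have hn0 : 0 < n := by linarith
  have h4 := quarter_le hθ hn0.le
  have h5 : n ^ (1 / 1000 : ℝ) ≤ n ^ (1 / 2 : ℝ) :=
    Real.rpow_le_rpow_of_exponent_le (by linarith) (by norm_num)
  rw [← Real.sqrt_eq_rpow] at h5
  have h6 : Real.sqrt n * Real.sqrt n = n := Real.mul_self_sqrt hn0.le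
  have h7 : 300 ≤ Real.sqrt n := by
    rw [Real.le_sqrt (by norm_num) hn0.le]
    linarith
  nlinarith only [hn, h4, h5, h6, h7]

lemma M_le {M K m' : ℝ} (hM : M = 64 * 1000 * K * (m' + 1)) (hK : 0 ≤ K) (hm : 1 ≤ m') :
    M ≤ 128000 * K * m' := by
  rw [hM]
  nlinarith

lemma M_ge {M K m' : ℝ} (hM : M = 64 * 1000 * K * (m' + 1)) (hK : 2 ≤ K) (hm : 1 ≤ m') :
    2 ≤ M := by
  rw [hM]
  nlinarith

lemma two_log {M l2 ly : ℝ} (hM : 2 ≤ M) (h : l2 ≤ ly) (h2 : 0 < l2) : 2 * l2 ≤ M * ly := by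
  nlinarith

open Classical in
theorem main_n {m d K D m' M B0 n n' : ℕ} (hD : 1 ≤ D) (hK : 2 ≤ K)
    (hm' : 1 ≤ m') (hm'K : 2 ^ m' ≤ K)
    (hM : M = 64 * 1000 * K * (m' + 1)) (f : Fin m → MvPolynomial (Fin 2) ℤ)
    {ι : Type} [Fintype ι] [DecidableEq ι]
    (hcard : Fintype.card ι = K) (e : ι → Fin m) (L : ∀ l, Lin (f (e l)))
    {Cf : Fin m → ℕ} (hCf : ∀ k, ∀ n : ℕ, 1 ≤ n → ∀ x y : ℤ, |x| ≤ n → |y| ≤ n →
      |val (f k) x y| ≤ Cf k * (n : ℤ) ^ d)
    (hGdeg : (∏ k, lineRestrict (f k) n).natDegree ≤ D)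
    (hloc : ∀ p : ℕ, p.Prime → ¬ ∀ x : ℤ, (p : ℤ) ∣ ∏ k, (lineRestrict (f k) n).eval x)
    (hn5 : (100000 : ℝ) ≤ n)
    (hlev : (lev (2 * D) n' : ℝ) ^ ((D + 1) * M) ≤ (n : ℝ) ^ (1 / 1000 : ℝ))
    (hzB : n ≤ (2 ^ (2 ^ (2 * D + n'))) ^ B0)
    (hl3 : (2 : ℝ) ^ (2 * D + n') ≤ Real.log n)
    (hzC : (∑ k, Cf k) + 2 ≤ 2 ^ (2 ^ (2 * D + n')))
    (hz16 : 16 * (K + 2) ^ 2 ≤ 2 ^ (2 ^ (2 * D + n')))
    (huv : ∀ l, IsCoprime (L l).u ((L l).v n))
    (y : ℕ) (hy : y = ⌊(n : ℝ) ^ (1 / (1000 * M) : ℝ)⌋₊)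
    {P Ex : Finset ℕ} (hP : ∀ p ∈ P, p.Prime ∧ 2 ^ (2 ^ (2 * D + n')) < p ∧ p ≤ y ^ M)
    (hPu : ∀ p ∈ P, ∀ l, ¬ p ∣ ((L l).u).natAbs)
    (hdet : ∀ p ∈ P, ∀ l l', l ≠ l' → ¬ (p : ℤ) ∣ (L l).u * (L l').v n - (L l').u * (L l).v n)
    (hEx1 : ∀ p : ℕ, p.Prime → 2 ^ (2 ^ (2 * D + n')) < p → p ≤ y ^ M → p ∈ P ∨ p ∈ Ex)
    (hEx2 : ∑ p ∈ Ex, 1 / (p : ℝ) ≤ 1 / 2)
    (hn8 : ∀ l, 8 * |((L l).c : ℝ)| < n) (hnθ : ∀ l, 3 * (L l).θ ≤ n)
    (hpsi : ∀ l, (L l).θ * n / (24 * (L l).la) ≤ psiXL (L l).la ((L l).θ * n))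
    (hbv : ∀ l, ∀ a : ℕ → ℕ, (∀ q, (a q).Coprime ((L l).u.natAbs * q)) →
      ∑ q ∈ (Finset.Icc 1 ⌊((L l).θ * n) ^ (1 / 60 : ℝ)⌋₊).filter Squarefree,
      ((3 * K * D : ℕ) : ℝ) ^ (q.primeFactors.card) *
        |psiAPL (L l).la ((L l).θ * n) ((L l).u.natAbs * q) (a q) -
          psiXL (L l).la ((L l).θ * n) / (Nat.totient ((L l).u.natAbs * q) : ℝ)|
      ≤ (L l).θ * n / (Real.log ((L l).θ * n)) ^ (8 * D + 1))
    (hlogn : 2000 * M * Real.log 2 ≤ Real.log n) {Vl : ℝ} (hVl0 : 0 ≤ Vl)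
    (hVl : Vl ≤ W (fun p => (om (fun p y => (p : ℤ) ∣ (∏ k, lineRestrict (f k) n).eval y) p : ℝ) / p)
        (PK (2 * D) n'))
    (hE1 : (B0 : ℝ) ^ (4 * K) * (n : ℝ) ^ (3 / 1000 : ℝ) ≤ n * Vl)
    (hE2 : ∀ l, 32 * Real.sqrt (3 * ((L l).θ * n)) *
        ((n : ℝ) ^ (2 / 1000 : ℝ) * (B0 : ℝ) ^ (4 * K)) +
        (B0 : ℝ) ^ (2 * K) * ((L l).θ * n / (Real.log ((L l).θ * n)) ^ (8 * D + 1)) ≤
        del / (2 * K) * (n * Vl)) :
    n * W (fun p => (om (fun p y => (p : ℤ) ∣ (∏ k, lineRestrict (f k) n).eval y) p : ℝ) / p)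
        (PK (2 * D) n') * (del / 64) ≤
      K * (2 ^ (K * (B0 * d)) * (B0 : ℝ) ^ K) ^ 2 *
        (((Ioo 0 n).filter (fun x => Rgh f n (2 ^ (2 ^ (2 * D + n'))) x ∧ m' * del / 200 ≤
          ((univ.filter (fun l => (val (f (e l)) x ((n : ℤ) - x)).natAbs.Prime)).card : ℝ))).card :
          ℝ) := by
  set G : ℤ[X] := ∏ k, lineRestrict (f k) n with hG
  set z : ℕ := 2 ^ (2 ^ (2 * D + n')) with hz
  have hKr : (2 : ℝ) ≤ K := by exact_mod_cast hK
  have hm'r : (1 : ℝ) ≤ m' := by exact_mod_cast hm'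
  have hM1 : 1 ≤ M := by
    rw [hM]
    exact Nat.mul_pos (by omega) (by omega)
  have hn0 : (0 : ℝ) < n := by linarith only [hn5]
  have hz2 : 2 ≤ z := by omega
  have hzl : z ≤ lev (2 * D) n' := le_lev _ _
  obtain ⟨hzy, hyM, hLy, hlevD⟩ := size_y hM1 hn5 hlev (by omega) hzl hy hlogn
  have hMr : (1 : ℝ) ≤ M := by exact_mod_cast hM1
  have hy2 : 2 ≤ y := hz2.trans hzy
  have hyr : (2 : ℝ) ≤ y := by exact_mod_cast hy2
  have hzr : (2 : ℝ) ≤ z := by exact_mod_cast hz2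
  have hLy0 : 0 < Real.log y := Real.log_pos (by linarith only [hyr])
  have hlz0 : 0 < Real.log z := Real.log_pos (by linarith only [hzr])
  have hln1 : 1 ≤ Real.log n := by
    rw [Real.le_log_iff_exp_le hn0]
    linarith only [hn5, Real.exp_one_lt_d9]
  set κ : ℝ := kapD z with hκdef
  have hκ : 0 < κ := kapD_pos z
  have hκlz : κ * Real.log z ≤ 1 := kapD_mul_log_le z (by omega)
  have hlogB : Real.log n ≤ B0 * Real.log z := by
    rw [← Real.log_pow]
    apply Real.log_le_log hn0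
    exact_mod_cast hzB
  have hκn : κ * Real.log n ≤ B0 := by
    calc κ * Real.log n ≤ κ * (B0 * Real.log z) := mul_le_mul_of_nonneg_left hlogB hκ.le
      _ = B0 * (κ * Real.log z) := by ring
      _ ≤ B0 * 1 := mul_le_mul_of_nonneg_left hκlz (Nat.cast_nonneg _)
      _ = B0 := mul_one _
  -- the sieve data
  have hPz : ∀ p ∈ P, p.Prime ∧ z < p := fun p hp => ⟨(hP p hp).1, (hP p hp).2.1⟩
  obtain ⟨S, hSp, hSR, hA1, hA2l, hA2u, hB1⟩ := exists_sdataG (ι := ι) P z 1000 m' y κ hκ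
    (by norm_num) hm' hy2 hPz (by rw [hcard]; exact hm'K) (by rw [hcard]; exact hz16) (by
      intro ee he heM
      rw [hcard, ← hM] at heM
      have hye : y ≤ y ^ ee := Nat.le_self_pow (by omega) y
      have hlog : Real.log ((y ^ ee : ℕ) : ℝ) = ee * Real.log y := by
        push_cast
        rw [Real.log_pow]
      constructor
      · have h1 := g0_lower P z (y ^ ee) (Nat.one_le_pow _ _ (by omega)) Ex (by
          intro p hp hzp hpe
          exact hEx1 p hp hzp (hpe.trans (Nat.pow_le_pow_right (by omega) heM))) hEx2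
        rw [hlog] at h1
        exact h1
      · have h1 := g0_upper P z hPz (y ^ ee) (hy2.trans hye) (hzy.trans hye)
        rw [hlog] at h1
        push_cast
        linarith only [h1])
  rw [hcard, ← hM] at hSR
  rw [hcard] at hB1
  have hSR2 : 2 ≤ S.R := by
    rw [hSR]
    exact hy2.trans (Nat.le_self_pow (by omega) y)
  have hSRr : ((S.R : ℕ) : ℝ) ≤ (n : ℝ) ^ (1 / 1000 : ℝ) := by
    rw [hSR]; push_cast; exact hyM
  have hSR0 : (0 : ℝ) < S.R := by
    have : 0 < S.R := by omega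
    exact_mod_cast this
  have hlogR : Real.log S.R ≤ Real.log n / 1000 := by
    have h1 := Real.log_le_log hSR0 hSRr
    rw [Real.log_rpow hn0] at h1
    linarith only [h1]
  -- size of the weights
  have hG0 : S.G0 S.R ≤ B0 := by
    rw [G0_eq S hSp]
    have h1 := g0_upper P z hPz S.R hSR2 (by
      rw [hSR]
      exact hzy.trans (Nat.le_self_pow (by omega) y))
    refine h1.trans ?_
    calc 1000 * κ * Real.log S.R ≤ 1000 * κ * (Real.log n / 1000) :=
          mul_le_mul_of_nonneg_left hlogR (by (clear * - hκ; positivity))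
      _ = κ * Real.log n := by ring
      _ ≤ B0 := hκn
  have hG00 : 0 ≤ S.G0 S.R := G0_nonneg S _
  have hB0r : (0 : ℝ) ≤ B0 := Nat.cast_nonneg _
  have hsum : ∀ g : (PJf P → Option ι) → ℝ, (∀ α, |g α| ≤ S.G0 S.R ^ Fintype.card ι) →
      (∀ α, g α ≠ 0 → nn S.p (supp α) ≤ S.R) →
      (∑ α, |g α|) ^ 2 ≤ (n : ℝ) ^ (2 / 1000 : ℝ) * (B0 : ℝ) ^ (4 * K) := by
    intro g hg1 hg2
    have h1 := sum_abs_le S g _ S.R hg1 hg2
    rw [hcard] at h1
    have h2 : ∑ α, |g α| ≤ (n : ℝ) ^ (1 / 1000 : ℝ) * (B0 : ℝ) ^ K * (B0 : ℝ) ^ K := by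
      refine h1.trans ?_
      have h3 : S.G0 S.R ^ K ≤ (B0 : ℝ) ^ K := pow_le_pow_left₀ hG00 hG0 K
      have h4 : 0 ≤ S.G0 S.R ^ K := pow_nonneg hG00 K
      (clear * - hSRr h3 hG00 hn5; gcongr)
    have h3 : 0 ≤ ∑ α, |g α| := Finset.sum_nonneg fun _ _ => abs_nonneg _
    calc (∑ α, |g α|) ^ 2 ≤ ((n : ℝ) ^ (1 / 1000 : ℝ) * (B0 : ℝ) ^ K * (B0 : ℝ) ^ K) ^ 2 :=
          pow_le_pow_left₀ h3 h2 2
      _ = ((n : ℝ) ^ (1 / 1000 : ℝ)) ^ 2 * (B0 : ℝ) ^ (4 * K) := by ring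
      _ = _ := by
          rw [← Real.rpow_natCast, ← Real.rpow_mul hn0.le]
          norm_num
  have hlamS := hsum S.lam S.abs_lam_le S.lam_support
  have hlamiS : ∀ l, (∑ α, |S.lami l α|) ^ 2 ≤ (n : ℝ) ^ (2 / 1000 : ℝ) * (B0 : ℝ) ^ (4 * K) :=
    fun l => hsum (S.lami l) (S.abs_lami_le l) (fun α hα => (S.lami_support l α hα).2)
  -- the density
  set V : ℝ := W (fun p => (om (fun p y => (p : ℤ) ∣ G.eval y) p : ℝ) / p) (PK (2 * D) n') with hV
  have hV0 : 0 ≤ V := hVl0.trans hVl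
  have hA21 : 1 ≤ S.A2 := S.A2_ge_one
  have hA2K : 1 ≤ S.A2 ^ K := one_le_pow₀ hA21
  set Φ : ℝ := n * V * S.A2 ^ K with hΦ
  have hVΦ : n * V ≤ Φ := le_mul_of_one_le_right (by (clear * - hn5 hV0; positivity)) hA2K
  have hVlΦ : n * Vl ≤ Φ := (mul_le_mul_of_nonneg_left hVl hn0.le).trans hVΦ
  have hΦ0 : 0 ≤ Φ := le_trans (by positivity) hVΦ
  -- the total sum
  have hS1 := S1_upper f hGdeg hloc hPz hPu huv hdet S hSp (by
    have : (1 : ℝ) ≤ n := by linarith only [hn5]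
    exact_mod_cast this)
  rw [hcard, ← hz, ← hG, ← hV] at hS1
  have hS1' : ∑ x ∈ (Ioo 0 n).filter (fun x => Rgh f n z x),
      ZI (Dl P (fun l => (L l).u) (fun l => (L l).v n)) S.lam (x : ℤ) ^ 2 ≤ 3 * Φ := by
    refine hS1.trans ?_
    have h1 : (∑ α, |S.lam α|) ^ 2 * (lev (2 * D) n' : ℝ) ^ (D + 1) ≤ Φ := by
      calc (∑ α, |S.lam α|) ^ 2 * (lev (2 * D) n' : ℝ) ^ (D + 1) ≤
            ((n : ℝ) ^ (2 / 1000 : ℝ) * (B0 : ℝ) ^ (4 * K)) * (n : ℝ) ^ (1 / 1000 : ℝ) :=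
            mul_le_mul hlamS hlevD (by (clear * -; positivity)) (by (clear * - hn5; positivity))
        _ = (B0 : ℝ) ^ (4 * K) * ((n : ℝ) ^ (2 / 1000 : ℝ) * (n : ℝ) ^ (1 / 1000 : ℝ)) := by ring
        _ = (B0 : ℝ) ^ (4 * K) * (n : ℝ) ^ (3 / 1000 : ℝ) := by
            rw [← Real.rpow_add hn0]
            norm_num
        _ ≤ n * Vl := hE1
        _ ≤ Φ := hVlΦ
    have h2 : (n : ℝ) * (2 * V) * S.A2 ^ K = 2 * Φ := by rw [hΦ]; ring
    linarith only [h1]
  -- lower bound for the main term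
  have hmainT : Φ * m' * Real.log n * (del / K) ≤
      1 / 2 * ((n : ℝ) / 1536 * (V / κ)) * (S.A1 ^ 2 * S.A2 ^ (K - 1) / 4) := by
    have hK1 : S.A2 ^ K = S.A2 * S.A2 ^ (K - 1) := by
      rw [← pow_succ']; congr 1; omega
    have hA1sq : (m' * κ * Real.log y / 8) ^ 2 ≤ S.A1 ^ 2 :=
      pow_le_pow_left₀ (by (clear * - hm' hκ hLy0; positivity)) hA1 2
    have hκL : S.A2 / 2000 ≤ κ * Real.log y := by
      have : S.A2 ≤ 2 * 1000 * κ * Real.log y := by exact_mod_cast hA2u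
      linarith only [this]
    have hMle : (M : ℝ) ≤ 128000 * K * m' :=
      M_le (by rw [hM]; push_cast; ring) (by linarith only [hKr]) hm'r
    have hLn : Real.log n ≤ 256000000 * K * m' * Real.log y := by
      refine hLy.trans ?_
      calc 2000 * M * Real.log y ≤ 2000 * (128000 * K * m') * Real.log y := by (clear * - hMle hLy0; gcongr)
        _ = _ := by ring
    -- A1 ^ 2 / κ ≥ m'^2 * L * A2 / 128000
    have h1 : m' ^ 2 * Real.log y * S.A2 / 128000 ≤ S.A1 ^ 2 / κ := by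
      rw [le_div_iff₀ hκ]
      calc m' ^ 2 * Real.log y * S.A2 / 128000 * κ =
            (m' ^ 2 * Real.log y * κ / 64) * (S.A2 / 2000) := by ring
        _ ≤ (m' ^ 2 * Real.log y * κ / 64) * (κ * Real.log y) :=
            mul_le_mul_of_nonneg_left hκL (by (clear * - hm' hLy0 hκ; positivity))
        _ = (m' * κ * Real.log y / 8) ^ 2 := by ring
        _ ≤ S.A1 ^ 2 := hA1sq
    have hP0 : 0 ≤ S.A2 ^ (K - 1) := by (clear * - hA21; positivity)
    calc Φ * m' * Real.log n * (del / K) ≤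
          Φ * m' * (256000000 * K * m' * Real.log y) * (del / K) := by
          have := del_pos
          (clear * - hLn hn5 hV0 hA21 hm' this hK; gcongr)
      _ = n * V * S.A2 ^ (K - 1) / 12288 * (m' ^ 2 * Real.log y * S.A2 / 128000) := by
          rw [hΦ, hK1]
          unfold del
          field_simp
          ring
      _ ≤ n * V * S.A2 ^ (K - 1) / 12288 * (S.A1 ^ 2 / κ) :=
          mul_le_mul_of_nonneg_left h1 (by (clear * - hn5 hV0 hA21; positivity))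
      _ = _ := by
          field_simp
          ring
  -- the sums over prime values
  have hT : ∀ l, Φ * m' * del / (32 * K) ≤
      ∑ x ∈ ((Ioo 0 n).filter (fun x => Rgh f n z x)).filter
        (fun x : ℕ => (val (f (e l)) x ((n : ℤ) - x)).natAbs.Prime),
        ZI (Dl P (fun l => (L l).u) (fun l => (L l).v n)) S.lam (x : ℤ) ^ 2 := by
    intro l
    obtain ⟨hf1, hf2, hf3, hf4, hf5⟩ := level_facts (L l).θ_ge hn5 hl3
    have hn12 : (n : ℝ) ^ (3 / 1000 : ℝ) ≤ ((L l).θ * n) ^ (1 / 60 : ℝ) := by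
      have h16 : (n : ℝ) ^ (1 / 2 : ℝ) ≤ (L l).θ * n := half_le (L l).θ_ge hn5
      calc (n : ℝ) ^ (3 / 1000 : ℝ) ≤ (n : ℝ) ^ (1 / 120 : ℝ) :=
            Real.rpow_le_rpow_of_exponent_le (by linarith only [hn5]) (by norm_num)
        _ = ((n : ℝ) ^ (1 / 2 : ℝ)) ^ (1 / 60 : ℝ) := by
            rw [← Real.rpow_mul hn0.le]; norm_num
        _ ≤ _ := Real.rpow_le_rpow (by positivity) h16 (by norm_num)
    have hn14 : 3 * (n : ℝ) ^ (1 / 1000 : ℝ) < (L l).θ * n := three_le (L l).θ_ge hn5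
    have hTl := T_lower hD f e L hGdeg hloc hPz hPu huv hdet S hSp l (fun p hp => by
      rw [hSR]; exact (hP p hp).2.2) (hn8 l) hf3 (by linarith only [hSRr, hn14]) hf4 (hpsi l) (8 * D + 1)
      (by rw [hcard]; exact hbv l) (by
        push_cast
        refine le_trans ?_ hn12
        have h1 : (lev (2 * D) n' : ℝ) ≤ (n : ℝ) ^ (1 / 1000 : ℝ) := by
          refine le_trans ?_ hlevD
          apply le_self_pow₀ _ (by omega)
          have : 1 ≤ lev (2 * D) n' := by omega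
          exact_mod_cast this
        calc (S.R : ℝ) * S.R * lev (2 * D) n' ≤
              (n : ℝ) ^ (1 / 1000 : ℝ) * (n : ℝ) ^ (1 / 1000 : ℝ) * (n : ℝ) ^ (1 / 1000 : ℝ) := by
              (clear * - hSRr hSR2 hn5 h1; gcongr)
          _ = _ := by
              rw [← Real.rpow_add hn0, ← Real.rpow_add hn0]; norm_num) (by
        -- 1 < log R
        have h1 : 2 * Real.log 2 ≤ Real.log S.R := by
          rw [hSR]
          push_cast
          rw [Real.log_pow]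
          have h2 : Real.log 2 ≤ Real.log y := Real.log_le_log (by norm_num) hyr
          have h3 : (2 : ℝ) ≤ M := M_ge (by rw [hM]; push_cast; ring) hKr hm'r
          exact two_log h3 h2 (Real.log_pos (by norm_num))
        linarith only [h1, Real.log_two_gt_d9]) (by rw [hcard]; exact hB1)
    rw [hcard, ← hz, ← hG, ← hV, ← hκdef] at hTl
    rw [Finset.filter_filter]
    set T := ∑ x ∈ (Ioo 0 n).filter (fun x : ℕ => Rgh f n z x ∧
          (val (f (e l)) x ((n : ℤ) - x)).natAbs.Prime),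
          ZI (Dl P (fun l => (L l).u) (fun l => (L l).v n)) S.lam (x : ℤ) ^ 2 with hTdef
    have hT0 : 0 ≤ T := Finset.sum_nonneg fun _ _ => sq_nonneg _
    have hθ0 := (L l).θ_pos
    have hX0 : 0 < (L l).θ * n := by positivity
    have hlog3 : Real.log (3 * ((L l).θ * n)) ≤ 2 * Real.log n := by
      rw [← mul_assoc, Real.log_mul (by positivity) hn0.ne']
      have := Real.log_le_log (by positivity) (hnθ l)
      linarith only [this]
    have hlog30 : 0 ≤ Real.log (3 * ((L l).θ * n)) := by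
      rw [Real.log_mul (by norm_num) hX0.ne']
      have := Real.log_pos (show (1 : ℝ) < 3 by norm_num)
      linarith only [hf4, this]
    have e1 : 8 * Real.log (3 * ((L l).θ * n)) * T ≤ Real.log n * (16 * T) := by
      have : Real.log (3 * ((L l).θ * n)) * T ≤ 2 * Real.log n * T :=
        mul_le_mul_of_nonneg_right hlog3 hT0
      linarith only [this]
    have e2 : 16 * Real.sqrt (3 * ((L l).θ * n)) * Real.log (3 * ((L l).θ * n)) *
        (∑ α, |S.lami l α|) ^ 2 ≤ Real.log n * (32 * Real.sqrt (3 * ((L l).θ * n)) *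
          ((n : ℝ) ^ (2 / 1000 : ℝ) * (B0 : ℝ) ^ (4 * K))) := by
      calc 16 * Real.sqrt (3 * ((L l).θ * n)) * Real.log (3 * ((L l).θ * n)) *
            (∑ α, |S.lami l α|) ^ 2 ≤ 16 * Real.sqrt (3 * ((L l).θ * n)) * (2 * Real.log n) *
            ((n : ℝ) ^ (2 / 1000 : ℝ) * (B0 : ℝ) ^ (4 * K)) := by
            apply mul_le_mul _ (hlamiS l) (sq_nonneg _) (by positivity)
            exact mul_le_mul_of_nonneg_left hlog3 (by positivity)
        _ = _ := by ring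
    have e3 : (S.G0 S.R ^ K) ^ 2 * ((L l).θ * n / (Real.log ((L l).θ * n)) ^ (8 * D + 1)) ≤
        Real.log n * ((B0 : ℝ) ^ (2 * K) *
          ((L l).θ * n / (Real.log ((L l).θ * n)) ^ (8 * D + 1))) := by
      have h1 : (S.G0 S.R ^ K) ^ 2 ≤ (B0 : ℝ) ^ (2 * K) := by
        calc (S.G0 S.R ^ K) ^ 2 = S.G0 S.R ^ (2 * K) := by ring
          _ ≤ _ := pow_le_pow_left₀ hG00 hG0 _
      have h2 : 0 ≤ (L l).θ * n / (Real.log ((L l).θ * n)) ^ (8 * D + 1) := by
        apply div_nonneg hX0.le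
        apply pow_nonneg
        linarith only [hf4]
      calc _ ≤ (B0 : ℝ) ^ (2 * K) *
          ((L l).θ * n / (Real.log ((L l).θ * n)) ^ (8 * D + 1)) :=
            mul_le_mul_of_nonneg_right h1 h2
        _ ≤ _ := le_mul_of_one_le_left (by (clear * - hθ0 hn5 hf4; positivity)) hln1
    have e4 : Real.log n * (Φ * m' * (del / K)) ≤ Real.log n * (16 * T + del / (2 * K) * Φ) := by
      have e5 : del / (2 * K) * (n * Vl) ≤ del / (2 * K) * Φ :=
        mul_le_mul_of_nonneg_left hVlΦ (by have := del_pos; positivity)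
      have e6 := mul_le_mul_of_nonneg_left ((hE2 l).trans e5) (show 0 ≤ Real.log n by linarith only [hln1])
      calc Real.log n * (Φ * m' * (del / K)) = Φ * m' * Real.log n * (del / K) := by ring
        _ ≤ _ := hmainT
        _ ≤ _ := hTl
        _ ≤ Real.log n * (16 * T) + Real.log n * (32 * Real.sqrt (3 * ((L l).θ * n)) *
          ((n : ℝ) ^ (2 / 1000 : ℝ) * (B0 : ℝ) ^ (4 * K))) + Real.log n * ((B0 : ℝ) ^ (2 * K) *
          ((L l).θ * n / (Real.log ((L l).θ * n)) ^ (8 * D + 1))) := by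
            linarith only [e1, e2, e3]
        _ ≤ _ := by
            linarith only [e6]
    have e5 := le_of_mul_le_mul_left e4 (by linarith only [hln1])
    have e6 : del / (2 * K) * Φ ≤ Φ * m' * (del / K) / 2 := by
      have h1 : Φ * (del / K) ≤ Φ * m' * (del / K) := by
        have := del_pos
        have h2 : 0 ≤ Φ * (del / K) := by (clear * - hn5 hV0 hA21 this hK; positivity)
        calc Φ * (del / K) ≤ Φ * (del / K) * m' := le_mul_of_one_le_right h2 hm'r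
          _ = _ := by ring
      calc del / (2 * K) * Φ = Φ * (del / K) / 2 := by field_simp
        _ ≤ _ := by linarith only [h1]
    have e7 : Φ * m' * del / (32 * K) = Φ * m' * (del / K) / 32 := by field_simp
    rw [e7]
    linarith only [e5, e6]
  -- the pointwise bound
  have hwmax : ∀ x ∈ (Ioo 0 n).filter (fun x => Rgh f n z x),
      ZI (Dl P (fun l => (L l).u) (fun l => (L l).v n)) S.lam (x : ℤ) ^ 2 ≤
        (2 ^ (K * (B0 * d)) * (B0 : ℝ) ^ K) ^ 2 := by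
    intro x hx
    rw [Finset.mem_filter, Finset.mem_Ioo] at hx
    have h1 := abs_ZI_le (Dl P (fun l => (L l).u) (fun l => (L l).v n)) (x : ℤ) (K * (B0 * d))
      S.lam (S.G0 S.R ^ Fintype.card ι) S.abs_lam_le (by
        rw [← hcard, ← smul_eq_mul, ← Finset.card_univ]
        apply Finset.sum_le_card_nsmul
        intro l _
        obtain ⟨h2, h3⟩ := omega_of_rough f hCf hzC hzB hx.1.1 hx.1.2 hx.2 (e l)
        refine le_trans ?_ h3
        refine le_trans (Finset.card_le_card ?_) (card_dvd_le (fun p hp => (hP p hp).1) h2)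
        intro j hj
        rw [Finset.mem_filter] at hj ⊢
        refine ⟨Finset.mem_univ _, ?_⟩
        have h4 : (((j : ℕ) : ℤ)) ∣ (L l).u * x + (L l).v n := hj.2
        rw [(L l).eval_eq, eval_lineRestrict] at h4
        rcases (L l).hσ with h | h
        · rwa [h, one_mul] at h4
        · rwa [h, neg_one_mul, dvd_neg] at h4)
    rw [← sq_abs]
    apply pow_le_pow_left₀ (abs_nonneg _)
    refine h1.trans ?_
    rw [hcard]
    apply mul_le_mul_of_nonneg_left _ (by positivity)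
    exact pow_le_pow_left₀ hG00 hG0 K
  have hfin := count_lower ((Ioo 0 n).filter (fun x => Rgh f n z x))
    (fun x : ℕ => ZI (Dl P (fun l => (L l).u) (fun l => (L l).v n)) S.lam (x : ℤ) ^ 2)
    (fun _ _ => sq_nonneg _) _ hwmax
    (fun l x => (val (f (e l)) x ((n : ℤ) - x)).natAbs.Prime) (ρ := m' * del / 200)
    (by have := del_pos; positivity) hT hS1' (by
      rw [hcard]
      have h1 : (K : ℝ) * (Φ * m' * del / (32 * K)) / 2 = Φ * m' * del / 64 := by
        field_simp; ring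
      rw [h1]
      have h2 : 0 ≤ Φ * m' * del := by
        have := del_pos
        (clear * - hn5 hV0 hA21 hm' this; positivity)
      calc (m' : ℝ) * del / 200 * (3 * Φ) = Φ * m' * del * (3 / 200) := by ring
        _ ≤ Φ * m' * del * (1 / 64) := mul_le_mul_of_nonneg_left (by norm_num) h2
        _ = _ := by ring)
  rw [hcard, Finset.filter_filter] at hfin
  have h1 : (K : ℝ) * (Φ * m' * del / (32 * K)) / 2 = Φ * m' * del / 64 := by
    field_simp; ring
  rw [h1] at hfin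
  refine le_trans ?_ hfin
  have h2 : 0 ≤ del := del_pos.le
  calc (n : ℝ) * V * (del / 64) ≤ Φ * (del / 64) := mul_le_mul_of_nonneg_right hVΦ (by (clear * - h2; positivity))
    _ ≤ Φ * m' * (del / 64) := by
        apply mul_le_mul_of_nonneg_right _ (by (clear * - h2; positivity))
        exact le_mul_of_one_le_right hΦ0 hm'r
    _ = _ := by ring

end Pool.Agent.MT
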